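import Pool.Agent.Lib.MP_568911_lc.Basic

/-!
# Amalgamation
-/

namespace Pool.Agent.MP568911
open FirstOrder FirstOrder.Language Function
universe u v w

/-- **Amalgamation of a family of copies of `Z`** over a structure `N`: the copies of `Y ⊆ Z` are
identified with parts of `N`, the copies of `X ⊆ Z` with each other. -/
theorem amalg3 {N Z : Type w} [LL.Structure N] [LL.Structure Z] (hN : Good N) (hZ : Good Z)
    {ι : Type v} [Nonempty ι] (X Y : LL.Substructure Z) (g : ι → (Y ↪[LL] N))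
    (h1 : ∀ i k, i ≠ k → ∀ y y' : Y, g i y = g k y' → y = y' ∧ (y : Z) ∈ X)
    (h2 : ∀ i k, ∀ y : Y, (y : Z) ∈ X → g i y = g k y)
    (x0 : Z) (hx0X : x0 ∈ X) (hx0Y : x0 ∈ Y) :
    ∃ (D : Type (max v w)) (_ : LL.Structure D) (F : N ↪[LL] D) (G : ι → (Z ↪[LL] D)), Good D ∧
      (∀ i (y : Y), G i y = F (g i y)) ∧ (∀ i k, ∀ x ∈ X, G i x = G k x) ∧
      (∀ i z n, G i z = F n → z ∈ Y) := by
  classical
  let D : Type (max v w) := ULift.{v} N ⊕ ULift.{v} {x : Z // x ∈ X ∧ x ∉ Y} ⊕
    (ι × {z : Z // z ∉ X ∧ z ∉ Y})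
  let B : Option ι → Type w := fun o => match o with
    | none => N
    | some _ => Z
  letI : ∀ o, LL.Structure (B o) := fun o => match o with
    | none => (inferInstance : LL.Structure N)
    | some _ => (inferInstance : LL.Structure Z)
  let jj : ι → Z → D := fun i z =>
    if hY : z ∈ Y then Sum.inl ⟨g i ⟨z, hY⟩⟩ else
      if hX : z ∈ X then Sum.inr (Sum.inl ⟨⟨z, hX, hY⟩⟩) else Sum.inr (Sum.inr (i, ⟨z, hX, hY⟩))
  have jY : ∀ i z (hY : z ∈ Y), jj i z = Sum.inl ⟨g i ⟨z, hY⟩⟩ := by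
    intro i z hY
    simp only [jj, dif_pos hY]
  have jX : ∀ i z (hY : z ∉ Y) (hX : z ∈ X), jj i z = Sum.inr (Sum.inl ⟨⟨z, hX, hY⟩⟩) := by
    intro i z hY hX
    simp only [jj, dif_neg hY, dif_pos hX]
  have jZ : ∀ i z (hY : z ∉ Y) (hX : z ∉ X), jj i z = Sum.inr (Sum.inr (i, ⟨z, hX, hY⟩)) := by
    intro i z hY hX
    simp only [jj, dif_neg hY, dif_neg hX]
  have jXX : ∀ i k, ∀ z ∈ X, jj i z = jj k z := by
    intro i k z hz
    by_cases hY : z ∈ Y
    · rw [jY i z hY, jY k z hY, h2 i k ⟨z, hY⟩ hz]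
    · rw [jX i z hY hz, jX k z hY hz]
  have jinj : ∀ i k z z', jj i z = jj k z' → z = z' ∧ (i = k ∨ z ∈ X) := by
    intro i k z z' h
    by_cases hY : z ∈ Y
    · by_cases hY' : z' ∈ Y
      · rw [jY i z hY, jY k z' hY'] at h
        have h := ULift.up_injective (Sum.inl_injective h)
        by_cases hik : i = k
        · subst hik
          have := (g i).injective h
          exact ⟨congrArg Subtype.val this, Or.inl rfl⟩
        · obtain ⟨h3, h4⟩ := h1 i k hik _ _ h
          exact ⟨congrArg Subtype.val h3, Or.inr h4⟩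
      · rw [jY i z hY] at h
        by_cases hX' : z' ∈ X
        · rw [jX k z' hY' hX'] at h
          exact absurd h Sum.inl_ne_inr
        · rw [jZ k z' hY' hX'] at h
          exact absurd h Sum.inl_ne_inr
    · by_cases hX : z ∈ X
      · rw [jX i z hY hX] at h
        by_cases hY' : z' ∈ Y
        · rw [jY k z' hY'] at h
          exact absurd h Sum.inr_ne_inl
        · by_cases hX' : z' ∈ X
          · rw [jX k z' hY' hX'] at h
            have h := ULift.up_injective (Sum.inl_injective (Sum.inr_injective h))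
            exact ⟨congrArg Subtype.val h, Or.inr hX⟩
          · rw [jZ k z' hY' hX'] at h
            exact absurd (Sum.inr_injective h) Sum.inl_ne_inr
      · rw [jZ i z hY hX] at h
        by_cases hY' : z' ∈ Y
        · rw [jY k z' hY'] at h
          exact absurd h Sum.inr_ne_inl
        · by_cases hX' : z' ∈ X
          · rw [jX k z' hY' hX'] at h
            exact absurd (Sum.inr_injective h) Sum.inr_ne_inl
          · rw [jZ k z' hY' hX'] at h
            have h := Sum.inr_injective (Sum.inr_injective h)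
            rw [Prod.mk.injEq, Subtype.mk.injEq] at h
            exact ⟨h.2, Or.inl h.1⟩
  have jN : ∀ i z n, jj i z = Sum.inl ⟨n⟩ → ∃ hY : z ∈ Y, n = g i ⟨z, hY⟩ := by
    intro i z n h
    by_cases hY : z ∈ Y
    · rw [jY i z hY] at h
      have h := ULift.up_injective (Sum.inl_injective h)
      exact ⟨hY, h.symm⟩
    · by_cases hX : z ∈ X
      · rw [jX i z hY hX] at h
        exact absurd h Sum.inr_ne_inl
      · rw [jZ i z hY hX] at h
        exact absurd h Sum.inr_ne_inl
  let j : ∀ o, B o → D := fun o => match o with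
    | none => fun n : N => Sum.inl ⟨n⟩
    | some i => fun z : Z => jj i z
  have hj : ∀ o, Injective (j o) := by
    rintro (_ | i)
    · intro n n' h
      exact ULift.up_injective (Sum.inl_injective h)
    · intro z z' h
      exact (jinj i i z z' h).1
  have hsurj : ∀ e, ∃ o b, j o b = e := by
    rintro (⟨⟨n⟩⟩ | ⟨⟨x, hX, hY⟩⟩ | ⟨i, z, hX, hY⟩)
    · exact ⟨none, n, rfl⟩
    · exact ⟨some (Classical.arbitrary ι), x, jX _ x hY hX⟩
    · exact ⟨some i, z, jZ i z hY hX⟩
  have subep : ∀ c (z : Z) (hY : z ∈ Y) (hY' : ep c z ∈ Y),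
      ep c (⟨z, hY⟩ : Y) = ⟨ep c z, hY'⟩ := fun c z hY hY' => Subtype.ext (coe_ep Y c _)
  have subgg : ∀ n s (z z' : Z) (hY : z ∈ Y) (hY' : z' ∈ Y) (hY'' : gg n s z z' ∈ Y),
      gg n s (⟨z, hY⟩ : Y) ⟨z', hY'⟩ = ⟨gg n s z z', hY''⟩ :=
    fun n s z z' hY hY' hY'' => Subtype.ext (coe_gg Y n s _ _)
  have hep : ∀ c o o' (b : B o) (b' : B o'), j o b = j o' b' → j o (ep c b) = j o' (ep c b') := by
    rintro c (_ | i) (_ | k) b b' h
    · rw [hj none h]
    · obtain ⟨hY, hn⟩ := jN k b' b h.symm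
      have h3 := jY k (ep c b' : Z) (ep_mem Y c hY)
      change _ = jj k (ep c b' : Z)
      rw [h3]
      change Sum.inl (ULift.up (ep c (b : N))) = _
      rw [hn, ← map_ep, subep]
    · obtain ⟨hY, hn⟩ := jN i b b' h
      have h3 := jY i (ep c b : Z) (ep_mem Y c hY)
      change jj i (ep c b : Z) = _
      rw [h3]
      change _ = Sum.inl (ULift.up (ep c (b' : N)))
      rw [hn, ← map_ep, subep]
    · obtain ⟨hb, hX⟩ := jinj i k b b' h
      have hb' : b = b' := hb
      subst hb'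
      rcases hX with rfl | hX
      · rfl
      · exact jXX i k _ (ep_mem X c hX)
  have hgg : ∀ o o' n s (b : B o) (b' : B o') (d : B o) (d' : B o'), j o b = j o' b' →
      j o d = j o' d' → j o (gg n s b d) = j o' (gg n s b' d') := by
    rintro (_ | i) (_ | k) n s b b' d d' h h'
    · rw [hj none h, hj none h']
    · obtain ⟨hY, hn⟩ := jN k b' b h.symm
      obtain ⟨hY', hn'⟩ := jN k d' d h'.symm
      have h3 := jY k (gg n s b' d' : Z) (gg_mem Y n s hY hY')
      change _ = jj k (gg n s b' d' : Z)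
      rw [h3]
      change Sum.inl (ULift.up (gg n s (b : N) (d : N))) = _
      rw [hn, hn', ← map_gg, subgg]
    · obtain ⟨hY, hn⟩ := jN i b b' h
      obtain ⟨hY', hn'⟩ := jN i d d' h'
      have h3 := jY i (gg n s b d : Z) (gg_mem Y n s hY hY')
      change jj i (gg n s b d : Z) = _
      rw [h3]
      change _ = Sum.inl (ULift.up (gg n s (b' : N) (d' : N)))
      rw [hn, hn', ← map_gg, subgg]
    · obtain ⟨hb, hX⟩ := jinj i k b b' h
      obtain ⟨hd, hX'⟩ := jinj i k d d' h'
      have hb' : b = b' := hb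
      have hd' : d = d' := hd
      subst hb' hd'
      rcases hX with rfl | hX
      · rfl
      · rcases hX' with rfl | hX'
        · rfl
        · exact jXX i k _ (gg_mem X n s hX hX')
  obtain ⟨S, hD, hF⟩ := glue (B := B) (fun o => match o with
    | none => hN
    | some _ => hZ) j hj hsurj (hep true) (hep false) hgg
    (fun o => match o with
    | none => (g (Classical.arbitrary ι) ⟨x0, hx0Y⟩ : N)
    | some _ => x0) (by
      rintro (_ | i) (_ | k)
      · rfl
      · change Sum.inl _ = jj k x0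
        rw [jY k x0 hx0Y, h2 k (Classical.arbitrary ι) ⟨x0, hx0Y⟩ hx0X]
      · change jj i x0 = Sum.inl _
        rw [jY i x0 hx0Y, h2 i (Classical.arbitrary ι) ⟨x0, hx0Y⟩ hx0X]
      · exact jXX i k x0 hx0X)
  letI := S
  choose F hF using hF
  refine ⟨D, S, F none, fun i => F (some i), hD, ?_, ?_, ?_⟩
  · intro i y
    have e1 : F (some i) (y : Z) = jj i y := hF (some i) (y : Z)
    have e2 : F none (g i y) = Sum.inl ⟨g i y⟩ := hF none (g i y)
    rw [e1, e2, jY i y y.2]
  · intro i k x hx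
    have e1 : F (some i) (x : Z) = jj i x := hF (some i) (x : Z)
    have e2 : F (some k) (x : Z) = jj k x := hF (some k) (x : Z)
    rw [e1, e2, jXX i k x hx]
  · intro i z n h
    have e1 : F (some i) (z : Z) = jj i z := hF (some i) (z : Z)
    have e2 : F none n = Sum.inl ⟨n⟩ := hF none n
    rw [e1, e2] at h
    exact (jN i z n h).1

/-- Free amalgamation of two structures. -/
theorem amalg2 {A N Z : Type w} [LL.Structure A] [LL.Structure N] [LL.Structure Z] [Nonempty A]
    (hN : Good N) (hZ : Good Z) (i : A ↪[LL] N) (k : A ↪[LL] Z) :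
    ∃ (D : Type w) (_ : LL.Structure D) (F : N ↪[LL] D) (G : Z ↪[LL] D), Good D ∧
      (∀ a, G (k a) = F (i a)) ∧ (∀ z n, G z = F n → ∃ a, k a = z ∧ i a = n) := by
  classical
  let Y : LL.Substructure Z := k.toHom.range
  let ey : A ≃[LL] Y := k.equivRange
  obtain ⟨D, S, F, G, h1, h2, h3, h4⟩ := amalg3 (ι := PUnit.{1}) hN hZ Y Y
    (fun _ => i.comp ey.symm.toEmbedding)
    (fun _ _ h => absurd rfl h) (fun _ _ _ _ => rfl) (k (Classical.arbitrary A))
    ⟨Classical.arbitrary A, rfl⟩ ⟨Classical.arbitrary A, rfl⟩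
  have key : ∀ a, G ⟨⟩ (k a) = F (i a) := by
    intro a
    have h5 := h2 ⟨⟩ (ey a)
    have h6 : ((ey a : Y) : Z) = k a := rfl
    rw [h6] at h5
    rw [h5, Embedding.comp_apply]
    exact congrArg (fun z => F (i z)) (ey.symm_apply_apply a)
  refine ⟨D, S, F, G ⟨⟩, h1, key, ?_⟩
  intro z n h
  obtain ⟨a, ha⟩ := h4 ⟨⟩ z n h
  refine ⟨a, ha, ?_⟩
  have ha' : k a = z := ha
  rw [← ha', key] at h
  exact F.injective h

/-- Disjoint unions. -/
theorem disjUnion {N Z : Type w} [LL.Structure N] [LL.Structure Z] [Nonempty N] [Nonempty Z]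
    (hN : Good N) (hZ : Good Z) :
    ∃ (D : Type w) (_ : LL.Structure D), Good D ∧ (∃ _ : N ↪[LL] D, True) ∧
      (∃ _ : Z ↪[LL] D, True) := by
  classical
  let a0 : N := Classical.arbitrary N
  let b0 : Z := Classical.arbitrary Z
  let D := N ⊕ Z
  let G : ∀ n : ℕ, Fin (n + 2) → D → D → D := fun n s x u =>
    match x, u with
    | Sum.inl x, Sum.inl u => Sum.inl (gg n s x u)
    | Sum.inl _, Sum.inr u => Sum.inr (gg n s b0 u)
    | Sum.inr _, Sum.inl u => Sum.inl (gg n s a0 u)
    | Sum.inr x, Sum.inr u => Sum.inr (gg n s x u)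
  let S : LL.Structure D := mkStr D (Sum.map hd hd) (Sum.map tl tl) G
  let F1 : N ↪[LL] D := mkEmb Sum.inl Sum.inl_injective (fun _ => rfl) (fun _ => rfl)
    (fun _ _ _ _ => rfl)
  let F2 : Z ↪[LL] D := mkEmb Sum.inr Sum.inr_injective (fun _ => rfl) (fun _ => rfl)
    (fun _ _ _ _ => rfl)
  have key1 : ∀ n (x : D) (e : N), ∃ a : N, ∀ s u, gg n s x (Sum.inl u : D) =
      Sum.inl (gg n s a u) := by
    intro n x e
    rcases x with a | b
    · exact ⟨a, fun _ _ => rfl⟩
    · exact ⟨a0, fun _ _ => rfl⟩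
  have key2 : ∀ n (x : D) (e : Z), ∃ a : Z, ∀ s u, gg n s x (Sum.inr u : D) =
      Sum.inr (gg n s a u) := by
    intro n x e
    rcases x with a | b
    · exact ⟨b0, fun _ _ => rfl⟩
    · exact ⟨b, fun _ _ => rfl⟩
  have e1 : ∀ c (e : N), ep c (Sum.inl e : D) = Sum.inl (ep c e) := by
    intro c e; cases c <;> rfl
  have e2 : ∀ c (e : Z), ep c (Sum.inr e : D) = Sum.inr (ep c e) := by
    intro c e; cases c <;> rfl
  refine ⟨D, S, ?_, ⟨F1, trivial⟩, ⟨F2, trivial⟩⟩
  intro n x e
  rcases e with e | e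
  · obtain ⟨a, ha⟩ := key1 n x e
    obtain ⟨p, hp1, hp2⟩ := hN n a e
    refine ⟨p, fun k l hkl h => hp1 k l hkl ⟨?_, h.2⟩, fun k => ?_⟩
    · have := h.1
      rw [e1, e1] at this
      exact Sum.inl_injective this
    · rw [e1, ha, hp2]
  · obtain ⟨a, ha⟩ := key2 n x e
    obtain ⟨p, hp1, hp2⟩ := hZ n a e
    refine ⟨p, fun k l hkl h => hp1 k l hkl ⟨?_, h.2⟩, fun k => ?_⟩
    · have := h.1
      rw [e2, e2] at this
      exact Sum.inr_injective this
    · rw [e2, ha, hp2]

end Pool.Agent.MP568911
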