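import Pool.Agent.Lib.MP_568911_lc.Defs

/-!
# Ultrapowers are `ℵ₁`-saturated
-/

namespace Pool.Agent.MP568911
open FirstOrder FirstOrder.Language Cardinal Filter
universe w

section
variable (L : FirstOrder.Language.{0, 0}) (N : Type w) [L.Structure N] [Nonempty N]

/-- The ultrapower. -/
abbrev UP (N : Type w) : Type w :=
  ((hyperfilter ℕ : Ultrafilter ℕ) : Filter ℕ).Product (fun _ : ℕ => N)

/-- The class of a sequence. -/
noncomputable def UP.mk {N : Type w} (x : ℕ → N) : UP N := (x : UP N)

lemma UP.exists_rep {N : Type w} (x : UP N) : ∃ c : ℕ → N, UP.mk c = x := Quotient.exists_rep x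

/-- Łoś -/
lemma UP.realize {β : Type*} (φ : L.Formula β) (x : β → ℕ → N) :
    φ.Realize (fun i => UP.mk (x i)) ↔
      ∀ᶠ a in (hyperfilter ℕ : Filter ℕ), φ.Realize (fun i => x i a) :=
  Ultraproduct.realize_formula_cast (M := fun _ : ℕ => N)
    (u := (hyperfilter ℕ : Ultrafilter ℕ)) φ x

theorem up_elementarilyEquivalent : L.ElementarilyEquivalent N (UP N) := by
  unfold ElementarilyEquivalent
  ext φ
  simp only [completeTheory, Set.mem_ofPred_eq]
  rw [Ultraproduct.sentence_realize]
  simp

theorem up_saturated [Countable (Σ l, L.Functions l)] [Countable (Σ l, L.Relations l)] :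
    IsSaturated L (UP N) (ℵ_ 1) := by
  classical
  intro α P hα hP Γ hΓ
  have : Countable α := by
    rw [← Cardinal.mk_le_aleph0_iff, ← Order.lt_succ_iff]
    simpa using hα
  have : Countable P := by
    rw [← Cardinal.mk_le_aleph0_iff, ← Order.lt_succ_iff]
    simpa using hP
  have : Countable L.Symbols := by
    unfold Language.Symbols
    infer_instance
  have hcount : Γ.Countable := Set.to_countable _
  rcases Γ.eq_empty_or_nonempty with rfl | hne
  · exact ⟨fun _ => Classical.arbitrary _, fun φ h => absurd h (Set.notMem_empty _)⟩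
  obtain ⟨f, hf⟩ := hcount.exists_eq_range hne
  -- representatives of the parameters
  choose rep hrep using UP.exists_rep (N := N)
  let S : ℕ → Set ℕ := fun n => {i | ∃ v : α → N, ∀ m ≤ n,
    (f m).Realize (Sum.elim v (fun p : P => rep p i))}
  have hS : ∀ n, ∀ᶠ i in (hyperfilter ℕ : Filter ℕ), i ∈ S n := by
    intro n
    obtain ⟨v, hv⟩ := hΓ (f '' (Set.Iic n)) (by rw [hf]; exact Set.image_subset_range _ _)
      ((Set.finite_Iic n).image _)
    have h1 : ∀ m ≤ n, ∀ᶠ i in (hyperfilter ℕ : Filter ℕ),
        (f m).Realize (fun q => Sum.elim (fun a => rep (v a)) (fun p : P => rep p) q i) := by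
      intro m hm
      rw [← UP.realize]
      have h4 : (fun i => UP.mk (Sum.elim (fun a => rep (v a)) (fun p : P => rep p) i)) =
          Sum.elim v (fun p : P => (p : UP N)) := by
        funext q
        rcases q with a | p
        · exact hrep _
        · exact hrep _
      rw [h4]
      exact hv (f m) ⟨m, hm, rfl⟩
    have h2 : ∀ᶠ i in (hyperfilter ℕ : Filter ℕ), ∀ m ∈ Set.Iic n,
        (f m).Realize (fun q => Sum.elim (fun a => rep (v a)) (fun p : P => rep p) q i) :=
      (Filter.eventually_all_finite (Set.finite_Iic n)).2 h1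
    refine h2.mono fun i hi => ⟨fun a => rep (v a) i, fun m hm => ?_⟩
    have h3 := hi m hm
    have h4 : (fun q => Sum.elim (fun a => rep (v a)) (fun p : P => rep p) q i) =
        Sum.elim (fun a => rep (v a) i) (fun p : P => rep p i) := by
      funext q
      rcases q with a | p <;> rfl
    rwa [h4] at h3
  let best : ℕ → ℕ := fun i => Nat.findGreatest (fun n => i ∈ S n) i
  let v : ℕ → α → N := fun i => if h : i ∈ S (best i) then h.choose else
    fun _ => Classical.arbitrary N
  refine ⟨fun a => UP.mk (fun i => v i a), ?_⟩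
  intro φ hφ
  rw [hf] at hφ
  obtain ⟨m, rfl⟩ := hφ
  have h4 : (fun i => UP.mk (Sum.elim (fun a i => v i a) (fun p : P => rep p) i)) =
      Sum.elim (fun a => UP.mk (fun i => v i a)) (fun p : P => (p : UP N)) := by
    funext q
    rcases q with a | p
    · rfl
    · exact hrep _
  rw [← h4, UP.realize]
  have h5 : ∀ᶠ i in (hyperfilter ℕ : Filter ℕ), m ≤ i :=
    (Filter.hyperfilter_le_cofinite.trans Nat.cofinite_eq_atTop.le) (Filter.eventually_ge_atTop m)
  filter_upwards [hS m, h5] with i hi hmi
  have hb1 : i ∈ S (best i) := Nat.findGreatest_spec (P := fun n => i ∈ S n) hmi hi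
  have hb2 : m ≤ best i := Nat.le_findGreatest hmi hi
  have h6 : (fun q => Sum.elim (fun a i => v i a) (fun p : P => rep p) q i) =
      Sum.elim (v i) (fun p : P => rep p i) := by
    funext q
    rcases q with a | p <;> rfl
  rw [h6]
  simp only [v, dif_pos hb1]
  exact hb1.choose_spec m hb2

end

end Pool.Agent.MP568911
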