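import Pool.Agent.Lib.MP_568911_lc.Indep
import Pool.Agent.Lib.MP_568911_lc.Sat

/-!
# From an SOP₁-tree to an array
-/

namespace Pool.Agent.MP568911
open FirstOrder FirstOrder.Language Function Cardinal Filter
universe u v w

section arr
variable {M : Type w} [LL.Structure M] {m : ℕ}

/-- variables for the array -/
abbrev Zv (m : ℕ) : Type := ℕ × Bool × Fin m

/-- the truncated array -/
def trunc (c : ℕ → Bool → Fin m → M) (m0 : M) (i : ℕ) : Zv m → M :=
  fun q => if q.1 < i then c q.1 q.2.1 q.2.2 else m0

lemma pigeon (a : List Bool → Fin m → M) (Δ : Finset (LL.Term (Fin m ⊕ Zv m) ×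
    LL.Term (Fin m ⊕ Zv m))) (η : List Bool) (τ : Zv m → M) :
    ∃ α β : ℕ, α < β ∧ ∀ q ∈ Δ,
      (q.1.realize (Sum.elim (a (η ++ List.replicate β false ++ [true])) τ) =
        q.2.realize (Sum.elim (a (η ++ List.replicate β false ++ [true])) τ) ↔
      q.1.realize (Sum.elim (a (η ++ List.replicate α false ++ [true])) τ) =
        q.2.realize (Sum.elim (a (η ++ List.replicate α false ++ [true])) τ)) := by
  classical
  let f : ℕ → (Δ → Prop) := fun n q =>
    q.1.1.realize (Sum.elim (a (η ++ List.replicate n false ++ [true])) τ) =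
        q.1.2.realize (Sum.elim (a (η ++ List.replicate n false ++ [true])) τ)
  obtain ⟨x, y, hxy, hf⟩ := Finite.exists_ne_map_eq_of_infinite f
  rcases lt_or_gt_of_ne hxy with h | h
  · exact ⟨x, y, h, fun q hq => by have := congrFun hf ⟨q, hq⟩; exact (iff_of_eq this).symm⟩
  · exact ⟨y, x, h, fun q hq => by have := congrFun hf ⟨q, hq⟩; exact iff_of_eq this⟩

lemma array_fin (a : List Bool → Fin m → M) (m0 : M) (Δ : Finset (LL.Term (Fin m ⊕ Zv m) ×
    LL.Term (Fin m ⊕ Zv m))) :
    ∃ (c : ℕ → Bool → Fin m → M) (η : ℕ → List Bool) (α β : ℕ → ℕ), (∀ i, α i < β i) ∧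
      (∀ i, η (i + 1) = η i ++ List.replicate (β i) false ++ [true]) ∧
      (∀ i, c i false = a (η (i + 1))) ∧
      (∀ i, c i true = a (η i ++ List.replicate (α i) false ++ [true])) ∧
      (∀ i, ∀ q ∈ Δ, (q.1.realize (Sum.elim (c i false) (trunc c m0 i)) =
        q.2.realize (Sum.elim (c i false) (trunc c m0 i)) ↔
        q.1.realize (Sum.elim (c i true) (trunc c m0 i)) =
        q.2.realize (Sum.elim (c i true) (trunc c m0 i)))) := by
  classical
  choose α β hαβ hΔ using pigeon a Δ
  let nx : ℕ → (List Bool × (Zv m → M)) → (List Bool × (Zv m → M)) := fun i σ =>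
    (σ.1 ++ List.replicate (β σ.1 σ.2) false ++ [true],
      fun q => if q.1 = i then (if q.2.1 = true then
          a (σ.1 ++ List.replicate (α σ.1 σ.2) false ++ [true]) q.2.2 else
          a (σ.1 ++ List.replicate (β σ.1 σ.2) false ++ [true]) q.2.2) else σ.2 q)
  let st : ℕ → (List Bool × (Zv m → M)) := fun n => Nat.rec ([], fun _ => m0) nx n
  have hst : ∀ i, st (i + 1) = nx i (st i) := fun i => rfl
  let c : ℕ → Bool → Fin m → M := fun i j =>
    if j = true then a ((st i).1 ++ List.replicate (α (st i).1 (st i).2) false ++ [true]) else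
      a ((st i).1 ++ List.replicate (β (st i).1 (st i).2) false ++ [true])
  have htr : ∀ i, (st i).2 = trunc c m0 i := by
    intro i
    induction i with
    | zero =>
      funext q
      simp only [trunc, Nat.not_lt_zero, if_false]
      rfl
    | succ i ih =>
      funext q
      obtain ⟨k, j, l⟩ := q
      rw [hst]
      simp only [nx, trunc]
      by_cases hk : k = i
      · subst hk
        rw [if_pos rfl, if_pos (Nat.lt_succ_self k)]
        simp only [c]
        split_ifs <;> rfl
      · rw [if_neg hk, ih]
        simp only [trunc]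
        by_cases hk' : k < i
        · rw [if_pos hk', if_pos (hk'.trans (Nat.lt_succ_self i))]
        · rw [if_neg hk', if_neg (by omega)]
  refine ⟨c, fun i => (st i).1, fun i => α (st i).1 (st i).2, fun i => β (st i).1 (st i).2,
    fun i => hαβ _ _, fun i => rfl, fun i => ?_, fun i => ?_, fun i q hq => ?_⟩
  · simp only [c, hst, nx]
    simp
  · simp only [c]
    simp
  · have := hΔ (st i).1 (st i).2 q hq
    have e1 : c i false = a ((st i).1 ++ List.replicate (β (st i).1 (st i).2) false ++
        [true]) := by
      simp only [c]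
      simp
    have e2 : c i true = a ((st i).1 ++ List.replicate (α (st i).1 (st i).2) false ++
        [true]) := by
      simp only [c]
      simp
    rw [e1, e2, ← htr]
    exact this

lemma prefix_ofFn {l L : List Bool} (h : l <+: L) :
    List.ofFn (fun j : Fin l.length => L.getD j false) = l := by
  apply List.ext_getElem
  · simp
  · intro i h1 h2
    rw [List.getElem_ofFn]
    have h3 : i < L.length := h2.trans_le h.length_le
    simp only [List.getD_eq_getElem?_getD]
    rw [List.getElem?_eq_getElem h3, Option.getD_some]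
    exact (h.getElem h2).symm

theorem exists_array [Nonempty M] {p : ℕ} (φ : LL.Formula (Fin p ⊕ Fin m)) (hφ : HasSOP1 M φ) :
    ∃ (C : ℕ → Bool → Fin m → UP M) (m0 : UP M),
      (∀ i, ∀ s t : LL.Term (Fin m ⊕ Zv m),
        (s.realize (Sum.elim (C i false) (trunc C m0 i)) =
        t.realize (Sum.elim (C i false) (trunc C m0 i)) ↔
        s.realize (Sum.elim (C i true) (trunc C m0 i)) =
        t.realize (Sum.elim (C i true) (trunc C m0 i)))) ∧
      (∀ n, ∃ x : Fin p → UP M, ∀ i < n, φ.Realize (Sum.elim x (C i false))) ∧
      (∀ i k, i < k → ¬ ∃ x : Fin p → UP M, φ.Realize (Sum.elim x (C i true)) ∧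
        φ.Realize (Sum.elim x (C k true))) := by
  classical
  obtain ⟨a, ha1, ha2⟩ := hφ
  let m0 : M := Classical.arbitrary M
  have : Nonempty (LL.Term (Fin m ⊕ Zv m) × LL.Term (Fin m ⊕ Zv m)) ∨
    IsEmpty (LL.Term (Fin m ⊕ Zv m) × LL.Term (Fin m ⊕ Zv m)) := (isEmpty_or_nonempty _).symm
  -- an exhaustion of the set of pairs of terms
  obtain ⟨Δ, hΔ⟩ : ∃ Δ : ℕ → Finset (LL.Term (Fin m ⊕ Zv m) × LL.Term (Fin m ⊕ Zv m)),
      ∀ q, ∀ᶠ n in atTop, q ∈ Δ n := by
    rcases this with hne | hem
    · obtain ⟨f, hf⟩ := exists_surjective_nat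
        (LL.Term (Fin m ⊕ Zv m) × LL.Term (Fin m ⊕ Zv m))
      refine ⟨fun n => (Finset.range n).image f, fun q => ?_⟩
      obtain ⟨k, rfl⟩ := hf q
      filter_upwards [Filter.eventually_gt_atTop k] with n hn
      exact Finset.mem_image_of_mem _ (Finset.mem_range.2 hn)
    · exact ⟨fun _ => ∅, fun q => hem.elim q⟩
  choose c η α β h1 h2 h3 h4 h5 using fun n => array_fin a m0 (Δ n)
  have hmono : ∀ n i k, i ≤ k → η n i <+: η n k := by
    intro n i k hik
    induction k, hik using Nat.le_induction with
    | base => exact List.prefix_rfl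
    | succ k _ ih =>
      rw [h2]
      refine ih.trans ?_
      rw [List.append_assoc]
      exact List.prefix_append _ _
  have hA2 : ∀ n N, ∃ x : Fin p → M, ∀ i < N, φ.Realize (Sum.elim x (c n i false)) := by
    intro n N
    obtain ⟨x, hx⟩ := ha1 (fun j => (η n N).getD j false) ((η n N).length + 1)
    refine ⟨x, fun i hi => ?_⟩
    have hpre := hmono n (i + 1) N hi
    have := hx (η n (i + 1)).length (Nat.lt_succ_of_le hpre.length_le)
    rw [prefix_ofFn hpre] at this
    rw [h3]
    exact this
  have hA3 : ∀ n i k, i < k → ¬ ∃ x : Fin p → M, φ.Realize (Sum.elim x (c n i true)) ∧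
      φ.Realize (Sum.elim x (c n k true)) := by
    rintro n i k hik ⟨x, hx1, hx2⟩
    apply ha2 (η n i ++ List.replicate (α n i) false)
      (η n k ++ List.replicate (α n k) false ++ [true])
    · have e1 : η n i ++ List.replicate (α n i) false ++ [false] <+: η n (i + 1) := by
        obtain ⟨r, hr⟩ := Nat.exists_eq_add_of_lt (h1 n i)
        rw [h2, hr]
        have : List.replicate (α n i + r + 1) false =
            List.replicate (α n i) false ++ [false] ++ List.replicate r false := by
          rw [show α n i + r + 1 = α n i + 1 + r by ring, List.replicate_add, List.replicate_add]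
          rfl
        rw [this]
        simp only [List.append_assoc]
        refine ⟨List.replicate r false ++ [true], ?_⟩
        simp only [List.append_assoc]
      refine (e1.trans (hmono n (i + 1) k hik)).trans ?_
      rw [List.append_assoc]
      exact List.prefix_append _ _
    · refine ⟨x, ?_, ?_⟩
      · rw [h4] at hx2
        exact hx2
      · rw [h4] at hx1
        exact hx1
  let C : ℕ → Bool → Fin m → UP M := fun i j l => UP.mk (fun n => c n i j l)
  refine ⟨C, UP.mk (fun _ => m0), ?_, ?_, ?_⟩
  · intro i s t
    have key : ∀ j : Bool, (s.realize (Sum.elim (C i j) (trunc C (UP.mk (fun _ => m0)) i)) =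
        t.realize (Sum.elim (C i j) (trunc C (UP.mk (fun _ => m0)) i)) ↔
        ∀ᶠ n in (hyperfilter ℕ : Filter ℕ), s.realize (Sum.elim (c n i j) (trunc (c n) m0 i)) =
          t.realize (Sum.elim (c n i j) (trunc (c n) m0 i))) := by
      intro j
      have e1 : Sum.elim (C i j) (trunc C (UP.mk (fun _ => m0)) i) =
          fun q => UP.mk (Sum.elim (fun l n => c n i j l) (fun z n => trunc (c n) m0 i z) q) := by
        funext q
        rcases q with l | z
        · rfl
        · simp only [Sum.elim_inr, trunc]
          by_cases hz : z.1 < i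
          · simp only [if_pos hz]
            rfl
          · simp only [if_neg hz]
      have e2 := UP.realize LL M (s.equal t)
        (Sum.elim (fun l n => c n i j l) (fun z n => trunc (c n) m0 i z))
      rw [← e1] at e2
      rw [Formula.realize_equal] at e2
      rw [e2]
      apply Filter.eventually_congr
      refine Filter.Eventually.of_forall fun n => ?_
      rw [Formula.realize_equal]
      have e3 : (fun q => Sum.elim (fun l n => c n i j l) (fun z n => trunc (c n) m0 i z) q n) =
          Sum.elim (c n i j) (trunc (c n) m0 i) := by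
        funext q
        rcases q with l | z <;> rfl
      rw [e3]
    rw [key, key]
    apply Filter.eventually_congr
    have hev : ∀ᶠ n in (hyperfilter ℕ : Filter ℕ), (s, t) ∈ Δ n :=
      (Filter.hyperfilter_le_cofinite.trans Nat.cofinite_eq_atTop.le) (hΔ (s, t))
    filter_upwards [hev] with n hn
    exact h5 n i (s, t) hn
  · intro N
    choose x hx using fun n => hA2 n N
    refine ⟨fun l => UP.mk (fun n => x n l), fun i hi => ?_⟩
    have e1 : Sum.elim (fun l => UP.mk (fun n => x n l)) (C i false) =
        fun q => UP.mk (Sum.elim (fun l n => x n l) (fun l n => c n i false l) q) := by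
      funext q
      rcases q with l | l <;> rfl
    rw [e1, UP.realize]
    refine Filter.Eventually.of_forall fun n => ?_
    have e2 : (fun q => Sum.elim (fun l n => x n l) (fun l n => c n i false l) q n) =
        Sum.elim (x n) (c n i false) := by
      funext q
      rcases q with l | l <;> rfl
    rw [e2]
    exact hx n i hi
  · rintro i k hik ⟨x, hx1, hx2⟩
    choose rep hrep using UP.exists_rep (N := M)
    have key : ∀ i j, φ.Realize (Sum.elim x (C i j)) ↔ ∀ᶠ n in (hyperfilter ℕ : Filter ℕ),
        φ.Realize (Sum.elim (fun l => rep (x l) n) (c n i j)) := by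
      intro i j
      have e1 : Sum.elim x (C i j) =
          fun q => UP.mk (Sum.elim (fun l n => rep (x l) n) (fun l n => c n i j l) q) := by
        funext q
        rcases q with l | l
        · exact (hrep _).symm
        · rfl
      rw [e1, UP.realize]
      apply Filter.eventually_congr
      refine Filter.Eventually.of_forall fun n => ?_
      have e2 : (fun q => Sum.elim (fun l n => rep (x l) n) (fun l n => c n i j l) q n) =
          Sum.elim (fun l => rep (x l) n) (c n i j) := by
        funext q
        rcases q with l | l <;> rfl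
      rw [e2]
    rw [key] at hx1 hx2
    obtain ⟨n, hn1, hn2⟩ := (hx1.and hx2).exists
    exact hA3 n i k hik ⟨_, hn1, hn2⟩

end arr

end Pool.Agent.MP568911
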