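import Mathlib

/-!
# The language and the universal theory

Every element `e` is at the same time a vertex, an edge (with endpoints `hd e`, `tl e`) and a
selector `x`; the slots `(u, s)`, `s < n + 2`, of the selector `x` at level `n` contain
`gg n s x u`.  `Good A` says that for every selector, level and edge at least `n + 1` of the
slots at the endpoints of `e` contain `e`.
-/

namespace Pool.Agent.MP568911
open FirstOrder FirstOrder.Language Function
universe u v w

/-- The function symbols: two unary ones and binary ones `g n s`, `s < n + 2`. -/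
inductive Fn : ℕ → Type
  | h : Fn 1
  | t : Fn 1
  | g (n : ℕ) (s : Fin (n + 2)) : Fn 2

/-- The language. -/
def LL : FirstOrder.Language.{0, 0} := ⟨Fn, fun _ => Empty⟩

instance : LL.IsAlgebraic := fun _ => inferInstanceAs (IsEmpty Empty)

instance : Countable (Σ l, LL.Functions l) := by
  let c : (Σ l, LL.Functions l) → Option (Option (Σ n : ℕ, Fin (n + 2))) := fun f =>
    match f with
    | ⟨_, Fn.h⟩ => none
    | ⟨_, Fn.t⟩ => some none
    | ⟨_, Fn.g n s⟩ => some (some ⟨n, s⟩)
  have hc : Injective c := by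
    rintro ⟨_, f⟩ ⟨_, f'⟩ hff
    cases f <;> cases f' <;> simp_all [c]
    obtain ⟨rfl, h⟩ := hff
    rw [eq_of_heq h]
  exact hc.countable

instance : Countable (Σ l, LL.Relations l) := by
  have : IsEmpty (Σ l, LL.Relations l) := ⟨fun r => (r.2 : Empty).elim⟩
  infer_instance

section acc
variable {A : Type u} [LL.Structure A] {B : Type v} [LL.Structure B]

/-- first endpoint -/
def hd (a : A) : A := Structure.funMap (L := LL) (Fn.h : LL.Functions 1) ![a]
/-- second endpoint -/
def tl (a : A) : A := Structure.funMap (L := LL) (Fn.t : LL.Functions 1) ![a]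
/-- slot content -/
def gg (n : ℕ) (s : Fin (n + 2)) (x u : A) : A :=
  Structure.funMap (L := LL) (Fn.g n s : LL.Functions 2) ![x, u]

/-- endpoints, indexed by `Bool` -/
def ep (b : Bool) (e : A) : A := bif b then hd e else tl e

@[simp] lemma ep_true (e : A) : ep true e = hd e := rfl
@[simp] lemma ep_false (e : A) : ep false e = tl e := rfl

lemma map_hd (f : A ↪[LL] B) (a : A) : f (hd a) = hd (f a) := by
  unfold hd
  rw [f.map_fun]
  congr 1
  ext i
  fin_cases i
  rfl

lemma map_tl (f : A ↪[LL] B) (a : A) : f (tl a) = tl (f a) := by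
  unfold tl
  rw [f.map_fun]
  congr 1
  ext i
  fin_cases i
  rfl

lemma map_gg (f : A ↪[LL] B) (n : ℕ) (s : Fin (n + 2)) (x u : A) :
    f (gg n s x u) = gg n s (f x) (f u) := by
  unfold gg
  rw [f.map_fun]
  congr 1
  ext i
  fin_cases i <;> rfl

lemma map_ep (f : A ↪[LL] B) (b : Bool) (a : A) : f (ep b a) = ep b (f a) := by
  cases b
  · exact map_tl f a
  · exact map_hd f a

/-- Building an embedding. -/
def mkEmb (f : A → B) (hf : Injective f) (h1 : ∀ a, f (hd a) = hd (f a))
    (h2 : ∀ a, f (tl a) = tl (f a))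
    (h3 : ∀ n (s : Fin (n + 2)) x u, f (gg n s x u) = gg n s (f x) (f u)) : A ↪[LL] B where
  toFun := f
  inj' := hf
  map_fun' {n} F x := by
    match n, F, x with
    | _, Fn.h, x =>
      have h := h1 (x 0)
      unfold hd at h
      have e1 : x = ![x 0] := by ext i; fin_cases i; rfl
      have e2 : f ∘ x = ![f (x 0)] := by ext i; fin_cases i; rfl
      rw [e2, ← h]
      exact congrArg (fun y => f (Structure.funMap (L := LL) (Fn.h : LL.Functions 1) y)) e1
    | _, Fn.t, x =>
      have h := h2 (x 0)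
      unfold tl at h
      have e1 : x = ![x 0] := by ext i; fin_cases i; rfl
      have e2 : f ∘ x = ![f (x 0)] := by ext i; fin_cases i; rfl
      rw [e2, ← h]
      exact congrArg (fun y => f (Structure.funMap (L := LL) (Fn.t : LL.Functions 1) y)) e1
    | _, Fn.g n s, x =>
      have h := h3 n s (x 0) (x 1)
      unfold gg at h
      have e1 : x = ![x 0, x 1] := by ext i; fin_cases i <;> rfl
      have e2 : f ∘ x = ![f (x 0), f (x 1)] := by ext i; fin_cases i <;> rfl
      rw [e2, ← h]
      exact congrArg (fun y => f (Structure.funMap (L := LL) (Fn.g n s : LL.Functions 2) y)) e1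
  map_rel' R := (R : Empty).elim

@[simp] lemma mkEmb_apply (f : A → B) (hf : Injective f) (h1 h2 h3) (a : A) :
    mkEmb f hf h1 h2 h3 a = f a := rfl

/-- The structure with given operations. -/
@[instance_reducible]
def mkStr (A : Type u) (h t : A → A) (g : ∀ n : ℕ, Fin (n + 2) → A → A → A) :
    LL.Structure A where
  funMap {n} F x :=
    match n, F, x with
    | _, Fn.h, x => h (x 0)
    | _, Fn.t, x => t (x 0)
    | _, Fn.g n s, x => g n s (x 0) (x 1)
  RelMap R := (R : Empty).elim

/-- The axioms at level `n`. -/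
def GoodN (n : ℕ) (A : Type u) [LL.Structure A] : Prop :=
  ∀ x e : A, ∃ f : Fin (n + 1) → Bool × Fin (n + 2),
    (∀ i j, i ≠ j → ¬ (ep (f i).1 e = ep (f j).1 e ∧ (f i).2 = (f j).2)) ∧
    ∀ i, gg n (f i).2 x (ep (f i).1 e) = e

/-- The universal theory. -/
def Good (A : Type u) [LL.Structure A] : Prop := ∀ n, GoodN n A

lemma Good.of_emb (f : A ↪[LL] B) (hB : Good B) : Good A := by
  intro n x e
  obtain ⟨p, hp1, hp2⟩ := hB n (f x) (f e)
  refine ⟨p, fun i j hij h => hp1 i j hij ⟨?_, h.2⟩, fun i => ?_⟩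
  · rw [← map_ep, ← map_ep, h.1]
  · apply f.injective
    rw [map_gg, map_ep, hp2]

end acc

section sub
variable {A : Type u} [LL.Structure A] (S : LL.Substructure A)

@[simp] lemma coe_hd (x : S) : ((hd x : S) : A) = hd (x : A) := map_hd S.subtype x
@[simp] lemma coe_tl (x : S) : ((tl x : S) : A) = tl (x : A) := map_tl S.subtype x
@[simp] lemma coe_gg (n : ℕ) (s : Fin (n + 2)) (x u : S) :
    ((gg n s x u : S) : A) = gg n s (x : A) (u : A) := map_gg S.subtype n s x u
lemma coe_ep (b : Bool) (x : S) : ((ep b x : S) : A) = ep b (x : A) := map_ep S.subtype b x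

lemma hd_mem {x : A} (hx : x ∈ S) : hd x ∈ S := by
  have := (hd (⟨x, hx⟩ : S)).2
  simpa using this
lemma tl_mem {x : A} (hx : x ∈ S) : tl x ∈ S := by
  have := (tl (⟨x, hx⟩ : S)).2
  simpa using this
lemma gg_mem (n : ℕ) (s : Fin (n + 2)) {x u : A} (hx : x ∈ S) (hu : u ∈ S) :
    gg n s x u ∈ S := by
  have := (gg n s (⟨x, hx⟩ : S) ⟨u, hu⟩).2
  simpa using this
lemma ep_mem (b : Bool) {x : A} (hx : x ∈ S) : ep b x ∈ S := by
  cases b
  · exact tl_mem S hx
  · exact hd_mem S hx

end sub

/-- **Glueing.** -/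
theorem glue {ι : Type v} {B : ι → Type w} [∀ i, LL.Structure (B i)] (hB : ∀ i, Good (B i))
    {E : Type u} (j : ∀ i, B i → E) (hj : ∀ i, Injective (j i))
    (hsurj : ∀ e, ∃ i b, j i b = e)
    (hh : ∀ i k b b', j i b = j k b' → j i (hd b) = j k (hd b'))
    (ht : ∀ i k b b', j i b = j k b' → j i (tl b) = j k (tl b'))
    (hg : ∀ i k n s (b b' c c'), j i b = j k b' → j i c = j k c' →
      j i (gg n s b c) = j k (gg n s b' c'))
    (x0 : ∀ i, B i) (hx0 : ∀ i k, j i (x0 i) = j k (x0 k)) :
    ∃ S : LL.Structure E, @Good E S ∧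
      ∀ i, ∃ f : @Embedding LL (B i) E _ S, ∀ b, @DFunLike.coe _ _ _ (@Embedding.funLike LL (B i) E _ S) f b = j i b := by
  classical
  choose I P hIP using hsurj
  -- operations
  let H : E → E := fun e => j (I e) (hd (P e))
  let T : E → E := fun e => j (I e) (tl (P e))
  let G : ∀ n : ℕ, Fin (n + 2) → E → E → E := fun n s x u =>
    if h : ∃ i b c, j i b = x ∧ j i c = u then
      j h.choose (gg n s h.choose_spec.choose h.choose_spec.choose_spec.choose)
    else j (I u) (gg n s (x0 (I u)) (P u))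
  have hH : ∀ i b, H (j i b) = j i (hd b) := fun i b => hh _ _ _ _ (hIP _)
  have hT : ∀ i b, T (j i b) = j i (tl b) := fun i b => ht _ _ _ _ (hIP _)
  have hG1 : ∀ n s i b c, G n s (j i b) (j i c) = j i (gg n s b c) := by
    intro n s i b c
    have h : ∃ i' b' c', j i' b' = j i b ∧ j i' c' = j i c := ⟨i, b, c, rfl, rfl⟩
    simp only [G, dif_pos h]
    exact hg _ _ _ _ _ _ _ _ h.choose_spec.choose_spec.choose_spec.1
      h.choose_spec.choose_spec.choose_spec.2
  have hG2 : ∀ n s x i c, (¬ ∃ i' b' c', j i' b' = x ∧ j i' c' = j i c) →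
      G n s x (j i c) = j i (gg n s (x0 i) c) := by
    intro n s x i c h
    simp only [G, dif_neg h]
    exact hg _ _ _ _ _ _ _ _ (hx0 _ _) (hIP _)
  let S : LL.Structure E := mkStr E H T G
  have eH : ∀ e : E, hd e = H e := fun e => rfl
  have eT : ∀ e : E, tl e = T e := fun e => rfl
  have eG : ∀ n s (x u : E), gg n s x u = G n s x u := fun n s x u => rfl
  have eEp : ∀ b i c, ep b (j i c) = j i (ep b c) := by
    intro b i c
    cases b
    · rw [ep_false, eT, hT, ep_false]
    · rw [ep_true, eH, hH, ep_true]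
  refine ⟨S, ?_, fun i => ⟨mkEmb (j i) (hj i) ?_ ?_ ?_, fun b => rfl⟩⟩
  · intro n x e
    by_cases hxe : ∃ i b c, j i b = x ∧ j i c = e
    · obtain ⟨i, b, c, rfl, rfl⟩ := hxe
      obtain ⟨p, hp1, hp2⟩ := hB i n b c
      refine ⟨p, fun k l hkl h => hp1 k l hkl ⟨?_, h.2⟩, fun k => ?_⟩
      · apply hj i
        rw [← eEp, ← eEp, h.1]
      · rw [eEp, eG, hG1, hp2]
    · obtain ⟨i, c, rfl⟩ : ∃ i c, j i c = e := ⟨I e, P e, hIP e⟩
      obtain ⟨p, hp1, hp2⟩ := hB i n (x0 i) c
      refine ⟨p, fun k l hkl h => hp1 k l hkl ⟨?_, h.2⟩, fun k => ?_⟩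
      · apply hj i
        rw [← eEp, ← eEp, h.1]
      · rw [eEp, eG, hG2, hp2]
        rintro ⟨i', b', c', hb', hc'⟩
        apply hxe
        refine ⟨i', b', gg n (p k).2 (x0 i') c', hb', ?_⟩
        rw [hg i' i n (p k).2 (x0 i') (x0 i) c' _ (hx0 _ _) hc', hp2]
  · intro a; rw [eH, hH]
  · intro a; rw [eT, hT]
  · intro n s x u; rw [eG, hG1]

end Pool.Agent.MP568911
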