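import Pool.Agent.Lib.MP_568911_lc.Task

/-!
# A structure in which all solvable tasks are solved
-/

namespace Pool.Agent.MP568911
open FirstOrder FirstOrder.Language Function
universe u v w

section transport
variable {A : Type u} [LL.Structure A] {B : Type v} [LL.Structure B] (f : A ↪[LL] B) (P : Pat)

lemma Facts.map {w : Fin P.k → A} (h : Facts P w) : Facts P (fun a => f (w a)) := by
  obtain ⟨h1, h2, h3⟩ := h
  refine ⟨fun a b hab => h1 a b (f.injective hab), fun i a b hab => ?_,
    fun n hn s a b c hc => ?_⟩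
  · rw [← map_ep, h2 i a b hab]
  · rw [← map_gg, h3 n hn s a b c hc]

lemma OldFacts.of_map {v : Fin P.k → A} (h : OldFacts P (fun a => f (v a))) : OldFacts P v := by
  obtain ⟨h1, h2, h3⟩ := h
  refine ⟨fun a b ha hb hab => h1 a b ha hb (by dsimp only; rw [hab]),
    fun i a b ha hab => f.injective ?_, fun n hn s a b c ha hb hc => f.injective ?_⟩
  · rw [map_ep]; exact h2 i a b ha hab
  · rw [map_gg]; exact h3 n hn s a b c ha hb hc

lemma OldFacts.map {v : Fin P.k → A} (h : OldFacts P v) : OldFacts P (fun a => f (v a)) := by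
  obtain ⟨h1, h2, h3⟩ := h
  refine ⟨fun a b ha hb hab => h1 a b ha hb (f.injective hab),
    fun i a b ha hab => ?_, fun n hn s a b c ha hb hc => ?_⟩
  · rw [← map_ep, h2 i a b ha hab]
  · rw [← map_gg, h3 n hn s a b c ha hb hc]

lemma Theta.of_map {v : Fin P.k → A} (h : Theta P (fun a => f (v a))) : Theta P v := by
  intro y hy n hn j hj e he
  obtain ⟨q, hq1, hq2⟩ := h y hy n hn j hj (fun i => f (e i)) (fun i l h => he i l (f.injective h))
  refine ⟨q, fun p p' hpp h => hq1 p p' hpp ⟨?_, h.2⟩, fun p b hb hpb c hc => ?_⟩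
  · rw [← map_ep, ← map_ep, h.1]
  · obtain ⟨h1, h2⟩ := hq2 p b hb (by rw [← map_ep, hpb]) c hc
    exact ⟨h1, f.injective h2⟩

end transport

/-- The trivial pattern. -/
def trivPat : Pat where
  k := 1
  n0 := 0
  a0 := 0
  old _ := true
  H _ _ := none
  G _ _ _ _ := none
  old_a0 := rfl
  oldH _ _ _ _ h := by simp at h
  oldG _ _ _ _ _ _ _ h := by simp at h
  good _ _ _ _ h := by simp at h

theorem step (N : Type w) [LL.Structure N] [Nonempty N] (hN : Good N) :
    ∃ (E : Type w) (_ : LL.Structure E) (f : N ↪[LL] E), Good E ∧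
      ∀ (P : Pat) (v : Fin P.k → N), OldFacts P v → Theta P v →
        ∃ w : Fin P.k → E, (∀ a, P.old a = true → w a = f (v a)) ∧ Facts P w := by
  classical
  let I := {q : Σ P : Pat, (Fin P.k → N) // OldFacts q.1 q.2 ∧ Theta q.1 q.2}
  let B : I → Type w := fun i => N ⊕ (Fin i.1.1.k × ℕ)
  choose S hS1 hS2 hS3 using fun i : I => solve i.1.1 i.1.2 hN i.2.1 i.2.2
  choose f hf using hS2
  choose ww hw1 hw2 using hS3
  let E : Type w := N ⊕ (Σ i : I, (Fin i.1.1.k × ℕ))
  let j : ∀ i, B i → E := fun i => Sum.map id (fun p => ⟨i, p⟩)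
  letI : ∀ i, LL.Structure (B i) := S
  let x : N := Classical.arbitrary N
  let i0 : I := ⟨⟨trivPat, fun _ => x⟩, by
    refine ⟨⟨fun a b _ _ _ => Subsingleton.elim (α := Fin 1) a b, fun i a b _ h => ?_,
      fun n hn => ?_⟩, fun y hy => ?_⟩
    · simp [trivPat] at h
    · simp [trivPat] at hn
    · simp [trivPat] at hy⟩
  have hinl : ∀ (i : I) (a : N), (f i a : B i) = Sum.inl a := fun i a => hf i a
  have cases2 : ∀ (i k : I) (b : B i) (b' : B k), j i b = j k b' →
      (∃ a : N, b = Sum.inl a ∧ b' = Sum.inl a) ∨ (∃ h : i = k, h ▸ b = b') := by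
    intro i k b b' hbb
    rcases b with a | p <;> rcases b' with a' | p'
    · left
      have h := Sum.inl_injective hbb
      exact ⟨a, rfl, congrArg Sum.inl h.symm⟩
    · simp [j] at hbb
    · simp [j] at hbb
    · right
      have h := Sum.inr_injective hbb
      rw [Sigma.mk.injEq] at h
      obtain ⟨rfl, h⟩ := h
      exact ⟨rfl, congrArg Sum.inr (eq_of_heq h)⟩
  have hj : ∀ i, Injective (j i) := by
    intro i
    refine Sum.map_injective.2 ⟨injective_id, fun p p' h => ?_⟩
    simpa using h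
  have hsurj : ∀ e, ∃ i b, j i b = e := by
    rintro (a | ⟨i, p⟩)
    · exact ⟨i0, Sum.inl a, rfl⟩
    · exact ⟨i, Sum.inr p, rfl⟩
  have hh : ∀ i k b b', j i b = j k b' → j i (hd b) = j k (hd b') := by
    intro i k b b' hbb
    rcases cases2 i k b b' hbb with ⟨a, rfl, rfl⟩ | ⟨rfl, rfl⟩
    · rw [← hinl i, ← hinl k, ← map_hd, ← map_hd, hinl, hinl]
      rfl
    · rfl
  have ht : ∀ i k b b', j i b = j k b' → j i (tl b) = j k (tl b') := by
    intro i k b b' hbb
    rcases cases2 i k b b' hbb with ⟨a, rfl, rfl⟩ | ⟨rfl, rfl⟩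
    · rw [← hinl i, ← hinl k, ← map_tl, ← map_tl, hinl, hinl]
      rfl
    · rfl
  have hg : ∀ i k n s (b b' c c'), j i b = j k b' → j i c = j k c' →
      j i (gg n s b c) = j k (gg n s b' c') := by
    intro i k n s b b' c c' hbb hcc
    by_cases hik : i = k
    · subst hik
      rw [hj i hbb, hj i hcc]
    · rcases cases2 i k b b' hbb with ⟨a, rfl, rfl⟩ | ⟨h, _⟩
      · rcases cases2 i k c c' hcc with ⟨d, rfl, rfl⟩ | ⟨h, _⟩
        · rw [← hinl i, ← hinl i, ← hinl k, ← hinl k, ← map_gg, ← map_gg, hinl, hinl]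
          rfl
        · exact absurd h hik
      · exact absurd h hik
  obtain ⟨SE, hE1, hE2⟩ := glue (B := B) (fun i => hS1 i) j hj hsurj hh ht hg
    (fun i => Sum.inl x) (fun i k => rfl)
  letI := SE
  choose F hF using hE2
  have key : ∀ i k : I, ∀ a : N, F i (Sum.inl a) = F k (Sum.inl a) := by
    intro i k a
    rw [hF, hF]
    rfl
  refine ⟨E, SE, (F i0).comp (f i0), hE1, ?_⟩
  intro P v hO hT
  let i : I := ⟨⟨P, v⟩, hO, hT⟩
  refine ⟨fun a => F i (ww i a), fun a ha => ?_, ?_⟩
  · dsimp only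
    rw [hw1 i a ha, Embedding.comp_apply, hf]
    exact key _ _ _
  · exact Facts.map (F i) P (hw2 i)

/-- Good structures -/
structure GS : Type (w + 1) where
  A : Type w
  [str : LL.Structure A]
  [ne : Nonempty A]
  good : Good A

attribute [instance] GS.str GS.ne

lemma GS.exists_next (X : GS.{w}) : ∃ (Y : GS.{w}) (f : X.A ↪[LL] Y.A),
    ∀ (P : Pat) (v : Fin P.k → X.A), OldFacts P v → Theta P v →
        ∃ w : Fin P.k → Y.A, (∀ a, P.old a = true → w a = f (v a)) ∧ Facts P w := by
  obtain ⟨E, S, f, h1, h2⟩ := step X.A X.good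
  letI := S
  have : Nonempty E := ⟨f (Classical.arbitrary _)⟩
  exact ⟨⟨E, h1⟩, f, h2⟩

/-- start of the chain -/
def GS.init : GS.{w} :=
  letI : LL.Structure PUnit.{w + 1} := mkStr PUnit id id (fun _ _ _ u => u)
  { A := PUnit.{w + 1}
    good := fun n x e => ⟨fun i => (true, i.castSucc),
      fun _ _ hij h => hij (Fin.castSucc_injective _ h.2), fun _ => rfl⟩ }

/-- the chain -/
noncomputable def chain : ℕ → GS.{w}
  | 0 => GS.init
  | n + 1 => (chain n).exists_next.choose

/-- the maps of the chain -/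
noncomputable def chainMap (n : ℕ) : (chain.{w} n).A ↪[LL] (chain.{w} (n + 1)).A :=
  (chain n).exists_next.choose_spec.choose

lemma chainMap_spec (n : ℕ) (P : Pat) (v : Fin P.k → (chain.{w} n).A) (h1 : OldFacts P v)
    (h2 : Theta P v) : ∃ w : Fin P.k → (chain.{w} (n + 1)).A,
      (∀ a, P.old a = true → w a = chainMap n (v a)) ∧ Facts P w :=
  (chain n).exists_next.choose_spec.choose_spec P v h1 h2

/-- `N` satisfies the axioms. -/
def IsT (N : Type w) [LL.Structure N] : Prop := Good N ∧ ∀ P, Task P N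

theorem exists_isT : ∃ (N : Type w) (_ : LL.Structure N), Nonempty N ∧ IsT N := by
  let G : ℕ → Type w := fun n => (chain.{w} n).A
  let ff : ∀ i j, i ≤ j → G i ↪[LL] G j := fun i j h => DirectedSystem.natLERec chainMap i j h
  let N := Language.DirectLimit G ff
  let of : ∀ i, G i ↪[LL] N := fun i => DirectLimit.of LL ℕ G ff i
  have hfin : ∀ {α : Type} [Finite α] (x : α → N), ∃ i, ∃ y : α → G i, x = fun a => of i (y a) := by
    intro α _ x
    obtain ⟨i, y, hy⟩ := DirectLimit.exists_quotient_mk'_sigma_mk'_eq G ff x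
    exact ⟨i, y, hy⟩
  have hof : ∀ i (x : G i), of (i + 1) (chainMap i x) = of i x := by
    intro i x
    have h1 := DirectLimit.of_f (L := LL) (G := G) (f := ff) (i := i) (j := i + 1)
      (hij := Nat.le_succ i) (x := x)
    rw [← h1]
    congr 1
    change _ = (DirectedSystem.natLERec chainMap i (i + 1) _ : G i → G (i + 1)) x
    rw [DirectedSystem.coe_natLERec]
    exact (Nat.leRecOn_succ' (C := G) (next := fun {k} => chainMap k) x).symm
  refine ⟨N, inferInstance, ⟨of 0 (Classical.arbitrary _)⟩, ?_, ?_⟩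
  · intro n x e
    obtain ⟨i, y, hy⟩ := hfin ![x, e]
    have h0 : x = of i (y 0) := congrFun hy 0
    have h1 : e = of i (y 1) := congrFun hy 1
    obtain ⟨p, hp1, hp2⟩ := (chain i).good n (y 0) (y 1)
    refine ⟨p, fun k l hkl h => hp1 k l hkl ⟨?_, h.2⟩, fun k => ?_⟩
    · apply (of i).injective
      rw [map_ep, map_ep, ← h1, h.1]
    · rw [h1, ← map_ep, h0, ← map_gg, hp2]
  · intro P v hO hT
    obtain ⟨i, y, rfl⟩ := hfin v
    obtain ⟨w, hw1, hw2⟩ := chainMap_spec i P y (OldFacts.of_map (of i) P hO)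
      (Theta.of_map (of i) P hT)
    refine ⟨fun a => of (i + 1) (w a), fun a ha => ?_, Facts.map _ P hw2⟩
    dsimp only
    rw [hw1 a ha, hof]

end Pool.Agent.MP568911
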