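import Mathlib

/-!
# Definitions: NSOP₁, saturation, `𝕄^eq`, Kim-forking, one-based, the existence axiom
-/

namespace Pool.Agent.MP568911
open FirstOrder FirstOrder.Language Cardinal
universe w

/-! ## NSOP₁ -/

/-- The formula `φ(x; y)` has SOP₁ in the structure `M`: there is a tree `(a_η)`, `η ∈ 2^{<ω}`, of
parameters such that `{φ(x; a_{β|n}) : n}` is consistent for every branch `β`, and
`φ(x; a_ν) ∧ φ(x; a_{η⌢1})` is inconsistent whenever `ν` extends `η⌢0`. -/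
def HasSOP1 {L : FirstOrder.Language.{0, 0}} (M : Type w) [L.Structure M] {p m : ℕ}
    (φ : L.Formula (Fin p ⊕ Fin m)) : Prop :=
  ∃ a : List Bool → (Fin m → M),
    (∀ (β : ℕ → Bool) (N : ℕ), ∃ x : Fin p → M, ∀ n < N,
      φ.Realize (Sum.elim x (a (List.ofFn fun j : Fin n => β j)))) ∧
    (∀ η ν : List Bool, (η ++ [false]) <+: ν →
      ¬ ∃ x : Fin p → M, φ.Realize (Sum.elim x (a ν)) ∧ φ.Realize (Sum.elim x (a (η ++ [true]))))

/-- The theory `T` is NSOP₁: no formula has SOP₁ in a model of `T`. -/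
def IsNSOP1 {L : FirstOrder.Language.{0, 0}} (T : L.Theory) : Prop :=
  ∀ (M : Type w) [L.Structure M] [Nonempty M], M ⊨ T →
    ∀ (p m : ℕ) (φ : L.Formula (Fin p ⊕ Fin m)), ¬ HasSOP1 M φ

/-! ## Saturation -/

/-- `𝕄` is `κ`-saturated: every finitely satisfiable set of formulas in fewer than `κ` variables
with parameters from a set of size less than `κ` is realised in `𝕄`. -/
def IsSaturated (L : FirstOrder.Language.{0, 0}) (𝕄 : Type w) [L.Structure 𝕄]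
    (κ : Cardinal.{w}) : Prop :=
  ∀ (α : Type w) (P : Set 𝕄), #α < κ → #P < κ → ∀ Γ : Set (L.Formula (α ⊕ P)),
    (∀ Γ₀ : Set (L.Formula (α ⊕ P)), Γ₀ ⊆ Γ → Γ₀.Finite →
      ∃ v : α → 𝕄, ∀ φ ∈ Γ₀, φ.Realize (Sum.elim v (fun p => (p : 𝕄)))) →
    ∃ v : α → 𝕄, ∀ φ ∈ Γ, φ.Realize (Sum.elim v (fun p => (p : 𝕄)))

/-! ## Imaginaries -/

section imag
variable (L : FirstOrder.Language.{0, 0}) (𝕄 : Type w) [L.Structure 𝕄]

/-- A sort of `𝕄^eq`: a natural number `n` and a formula without parameters defining an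
equivalence relation on `𝕄^n`. -/
structure ESort where
  n : ℕ
  E : L.Formula (Fin n ⊕ Fin n)
  equiv : Equivalence (fun v v' : Fin n → 𝕄 => E.Realize (Sum.elim v v'))

/-- The definable equivalence relation of a sort. -/
def ESort.setoid {L : FirstOrder.Language.{0, 0}} {𝕄 : Type w} [L.Structure 𝕄]
    (s : ESort L 𝕄) : Setoid (Fin s.n → 𝕄) := ⟨_, s.equiv⟩

/-- `𝕄^eq`. -/
def Imag : Type w := Σ s : ESort L 𝕄, Quotient s.setoid

variable {L 𝕄}

/-- The class of the tuple `v` in the sort `s`. -/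
def Imag.mk (s : ESort L 𝕄) (v : Fin s.n → 𝕄) : Imag L 𝕄 := ⟨s, Quotient.mk s.setoid v⟩

variable (L 𝕄)

/-- Formulas of `𝕄^eq` without parameters, with free variables indexed by `α`, the variable `i`
ranging over the sort `sort i`: such a formula `φ(x)` is `∃ v, (v represents x) ∧ body(v)`. -/
structure EqFormula (α : Type) where
  sort : α → ESort L 𝕄
  body : L.Formula (Σ i, Fin (sort i).n)

variable {L 𝕄}

/-- Truth of a formula of `𝕄^eq` at a tuple of elements of `𝕄^eq` (a tuple which does not have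
the right sorts does not satisfy the formula). -/
def EqFormula.Realize {α : Type} (φ : EqFormula L 𝕄 α) (x : α → Imag L 𝕄) : Prop :=
  ∃ v : ∀ i, Fin (φ.sort i).n → 𝕄, (∀ i, x i = Imag.mk (φ.sort i) (v i)) ∧
    φ.body.Realize (fun p => v p.1 p.2)

/-- `M^eq` for `M ⊆ 𝕄`: the imaginaries having a representative in `M`. -/
def eqOf (M : Set 𝕄) : Set (Imag L 𝕄) :=
  {e | ∃ (s : ESort L 𝕄) (v : Fin s.n → 𝕄), (∀ j, v j ∈ M) ∧ e = Imag.mk s v}

/-- Two tuples of `𝕄^eq` have the same type over `C ⊆ 𝕄^eq`. -/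
def SameType (C : Set (Imag L 𝕄)) {α : Type} (a a' : α → Imag L 𝕄) : Prop :=
  ∀ (γ : Type) [Finite γ] (φ : EqFormula L 𝕄 (α ⊕ γ)) (c : γ → Imag L 𝕄), (∀ j, c j ∈ C) →
    (φ.Realize (Sum.elim a c) ↔ φ.Realize (Sum.elim a' c))

/-- `acl^eq(C)`. -/
def aclEq (C : Set (Imag L 𝕄)) : Set (Imag L 𝕄) :=
  {e | ∃ (γ : Type) (_ : Finite γ) (φ : EqFormula L 𝕄 (Unit ⊕ γ)) (c : γ → Imag L 𝕄),
    (∀ j, c j ∈ C) ∧ φ.Realize (Sum.elim (fun _ => e) c) ∧
    {e' | φ.Realize (Sum.elim (fun _ => e') c)}.Finite}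

/-! ## Kim-forking

A global (complete) type in the variables `β` is given by an ultrafilter `q` on the set of
`β`-tuples of `𝕄^eq`; it contains the formula `φ(x; c)` iff `∀ᶠ x in q, φ(x; c)`.  (Every complete
type over `𝕄` arises in this way, because it is finitely satisfiable in `𝕄`.) -/

/-- The global type `q` is `C`-invariant. -/
def IsInvariant (C : Set (Imag L 𝕄)) {β : Type} (q : Ultrafilter (β → Imag L 𝕄)) : Prop :=
  ∀ (γ : Type) [Finite γ] (φ : EqFormula L 𝕄 (β ⊕ γ)) (c c' : γ → Imag L 𝕄),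
    SameType C c c' →
    ((∀ᶠ x in q, φ.Realize (Sum.elim x c)) ↔ ∀ᶠ x in q, φ.Realize (Sum.elim x c'))

/-- The tuple `b` realises `q|C` (equivalently, `q ⊇ tp(b/C)`). -/
def RealizesOver (C : Set (Imag L 𝕄)) {β : Type} (q : Ultrafilter (β → Imag L 𝕄))
    (b : β → Imag L 𝕄) : Prop :=
  ∀ (γ : Type) [Finite γ] (φ : EqFormula L 𝕄 (β ⊕ γ)) (c : γ → Imag L 𝕄), (∀ j, c j ∈ C) →
    (φ.Realize (Sum.elim b c) ↔ ∀ᶠ x in q, φ.Realize (Sum.elim x c))

/-- `(b_i)` is a Morley sequence in `q` over `C`: `b_i ⊨ q | C b_{<i}`. -/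
def IsMorley (C : Set (Imag L 𝕄)) {β : Type} (q : Ultrafilter (β → Imag L 𝕄))
    (b : ℕ → β → Imag L 𝕄) : Prop :=
  ∀ i, RealizesOver (C ∪ {e | ∃ j < i, ∃ k, e = b j k}) q (b i)

/-- The formula `φ(x; b)` Kim-divides over `M ⊆ 𝕄`. -/
def KimDivides (M : Set 𝕄) {α β : Type} (φ : EqFormula L 𝕄 (α ⊕ β)) (b : β → Imag L 𝕄) : Prop :=
  ∃ q : Ultrafilter (β → Imag L 𝕄), IsInvariant (eqOf M) q ∧ RealizesOver (eqOf M) q b ∧
    ∃ bs : ℕ → β → Imag L 𝕄, IsMorley (eqOf M) q bs ∧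
      ∃ N : ℕ, ¬ ∃ x : α → Imag L 𝕄, ∀ i < N, φ.Realize (Sum.elim x (bs i))

/-- `tp(A/MB)` Kim-forks over `M`: it implies a finite disjunction of formulas, each of which
Kim-divides over `M`. -/
def KimForks (M : Set 𝕄) (A B : Set (Imag L 𝕄)) : Prop :=
  ∃ (α : Type) (_ : Finite α) (a : α → Imag L 𝕄), (∀ i, a i ∈ A) ∧
    ∃ (ι : Type) (_ : Finite ι) (β : ι → Type) (_ : ∀ i, Finite (β i))
      (φ : ∀ i, EqFormula L 𝕄 (α ⊕ β i)) (b : ∀ i, β i → Imag L 𝕄),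
      (∀ i, KimDivides M (φ i) (b i)) ∧
      ∀ a' : α → Imag L 𝕄, SameType (eqOf M ∪ B) a a' → ∃ i, (φ i).Realize (Sum.elim a' (b i))

/-- One-basedness, in the `κ`-saturated structure `𝕄`: for all small `A, B ⊆ 𝕄^eq` and all small
elementary substructures `M`, if `tp(A/MB)` Kim-forks over `M`, then
`acl^eq(AM) ∩ acl^eq(BM)` strictly contains `M^eq`. -/
def IsOneBasedIn (L : FirstOrder.Language.{0, 0}) (𝕄 : Type w) [L.Structure 𝕄]
    (κ : Cardinal.{w}) : Prop :=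
  ∀ (M : L.ElementarySubstructure 𝕄) (A B : Set (Imag L 𝕄)), #M < κ → #A < κ → #B < κ →
    KimForks (M : Set 𝕄) A B →
      eqOf (M : Set 𝕄) ⊂ aclEq (A ∪ eqOf (M : Set 𝕄)) ∩ aclEq (B ∪ eqOf (M : Set 𝕄))

end imag

/-! ## The existence axiom -/

section exist
variable {L : FirstOrder.Language.{0, 0}} {𝕄 : Type w} [L.Structure 𝕄]

/-- Two tuples of `𝕄` have the same type over `C ⊆ 𝕄`. -/
def SameTypeReal (C : Set 𝕄) {n : ℕ} (a a' : Fin n → 𝕄) : Prop :=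
  ∀ ψ : L.Formula (Fin n ⊕ C), ψ.Realize (Sum.elim a (fun c => (c : 𝕄))) ↔
    ψ.Realize (Sum.elim a' (fun c => (c : 𝕄)))

/-- The formula `φ(x; b)` divides over `C`. -/
def Divides (C : Set 𝕄) {n m : ℕ} (φ : L.Formula (Fin n ⊕ Fin m)) (b : Fin m → 𝕄) : Prop :=
  ∃ (k : ℕ) (bs : ℕ → Fin m → 𝕄), (∀ i, SameTypeReal (L := L) C (bs i) b) ∧
    ∀ s : Finset ℕ, s.card = k → ¬ ∃ x : Fin n → 𝕄, ∀ i ∈ s, φ.Realize (Sum.elim x (bs i))

/-- `tp(a/C)` forks over `C`: it implies a finite disjunction of formulas, each of which divides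
over `C`. -/
def Forks (L : FirstOrder.Language.{0, 0}) {𝕄 : Type w} [L.Structure 𝕄] (C : Set 𝕄) {n : ℕ}
    (a : Fin n → 𝕄) : Prop :=
  ∃ (ι : Type) (_ : Finite ι) (m : ι → ℕ) (φ : ∀ i, L.Formula (Fin n ⊕ Fin (m i)))
    (b : ∀ i, Fin (m i) → 𝕄), (∀ i, Divides C (φ i) (b i)) ∧
      ∀ a' : Fin n → 𝕄, SameTypeReal (L := L) C a a' → ∃ i, (φ i).Realize (Sum.elim a' (b i))

/-- The existence axiom, in the `κ`-saturated structure `𝕄`: for every small `C` no complete type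
over `C` forks over `C`. -/
def ExistenceIn (L : FirstOrder.Language.{0, 0}) (𝕄 : Type w) [L.Structure 𝕄]
    (κ : Cardinal.{w}) : Prop :=
  ∀ C : Set 𝕄, #C < κ → ∀ (n : ℕ) (a : Fin n → 𝕄), ¬ Forks L C a

end exist

end Pool.Agent.MP568911
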