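import Pool.Agent.Lib.MP_568911_lc.Indep

/-!
# The existence axiom fails over the empty set
-/

namespace Pool.Agent.MP568911
open FirstOrder FirstOrder.Language Function Cardinal
universe u v w

/-- The example: an edge `e` with endpoints `u 0`, `v 0` generating disjoint structures. -/
inductive EB : Type w
  | e
  | u (i : ℕ)
  | v (i : ℕ)

/-- endpoints -/
def EB.ep : Bool → EB.{w} → EB.{w}
  | true, .e => .u 0
  | false, .e => .v 0
  | _, .u i => .u (i + 1)
  | _, .v i => .v (i + 1)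

/-- slots -/
def EB.g : EB.{w} → EB.{w} → EB.{w}
  | _, .e => .e
  | _, .u (i + 1) => .u i
  | _, .v (i + 1) => .v i
  | .v _, .u 0 => .e
  | _, .u 0 => .u 0
  | .v _, .v 0 => .v 0
  | _, .v 0 => .e

instance : LL.Structure EB.{w} := mkStr EB (EB.ep true) (EB.ep false) (fun _ _ => EB.g)

lemma EB.ep_eq (c : Bool) (x : EB.{w}) : Pool.Agent.MP568911.ep c x = EB.ep c x := by
  cases c <;> rfl

lemma EB.gg_eq (n : ℕ) (s : Fin (n + 2)) (x y : EB.{w}) : gg n s x y = EB.g x y := rfl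

lemma EB.good : Good EB.{w} := by
  intro n x y
  have key : ∀ c, EB.g x (EB.ep c y) = y → ∃ f : Fin (n + 1) → Bool × Fin (n + 2),
      (∀ i j, i ≠ j → ¬ (Pool.Agent.MP568911.ep (f i).1 y = Pool.Agent.MP568911.ep (f j).1 y ∧
        (f i).2 = (f j).2)) ∧
      ∀ i, gg n (f i).2 x (Pool.Agent.MP568911.ep (f i).1 y) = y := by
    intro c hc
    refine ⟨fun i => (c, i.castSucc), fun i j hij h => hij (Fin.castSucc_injective _ h.2),
      fun i => ?_⟩
    rw [EB.ep_eq, EB.gg_eq]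
    exact hc
  cases y with
  | e =>
    cases x with
    | e => exact key false rfl
    | u j => exact key false rfl
    | v j => exact key true rfl
  | u i => exact key true (by cases x <;> rfl)
  | v i => exact key true (by cases x <;> rfl)

instance : Countable EB.{w} := by
  let f : EB.{w} → Option (Bool × ℕ) := fun x => match x with
    | .e => none
    | .u i => some (true, i)
    | .v i => some (false, i)
  have hf : Injective f := by
    intro x y h
    cases x <;> cases y <;> simp_all [f]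
  exact hf.countable

/-- the closed set `{u i}` or `{v i}` -/
def EB.sub (c : Bool) : LL.Substructure EB.{w} where
  carrier := {x | ∃ i, x = bif c then EB.u i else EB.v i}
  fun_mem {n} F xs hxs := by
    match n, F, xs, hxs with
    | _, Fn.h, xs, hxs =>
      obtain ⟨i, hi⟩ := hxs 0
      refine ⟨i + 1, ?_⟩
      change EB.ep true (xs 0) = _
      rw [hi]
      cases c <;> rfl
    | _, Fn.t, xs, hxs =>
      obtain ⟨i, hi⟩ := hxs 0
      refine ⟨i + 1, ?_⟩
      change EB.ep false (xs 0) = _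
      rw [hi]
      cases c <;> rfl
    | _, Fn.g n s, xs, hxs =>
      obtain ⟨i, hi⟩ := hxs 0
      obtain ⟨j, hj⟩ := hxs 1
      refine ⟨j - 1, ?_⟩
      change EB.g (xs 0) (xs 1) = _
      rw [hi, hj]
      cases c <;> cases j <;> rfl

lemma EB.not_mem (c : Bool) : (EB.e : EB.{w}) ∉
    Substructure.closure LL {Pool.Agent.MP568911.ep c (EB.e : EB.{w})} := by
  have h1 : Substructure.closure LL {Pool.Agent.MP568911.ep c (EB.e : EB.{w})} ≤ EB.sub c := by
    rw [Substructure.closure_le, Set.singleton_subset_iff]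
    refine ⟨0, ?_⟩
    rw [EB.ep_eq]
    cases c <;> rfl
  intro h
  obtain ⟨i, hi⟩ := h1 h
  cases c <;> simp at hi

section
variable {𝕄 : Type w} [LL.Structure 𝕄] [Nonempty 𝕄]

theorem exists_edge {κ : Cardinal.{w}} (hκ : ℵ₀ < κ) (hT : IsT 𝕄) (hs : IsSaturated LL 𝕄 κ) :
    ∃ e : 𝕄, ∀ c, e ∉ Substructure.closure LL {ep c e} := by
  classical
  let x0 : 𝕄 := Classical.arbitrary 𝕄
  let A : LL.Substructure 𝕄 := Substructure.closure LL {x0}
  have hA : #A < κ := card_closure_lt hκ (by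
    rw [Cardinal.mk_singleton]
    exact Cardinal.one_lt_aleph0.trans hκ)
  have : Nonempty A := ⟨⟨x0, Substructure.subset_closure rfl⟩⟩
  have : Nonempty EB.{w} := ⟨EB.e⟩
  obtain ⟨D, _, hD, ⟨i, -⟩, ⟨k, -⟩⟩ := disjUnion (Good.of_emb A.subtype hT.1) EB.good.{w}
  let E : LL.Substructure D := Substructure.closure LL (Set.range i ∪ Set.range k)
  have hEsub : (Set.range i ∪ Set.range k) ⊆ (E : Set D) := Substructure.subset_closure
  have hE : #E < κ := by
    apply card_closure_lt hκ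
    refine (Cardinal.mk_union_le _ _).trans_lt (Cardinal.add_lt_of_lt hκ.le ?_ ?_)
    · exact (Cardinal.mk_range_le (f := i)).trans_lt hA
    · refine (Cardinal.mk_range_le (f := k)).trans_lt (lt_of_le_of_lt ?_ hκ)
      exact Cardinal.mk_le_aleph0_iff.2 inferInstance
  obtain ⟨i', -⟩ := emb_codRestrict i E (fun a => hEsub (Or.inl ⟨a, rfl⟩))
  obtain ⟨k', -⟩ := emb_codRestrict k E (fun a => hEsub (Or.inr ⟨a, rfl⟩))
  obtain ⟨f, -⟩ := rich hT hs (Good.of_emb E.subtype hD) hE A.subtype i'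
  let F : EB.{w} ↪[LL] 𝕄 := f.comp k'
  refine ⟨F EB.e, fun c hc => ?_⟩
  rw [← map_ep] at hc
  have h1 : Substructure.closure LL {F (ep c EB.e)} ≤
      (Substructure.closure LL {ep c (EB.e : EB.{w})}).map F.toHom := by
    rw [Substructure.closure_le, Set.singleton_subset_iff]
    exact ⟨ep c EB.e, Substructure.subset_closure rfl, rfl⟩
  obtain ⟨z, hz1, hz2⟩ := h1 hc
  have : z = EB.e := F.injective hz2
  rw [this] at hz1
  exact EB.not_mem c hz1

/-- the dividing formulas -/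
def edgeFormula (s : Fin 2) : LL.Formula (Fin 1 ⊕ Fin 2) :=
  (ggT 0 s (Term.var (Sum.inl 0)) (Term.var (Sum.inr 0))).equal (Term.var (Sum.inr 1))

lemma edgeFormula_realize (s : Fin 2) (x : Fin 1 → 𝕄) (y : Fin 2 → 𝕄) :
    (edgeFormula s).Realize (Sum.elim x y) ↔ gg 0 s (x 0) (y 0) = y 1 := by
  unfold edgeFormula
  rw [Formula.realize_equal]
  simp

/-- `g_s(x, u) = e` divides over `∅` if `e ∉ acl(u)`. -/
theorem edge_divides {κ : Cardinal.{w}} (hκ : ℵ₀ < κ) (hT : IsT 𝕄) (hs : IsSaturated LL 𝕄 κ)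
    (u e : 𝕄) (hue : e ∉ Substructure.closure LL {u}) (s : Fin 2) :
    Divides (∅ : Set 𝕄) (edgeFormula s) ![u, e] := by
  classical
  let X : LL.Substructure 𝕄 := Substructure.closure LL {u}
  let Zs : LL.Substructure 𝕄 := Substructure.closure LL {u, e}
  have hX : #X < κ := card_closure_lt hκ ((Set.finite_singleton u).lt_aleph0.trans hκ)
  have hZ : #Zs < κ := card_closure_lt hκ
    (((Set.finite_singleton e).insert u).lt_aleph0.trans hκ)
  have huZ : u ∈ Zs := Substructure.subset_closure (by simp)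
  have heZ : e ∈ Zs := Substructure.subset_closure (by simp)
  let Y : LL.Substructure Zs := X.comap Zs.subtype.toHom
  have huX : u ∈ X := Substructure.subset_closure rfl
  have : Nonempty Y := ⟨⟨⟨u, huZ⟩, huX⟩⟩
  have : Nonempty Zs := ⟨⟨u, huZ⟩⟩
  have hinf : {e' | SameTypeReal (L := LL) (∅ : Set 𝕄) ![u, e'] ![u, e]}.Infinite := by
    intro hfin
    obtain ⟨G, hG1, hG2⟩ := free hκ hT hs (Good.of_emb Zs.subtype hT.1) hZ Y
      (Zs.subtype.comp Y.subtype) _ (hfin.lt_aleph0.trans hκ)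
    have hGu : G ⟨u, huZ⟩ = u := hG1 ⟨⟨u, huZ⟩, huX⟩
    have h1 : G ⟨e, heZ⟩ ∈ {e' | SameTypeReal (L := LL) (∅ : Set 𝕄) ![u, e'] ![u, e]} := by
      intro ψ
      have h2 := qe hκ hT hT hs hs ψ hZ G Zs.subtype
        (Sum.elim ![⟨u, huZ⟩, ⟨e, heZ⟩] (fun c : (∅ : Set 𝕄) => (⟨u, huZ⟩ : Zs)))
      have e1 : (fun i => G (Sum.elim ![(⟨u, huZ⟩ : Zs), ⟨e, heZ⟩]
          (fun c : (∅ : Set 𝕄) => (⟨u, huZ⟩ : Zs)) i)) =
          Sum.elim ![u, G ⟨e, heZ⟩] (fun c : (∅ : Set 𝕄) => (c : 𝕄)) := by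
        funext q
        rcases q with q | q
        · fin_cases q
          · exact hGu
          · rfl
        · exact absurd q.2 (Set.notMem_empty _)
      have e2 : (fun i => Zs.subtype (Sum.elim ![(⟨u, huZ⟩ : Zs), ⟨e, heZ⟩]
          (fun c : (∅ : Set 𝕄) => (⟨u, huZ⟩ : Zs)) i)) =
          Sum.elim ![u, e] (fun c : (∅ : Set 𝕄) => (c : 𝕄)) := by
        funext q
        rcases q with q | q
        · fin_cases q <;> rfl
        · exact absurd q.2 (Set.notMem_empty _)
      rw [e1, e2] at h2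
      exact h2
    exact hue (hG2 _ h1)
  refine ⟨2, fun i => ![u, (hinf.natEmbedding _ i : 𝕄)], fun i => (hinf.natEmbedding _ i).2, ?_⟩
  rintro S hS ⟨x, hx⟩
  obtain ⟨i, j, hij, rfl⟩ := Finset.card_eq_two.1 hS
  have h1 := (edgeFormula_realize _ _ _).1 (hx i (by simp))
  have h2 := (edgeFormula_realize _ _ _).1 (hx j (by simp))
  have h3 : (hinf.natEmbedding _ i : 𝕄) = hinf.natEmbedding _ j := h1.symm.trans h2
  exact hij ((hinf.natEmbedding _).injective (Subtype.ext h3))

/-- **The existence axiom fails.** -/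
theorem not_existence {κ : Cardinal.{w}} (hκ : ℵ₀ < κ) (hT : IsT 𝕄) (hs : IsSaturated LL 𝕄 κ) :
    ¬ ExistenceIn LL 𝕄 κ := by
  intro h
  obtain ⟨e, he⟩ := exists_edge hκ hT hs
  have h0 : #(∅ : Set 𝕄) < κ := by
    rw [Cardinal.mk_emptyCollection]
    exact Cardinal.aleph0_pos.trans hκ
  apply h ∅ h0 1 (fun _ => e)
  refine ⟨Bool × Fin 2, inferInstance, fun _ => 2, fun i => edgeFormula i.2,
    fun i => ![ep i.1 e, e], fun i => edge_divides hκ hT hs _ _ (he i.1) i.2, ?_⟩
  intro a' _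
  obtain ⟨f, -, hf⟩ := hT.1 0 (a' 0) e
  refine ⟨f 0, ?_⟩
  rw [edgeFormula_realize]
  exact hf 0

end

end Pool.Agent.MP568911
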