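import Pool.Agent.Lib.MP_568911_lc.Chain

/-!
# First-order conditions; the axioms are first-order
-/

namespace Pool.Agent.MP568911
open FirstOrder FirstOrder.Language Function
universe u v w

section fo
variable {L : FirstOrder.Language.{0, 0}} {α β : Type}

/-- First-order conditions on tuples. -/
def FO (L : FirstOrder.Language.{0, 0}) (α : Type)
    (P : ∀ (M : Type w) [L.Structure M], (α → M) → Prop) : Prop :=
  ∃ φ : L.Formula α, ∀ (M : Type w) [L.Structure M] (v : α → M), φ.Realize v ↔ P M v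

variable {P Q : ∀ (M : Type w) [L.Structure M], (α → M) → Prop}

lemma FO.congr (h : FO L α P) (hPQ : ∀ (M : Type w) [L.Structure M] (v : α → M), P M v ↔ Q M v) :
    FO L α Q := by
  obtain ⟨φ, hφ⟩ := h
  exact ⟨φ, fun M _ v => (hφ M v).trans (hPQ M v)⟩

lemma FO.not (h : FO L α P) : FO L α (fun M _ v => ¬ P M v) := by
  obtain ⟨φ, hφ⟩ := h
  exact ⟨∼φ, fun M _ v => by rw [Formula.realize_not, hφ]⟩

lemma FO.imp (h : FO L α P) (h' : FO L α Q) : FO L α (fun M _ v => P M v → Q M v) := by
  obtain ⟨φ, hφ⟩ := h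
  obtain ⟨ψ, hψ⟩ := h'
  exact ⟨φ.imp ψ, fun M _ v => by rw [Formula.realize_imp, hφ, hψ]⟩

lemma FO.and (h : FO L α P) (h' : FO L α Q) : FO L α (fun M _ v => P M v ∧ Q M v) := by
  obtain ⟨φ, hφ⟩ := h
  obtain ⟨ψ, hψ⟩ := h'
  exact ⟨φ ⊓ ψ, fun M _ v => by rw [Formula.realize_inf, hφ, hψ]⟩

lemma FO.const (p : Prop) : FO L α (fun _ _ _ => p) := by
  by_cases hp : p
  · exact ⟨⊤, fun M _ v => by simp [hp]⟩
  · exact ⟨⊥, fun M _ v => by simp [hp]⟩

lemma FO.impConst {p : Prop} (h : p → FO L α P) : FO L α (fun M _ v => p → P M v) := by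
  by_cases hp : p
  · exact (h hp).congr fun M _ v => by simp [hp]
  · exact (FO.const True).congr fun M _ v => by simp [hp]

lemma FO.allFin {ι : Type*} [Finite ι] {P : ι → ∀ (M : Type w) [L.Structure M], (α → M) → Prop}
    (h : ∀ i, FO L α (P i)) : FO L α (fun M _ v => ∀ i, P i M v) := by
  choose φ hφ using h
  exact ⟨Formula.iInf φ, fun M _ v => by rw [Formula.realize_iInf]; simp only [hφ]⟩

lemma FO.exFin {ι : Type*} [Finite ι] {P : ι → ∀ (M : Type w) [L.Structure M], (α → M) → Prop}
    (h : ∀ i, FO L α (P i)) : FO L α (fun M _ v => ∃ i, P i M v) := by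
  choose φ hφ using h
  exact ⟨Formula.iSup φ, fun M _ v => by rw [Formula.realize_iSup]; simp only [hφ]⟩

lemma FO.allLt {N : ℕ} {P : ℕ → ∀ (M : Type w) [L.Structure M], (α → M) → Prop}
    (h : ∀ i < N, FO L α (P i)) : FO L α (fun M _ v => ∀ i < N, P i M v) := by
  refine (FO.allFin (ι := Fin N) (fun i => h i i.2)).congr fun M _ v => ?_
  exact ⟨fun H i hi => H ⟨i, hi⟩, fun H i => H i i.2⟩

lemma FO.allLe {N : ℕ} {P : ℕ → ∀ (M : Type w) [L.Structure M], (α → M) → Prop}
    (h : ∀ i ≤ N, FO L α (P i)) : FO L α (fun M _ v => ∀ i ≤ N, P i M v) := by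
  refine (FO.allLt (N := N + 1) (P := P) (fun i hi => h i (Nat.lt_succ_iff.1 hi))).congr
    fun M _ v => ?_
  exact ⟨fun H i hi => H i (Nat.lt_succ_iff.2 hi), fun H i hi => H i (Nat.lt_succ_iff.1 hi)⟩

lemma FO.eq (s t : L.Term α) : FO L α (fun _ _ v => s.realize v = t.realize v) :=
  ⟨s.equal t, fun M _ v => by rw [Formula.realize_equal]⟩

lemma FO.all [Finite β] {P : ∀ (M : Type w) [L.Structure M], (α ⊕ β → M) → Prop}
    (h : FO L (α ⊕ β) P) : FO L α (fun M _ v => ∀ u : β → M, P M (Sum.elim v u)) := by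
  obtain ⟨φ, hφ⟩ := h
  exact ⟨φ.iAlls β, fun M _ v => by
    rw [Formula.realize_iAlls]
    exact forall_congr' fun u => hφ M _⟩

lemma FO.ex [Finite β] {P : ∀ (M : Type w) [L.Structure M], (α ⊕ β → M) → Prop}
    (h : FO L (α ⊕ β) P) : FO L α (fun M _ v => ∃ u : β → M, P M (Sum.elim v u)) := by
  obtain ⟨φ, hφ⟩ := h
  exact ⟨φ.iExs β, fun M _ v => by
    rw [Formula.realize_iExs]
    exact exists_congr fun u => hφ M _⟩

end fo

section terms
variable {α : Type*} {M : Type w} [LL.Structure M]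

/-- term for `hd` / `tl` -/
def epT (b : Bool) (s : LL.Term α) : LL.Term α :=
  bif b then Term.func (Fn.h : LL.Functions 1) ![s] else Term.func (Fn.t : LL.Functions 1) ![s]

/-- term for `gg` -/
def ggT (n : ℕ) (i : Fin (n + 2)) (s t : LL.Term α) : LL.Term α :=
  Term.func (Fn.g n i : LL.Functions 2) ![s, t]

@[simp] lemma realize_epT (b : Bool) (s : LL.Term α) (v : α → M) :
    (epT b s).realize v = ep b (s.realize v) := by
  cases b
  · simp only [epT, cond_false, Term.realize, ep_false, tl]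
    congr 1
    ext i; fin_cases i; rfl
  · simp only [epT, cond_true, Term.realize, ep_true, hd]
    congr 1
    ext i; fin_cases i; rfl

@[simp] lemma realize_ggT (n : ℕ) (i : Fin (n + 2)) (s t : LL.Term α) (v : α → M) :
    (ggT n i s t).realize v = gg n i (s.realize v) (t.realize v) := by
  simp only [ggT, Term.realize, gg]
  congr 1
  ext i; fin_cases i <;> rfl

end terms

section axioms
variable {α : Type}

theorem fo_goodN (n : ℕ) : FO.{w} LL α (fun M _ _ => GoodN n M) := by
  have h : FO.{w} LL (α ⊕ Fin 2) (fun M _ v => ∃ f : Fin (n + 1) → Bool × Fin (n + 2),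
      (∀ i j, i ≠ j → ¬ (ep (f i).1 (v (Sum.inr 1)) = ep (f j).1 (v (Sum.inr 1)) ∧
        (f i).2 = (f j).2)) ∧
      ∀ i, gg n (f i).2 (v (Sum.inr 0)) (ep (f i).1 (v (Sum.inr 1))) = v (Sum.inr 1)) := by
    refine FO.exFin fun f => FO.and ?_ ?_
    · refine FO.allFin fun i => FO.allFin fun j => FO.impConst fun _ => FO.not (FO.and ?_ ?_)
      · exact (FO.eq (epT (f i).1 (Term.var (Sum.inr 1))) (epT (f j).1 (Term.var (Sum.inr 1)))).congr
          fun M _ v => by simp
      · exact FO.const _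
    · refine FO.allFin fun i => ?_
      exact (FO.eq (ggT n (f i).2 (Term.var (Sum.inr 0)) (epT (f i).1 (Term.var (Sum.inr 1))))
        (Term.var (Sum.inr 1))).congr fun M _ v => by simp
  refine (FO.all h).congr fun M _ v => ?_
  constructor
  · intro H x e
    exact H ![x, e]
  · intro H u
    exact H (u 0) (u 1)

theorem fo_oldFacts (P : Pat) (c : Fin P.k → α) :
    FO.{w} LL α (fun _ _ v => OldFacts P (fun a => v (c a))) := by
  unfold OldFacts
  refine FO.and ?_ (FO.and ?_ ?_)
  · refine FO.allFin fun a => FO.allFin fun b => FO.impConst fun _ => FO.impConst fun _ =>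
      FO.imp ?_ (FO.const _)
    exact (FO.eq (Term.var (c a)) (Term.var (c b))).congr fun M _ v => by simp
  · refine FO.allFin fun i => FO.allFin fun a => FO.allFin fun b => FO.impConst fun _ =>
      FO.impConst fun _ => ?_
    exact (FO.eq (epT i (Term.var (c a))) (Term.var (c b))).congr fun M _ v => by simp
  · refine FO.allLt fun n _ => FO.allFin fun s => FO.allFin fun a => FO.allFin fun b =>
      FO.allFin fun d => FO.impConst fun _ => FO.impConst fun _ => FO.impConst fun _ => ?_
    exact (FO.eq (ggT n s (Term.var (c a)) (Term.var (c b))) (Term.var (c d))).congr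
      fun M _ v => by simp

theorem fo_facts (P : Pat) (c : Fin P.k → α) :
    FO.{w} LL α (fun _ _ v => Facts P (fun a => v (c a))) := by
  unfold Facts
  refine FO.and ?_ (FO.and ?_ ?_)
  · refine FO.allFin fun a => FO.allFin fun b => FO.imp ?_ (FO.const _)
    exact (FO.eq (Term.var (c a)) (Term.var (c b))).congr fun M _ v => by simp
  · refine FO.allFin fun i => FO.allFin fun a => FO.allFin fun b => FO.impConst fun _ => ?_
    exact (FO.eq (epT i (Term.var (c a))) (Term.var (c b))).congr fun M _ v => by simp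
  · refine FO.allLt fun n _ => FO.allFin fun s => FO.allFin fun a => FO.allFin fun b =>
      FO.allFin fun d => FO.impConst fun _ => ?_
    exact (FO.eq (ggT n s (Term.var (c a)) (Term.var (c b))) (Term.var (c d))).congr
      fun M _ v => by simp

theorem fo_theta (P : Pat) (c : Fin P.k → α) :
    FO.{w} LL α (fun _ _ v => Theta P (fun a => v (c a))) := by
  unfold Theta
  refine FO.allFin fun y => FO.impConst fun _ => FO.allLt fun n _ => FO.allLe fun j _ => ?_
  have h : FO.{w} LL (α ⊕ Fin j) (fun M _ v =>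
      (∀ i l, v (Sum.inr i) = v (Sum.inr l) → i = l) →
      ∃ f : Fin j × Fin (n + 1) → Bool × Fin (n + 2),
      (∀ p q, p ≠ q → ¬ (ep (f p).1 (v (Sum.inr p.1)) = ep (f q).1 (v (Sum.inr q.1)) ∧
        (f p).2 = (f q).2)) ∧
      ∀ p b, P.old b = true → ep (f p).1 (v (Sum.inr p.1)) = v (Sum.inl (c b)) →
        ∀ d, P.G n (f p).2 y b = some d →
        (P.old d = true ∧ v (Sum.inl (c d)) = v (Sum.inr p.1))) := by
    refine FO.imp ?_ (FO.exFin fun f => FO.and ?_ ?_)
    · refine FO.allFin fun i => FO.allFin fun l => FO.imp ?_ (FO.const _)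
      exact (FO.eq (Term.var (Sum.inr i)) (Term.var (Sum.inr l))).congr fun M _ v => by simp
    · refine FO.allFin fun p => FO.allFin fun q => FO.impConst fun _ =>
        FO.not (FO.and ?_ (FO.const _))
      exact (FO.eq (epT (f p).1 (Term.var (Sum.inr p.1)))
        (epT (f q).1 (Term.var (Sum.inr q.1)))).congr fun M _ v => by simp
    · refine FO.allFin fun p => FO.allFin fun b => FO.impConst fun _ => FO.imp ?_
        (FO.allFin fun d => FO.impConst fun _ => FO.and (FO.const _) ?_)
      · exact (FO.eq (epT (f p).1 (Term.var (Sum.inr p.1)))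
          (Term.var (Sum.inl (c b)))).congr fun M _ v => by simp
      · exact (FO.eq (Term.var (Sum.inl (c d))) (Term.var (Sum.inr p.1))).congr
          fun M _ v => by simp
  exact (FO.all h).congr fun M _ v => by
    simp only [Sum.elim_inl, Sum.elim_inr]

theorem fo_task (P : Pat) : FO.{w} LL α (fun M _ _ => Task P M) := by
  have h3 := (fo_facts.{w} (α := (α ⊕ Fin P.k) ⊕ Fin P.k) P Sum.inr)
  have h4 : FO.{w} LL ((α ⊕ Fin P.k) ⊕ Fin P.k) (fun M _ v =>
      (∀ a, P.old a = true → v (Sum.inr a) = v (Sum.inl (Sum.inr a))) ∧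
      Facts P (fun a => v (Sum.inr a))) := by
    refine FO.and ?_ h3
    refine FO.allFin fun a => FO.impConst fun _ => ?_
    exact (FO.eq (Term.var (Sum.inr a)) (Term.var (Sum.inl (Sum.inr a)))).congr
      fun M _ v => by simp
  have h5 := FO.all (FO.imp (fo_oldFacts.{w} (α := α ⊕ Fin P.k) P Sum.inr)
    (FO.imp (fo_theta.{w} (α := α ⊕ Fin P.k) P Sum.inr) (FO.ex h4)))
  refine h5.congr fun M _ v => ?_
  simp only [Sum.elim_inl, Sum.elim_inr]
  rfl

end axioms

/-- Transfer of a first-order condition without free variables. -/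
lemma FO.transfer {L : FirstOrder.Language.{0, 0}}
    {P : ∀ (M : Type w) [L.Structure M], Prop} (h : FO.{w} L Empty (fun M _ _ => P M))
    {M N : Type w} [L.Structure M] [L.Structure N] (hMN : L.ElementarilyEquivalent M N)
    (hM : P M) : P N := by
  obtain ⟨φ, hφ⟩ := h
  have h1 : M ⊨ (φ : L.Sentence) := by
    unfold Sentence.Realize
    rw [hφ]
    exact hM
  have h2 : N ⊨ (φ : L.Sentence) := (hMN.realize_sentence φ).1 h1
  unfold Sentence.Realize at h2
  rw [hφ] at h2
  exact h2

theorem IsT.transfer {M N : Type w} [LL.Structure M] [LL.Structure N]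
    (hMN : LL.ElementarilyEquivalent M N) (hM : IsT M) : IsT N :=
  ⟨fun n => FO.transfer (fo_goodN n) hMN (hM.1 n), fun P => FO.transfer (fo_task P) hMN (hM.2 P)⟩

end Pool.Agent.MP568911
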