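import Pool.Agent.Lib.MP_568911_lc.Array

/-!
# The theory is NSOP₁
-/

namespace Pool.Agent.MP568911
open FirstOrder FirstOrder.Language Function Cardinal Filter
universe u v w

section fo
variable {L : FirstOrder.Language.{0, 0}} {α β : Type}

lemma FO.realize (φ : L.Formula β) (g : β → α) :
    FO.{w} L α (fun _ _ v => φ.Realize (fun b => v (g b))) :=
  ⟨φ.relabel g, fun M _ v => by rw [Formula.realize_relabel]; rfl⟩

end fo

section sop
variable {𝕄 : Type w} [LL.Structure 𝕄] {m p : ℕ}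

lemma hyper_of_atTop {P : ℕ → Prop} (h : ∀ᶠ n in atTop, P n) :
    ∀ᶠ n in (hyperfilter ℕ : Filter ℕ), P n :=
  (Filter.hyperfilter_le_cofinite.trans Nat.cofinite_eq_atTop.le) h

/-- `b` realises the limit type of the sequence `d`, over the set `P`. -/
def Lim (d : ℕ → Fin m → 𝕄) (P : Set 𝕄) (b : Fin m → 𝕄) : Prop :=
  ∀ (γ : Type) (χ : LL.Formula (Fin m ⊕ γ)) (c : γ → 𝕄), (∀ l, c l ∈ P) →
    (χ.Realize (Sum.elim b c) ↔ ∀ᶠ i in (hyperfilter ℕ : Filter ℕ), χ.Realize (Sum.elim (d i) c))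

lemma lt_aleph_one {α : Type*} [Countable α] : #α < ℵ_ 1 := by
  have h : #α ≤ ℵ₀ := Cardinal.mk_le_aleph0_iff.2 inferInstance
  refine h.trans_lt ?_
  rw [← Cardinal.aleph_zero, Cardinal.aleph_lt_aleph]
  exact zero_lt_one

theorem exists_lim (hs : IsSaturated LL 𝕄 (ℵ_ 1)) (d : ℕ → Fin m → 𝕄) (P : Set 𝕄)
    (hP : P.Countable) : ∃ b, Lim d P b := by
  have : Countable P := hP.to_subtype
  let Γ : Set (LL.Formula (ULift.{w} (Fin m) ⊕ P)) :=
    {χ | ∀ᶠ i in (hyperfilter ℕ : Filter ℕ),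
      χ.Realize (Sum.elim (fun j => d i j.down) (fun p : P => (p : 𝕄)))}
  obtain ⟨b, hb⟩ := hs (ULift.{w} (Fin m)) P lt_aleph_one lt_aleph_one Γ (by
    intro Γ₀ h1 h2
    have h3 : ∀ᶠ i in (hyperfilter ℕ : Filter ℕ), ∀ χ ∈ Γ₀,
        χ.Realize (Sum.elim (fun j => d i j.down) (fun p : P => (p : 𝕄))) :=
      (Filter.eventually_all_finite h2).2 (fun χ hχ => h1 hχ)
    obtain ⟨i, hi⟩ := h3.exists
    exact ⟨_, hi⟩)
  refine ⟨fun j => b ⟨j⟩, ?_⟩
  have key : ∀ (γ : Type) (χ : LL.Formula (Fin m ⊕ γ)) (c : γ → 𝕄), (∀ l, c l ∈ P) →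
      (∀ᶠ i in (hyperfilter ℕ : Filter ℕ), χ.Realize (Sum.elim (d i) c)) →
      χ.Realize (Sum.elim (fun j => b ⟨j⟩) c) := by
    intro γ χ c hc h
    let g : Fin m ⊕ γ → ULift.{w} (Fin m) ⊕ P := Sum.map ULift.up (fun l => ⟨c l, hc l⟩)
    have e : ∀ y : ULift.{w} (Fin m) → 𝕄, (χ.relabel g).Realize
        (Sum.elim y (fun p : P => (p : 𝕄))) ↔ χ.Realize (Sum.elim (fun j => y ⟨j⟩) c) := by
      intro y
      rw [Formula.realize_relabel]
      have : Sum.elim y (fun p : P => (p : 𝕄)) ∘ g = Sum.elim (fun j => y ⟨j⟩) c := by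
        funext q
        rcases q with j | l <;> rfl
      rw [this]
    rw [← e]
    apply hb
    change ∀ᶠ i in (hyperfilter ℕ : Filter ℕ), _
    simp only [e]
    exact h
  intro γ χ c hc
  refine ⟨fun h => ?_, key γ χ c hc⟩
  by_contra hcon
  have h2 := Ultrafilter.eventually_not.2 hcon
  have h3 := key γ (∼χ) c hc (by simpa only [Formula.realize_not] using h2)
  rw [Formula.realize_not] at h3
  exact h3 h

variable (φ : LL.Formula (Fin p ⊕ Fin m)) (C : ℕ → Bool → Fin m → 𝕄) (m0 : 𝕄)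

/-- the whole array -/
def full : Zv m → 𝕄 := fun q => C q.1 q.2.1 q.2.2

/-- the substructure generated by the array -/
def Cs : LL.Substructure 𝕄 := Substructure.closure LL (Set.range (full C))

lemma full_mem (z : Zv m) : full C z ∈ Cs C := Substructure.subset_closure ⟨z, rfl⟩

lemma realize_trunc_eventually {γ : Type} (s : LL.Term (γ ⊕ Zv m)) :
    ∀ᶠ i in atTop, ∀ y : γ → 𝕄, s.realize (Sum.elim y (trunc C m0 i)) =
      s.realize (Sum.elim y (full C)) := by
  induction s with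
  | var q =>
    rcases q with l | z
    · exact Filter.Eventually.of_forall fun i y => rfl
    · filter_upwards [Filter.eventually_gt_atTop z.1] with i hi y
      simp only [Term.realize_var, Sum.elim_inr, trunc, if_pos hi]
      rfl
  | func f ts ih =>
    filter_upwards [Filter.eventually_all.2 ih] with i hi y
    simp only [Term.realize]
    congr 1
    funext j
    exact hi j y

variable {C m0 φ}

lemma L1 (A1 : ∀ i, ∀ s t : LL.Term (Fin m ⊕ Zv m),
        (s.realize (Sum.elim (C i false) (trunc C m0 i)) =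
        t.realize (Sum.elim (C i false) (trunc C m0 i)) ↔
        s.realize (Sum.elim (C i true) (trunc C m0 i)) =
        t.realize (Sum.elim (C i true) (trunc C m0 i))))
    {P P' : Set 𝕄} {b b' : Fin m → 𝕄} (hP : (Cs C : Set 𝕄) ⊆ P) (hP' : (Cs C : Set 𝕄) ⊆ P')
    (hb : Lim (fun i => C i false) P b) (hb' : Lim (fun i => C i true) P' b')
    (s t : LL.Term (Fin m ⊕ Zv m)) :
    s.realize (Sum.elim b (full C)) = t.realize (Sum.elim b (full C)) ↔
      s.realize (Sum.elim b' (full C)) = t.realize (Sum.elim b' (full C)) := by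
  have h1 := hb (Zv m) (s.equal t) (full C) (fun l => hP (full_mem C l))
  have h2 := hb' (Zv m) (s.equal t) (full C) (fun l => hP' (full_mem C l))
  simp only [Formula.realize_equal] at h1 h2
  rw [h1, h2]
  apply Filter.eventually_congr
  apply hyper_of_atTop
  filter_upwards [realize_trunc_eventually C m0 s, realize_trunc_eventually C m0 t] with i hi hi'
  rw [← hi, ← hi', ← hi, ← hi']
  exact A1 i s t

lemma L2 {j : Bool} {P : Set 𝕄} {b : Fin m → 𝕄} (hP : (Cs C : Set 𝕄) ⊆ P)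
    (hb : Lim (fun i => C i j) P b) {x : 𝕄} (hx : x ∈ P) (s : LL.Term (Fin m ⊕ Zv m))
    (hs : s.realize (Sum.elim b (full C)) = x) : x ∈ Cs C := by
  have h1 := hb (Zv m ⊕ Unit) (((s.relabel (Sum.map id Sum.inl) :
    LL.Term (Fin m ⊕ (Zv m ⊕ Unit)))).equal (Term.var (Sum.inr (Sum.inr ()))))
    (Sum.elim (full C) (fun _ => x)) (by
      rintro (l | l)
      · exact hP (full_mem C l)
      · exact hx)
  simp only [Formula.realize_equal, Term.realize_relabel, Term.realize_var, Sum.elim_inr] at h1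
  have e : ∀ y : Fin m → 𝕄, (Sum.elim y (Sum.elim (full C) (fun _ => x)) : _ → 𝕄) ∘
      (Sum.map id Sum.inl : Fin m ⊕ Zv m → Fin m ⊕ (Zv m ⊕ Unit)) = Sum.elim y (full C) := by
    intro y
    funext q
    rcases q with l | l <;> rfl
  simp only [e] at h1
  obtain ⟨i, hi⟩ := (h1.1 hs).exists
  rw [← hi]
  apply realize_mem_closure
  rintro (l | l)
  · exact full_mem C (i, j, l)
  · exact full_mem C l

/-- first-order condition `∃ x, φ(x; y) ∧ ∀ i, φ(x; d_i)` -/
lemma exists_joint (φ : LL.Formula (Fin p ⊕ Fin m)) (ι : Type) [Finite ι] :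
    ∃ χ : LL.Formula (Fin m ⊕ (ι × Fin m)), ∀ (M : Type w) [LL.Structure M]
      (y : Fin m → M) (d : ι → Fin m → M),
      χ.Realize (Sum.elim y (fun q => d q.1 q.2)) ↔
        ∃ x : Fin p → M, φ.Realize (Sum.elim x y) ∧ ∀ i, φ.Realize (Sum.elim x (d i)) := by
  have h1 : FO.{w} LL ((Fin m ⊕ (ι × Fin m)) ⊕ Fin p) (fun M _ v =>
      φ.Realize (fun q => v ((Sum.elim Sum.inr (fun l => Sum.inl (Sum.inl l)) :
        Fin p ⊕ Fin m → (Fin m ⊕ (ι × Fin m)) ⊕ Fin p) q)) ∧
      ∀ i : ι, φ.Realize (fun q => v ((Sum.elim Sum.inr (fun l => Sum.inl (Sum.inr (i, l))) :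
        Fin p ⊕ Fin m → (Fin m ⊕ (ι × Fin m)) ⊕ Fin p) q))) :=
    FO.and (FO.realize φ _) (FO.allFin fun i => FO.realize φ _)
  obtain ⟨χ, hχ⟩ := FO.ex h1
  refine ⟨χ, fun M _ y d => ?_⟩
  rw [hχ]
  apply exists_congr
  intro x
  have e1 : (fun q => Sum.elim (Sum.elim y (fun q : ι × Fin m => d q.1 q.2)) x
      ((Sum.elim Sum.inr (fun l => Sum.inl (Sum.inl l)) :
        Fin p ⊕ Fin m → (Fin m ⊕ (ι × Fin m)) ⊕ Fin p) q)) = Sum.elim x y := by
    funext q
    rcases q with l | l <;> rfl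
  have e2 : ∀ i, (fun q => Sum.elim (Sum.elim y (fun q : ι × Fin m => d q.1 q.2)) x
      ((Sum.elim Sum.inr (fun l => Sum.inl (Sum.inr (i, l))) :
        Fin p ⊕ Fin m → (Fin m ⊕ (ι × Fin m)) ⊕ Fin p) q)) = Sum.elim x (d i) := by
    intro i
    funext q
    rcases q with l | l <;> rfl
  simp only [e1, e2]

/-- first-order condition `∀ x, φ(x; y) → ∃ r, s_r(x, z) = t_r(y, z)` -/
lemma exists_cover_formula (φ : LL.Formula (Fin p ⊕ Fin m)) (R : Type*) [Finite R]
    (s : R → LL.Term (Fin p ⊕ Zv m)) (t : R → LL.Term (Fin m ⊕ Zv m)) :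
    ∃ χ : LL.Formula (Fin m ⊕ Zv m), ∀ (M : Type w) [LL.Structure M]
      (y : Fin m → M) (z : Zv m → M),
      χ.Realize (Sum.elim y z) ↔ ∀ x : Fin p → M, φ.Realize (Sum.elim x y) →
        ∃ r, (s r).realize (Sum.elim x z) = (t r).realize (Sum.elim y z) := by
  have h1 : FO.{w} LL ((Fin m ⊕ Zv m) ⊕ Fin p) (fun M _ v =>
      φ.Realize (fun q => v ((Sum.elim Sum.inr (fun l => Sum.inl (Sum.inl l)) :
        Fin p ⊕ Fin m → (Fin m ⊕ Zv m) ⊕ Fin p) q)) →
      ∃ r : R, ((s r).relabel (Sum.elim Sum.inr (fun l => Sum.inl (Sum.inr l)) :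
        Fin p ⊕ Zv m → (Fin m ⊕ Zv m) ⊕ Fin p)).realize v =
        ((t r).relabel (Sum.inl : Fin m ⊕ Zv m → (Fin m ⊕ Zv m) ⊕ Fin p)).realize v) :=
    FO.imp (FO.realize φ _) (FO.exFin fun r => FO.eq _ _)
  obtain ⟨χ, hχ⟩ := FO.all h1
  refine ⟨χ, fun M _ y z => ?_⟩
  rw [hχ]
  apply forall_congr'
  intro x
  have e1 : (fun q => Sum.elim (Sum.elim y z) x
      ((Sum.elim Sum.inr (fun l => Sum.inl (Sum.inl l)) :
        Fin p ⊕ Fin m → (Fin m ⊕ Zv m) ⊕ Fin p) q)) = Sum.elim x y := by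
    funext q
    rcases q with l | l <;> rfl
  have e2 : (Sum.elim (Sum.elim y z) x) ∘
      (Sum.elim Sum.inr (fun l => Sum.inl (Sum.inr l)) :
        Fin p ⊕ Zv m → (Fin m ⊕ Zv m) ⊕ Fin p) = Sum.elim x z := by
    funext q
    rcases q with l | l <;> rfl
  have e3 : (Sum.elim (Sum.elim y z) x) ∘
      (Sum.inl : Fin m ⊕ Zv m → (Fin m ⊕ Zv m) ⊕ Fin p) = Sum.elim y z := by
    funext q
    rcases q with l | l <;> rfl
  simp only [Term.realize_relabel, e1, e2, e3]

lemma countable_closure {P : Set 𝕄} (hP : P.Countable) :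
    ((Substructure.closure LL P : LL.Substructure 𝕄) : Set 𝕄).Countable := by
  have := Set.Countable.substructure_closure LL hP
  exact Set.countable_coe_iff.1 this

/-- Part 1: two realisations for the second column. -/
lemma part1 (hs : IsSaturated LL 𝕄 (ℵ_ 1))
    (A3 : ∀ i k, i < k → ¬ ∃ x : Fin p → 𝕄, φ.Realize (Sum.elim x (C i true)) ∧
        φ.Realize (Sum.elim x (C k true))) :
    ∃ b : Bool → Fin m → 𝕄, (∀ j, Lim (fun i => C i true) (Cs C) (b j)) ∧
      (∀ j, ∃ P, (Cs C : Set 𝕄) ⊆ P ∧ Lim (fun i => C i true) P (b j)) ∧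
      (¬ ∃ x : Fin p → 𝕄, φ.Realize (Sum.elim x (b false)) ∧ φ.Realize (Sum.elim x (b true))) ∧
      ∀ x, x ∈ Substructure.closure LL (Set.range (Sum.elim (b false) (full C))) →
        x ∈ Substructure.closure LL (Set.range (Sum.elim (b true) (full C))) → x ∈ Cs C := by
  have hc0 : (Cs C : Set 𝕄).Countable := countable_closure (Set.countable_range _)
  obtain ⟨b0, hb0⟩ := exists_lim hs (fun i => C i true) (Cs C) hc0
  let P1 : Set 𝕄 := (Substructure.closure LL (Set.range (Sum.elim b0 (full C))) :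
    LL.Substructure 𝕄)
  have hP1 : P1.Countable := countable_closure (Set.countable_range _)
  obtain ⟨b1, hb1⟩ := exists_lim hs (fun i => C i true) P1 hP1
  have hsub : (Cs C : Set 𝕄) ⊆ P1 := by
    apply Substructure.closure_mono
    rintro _ ⟨z, rfl⟩
    exact ⟨Sum.inr z, rfl⟩
  have hb0P : ∀ l, b0 l ∈ P1 := fun l => Substructure.subset_closure ⟨Sum.inl l, rfl⟩
  refine ⟨fun j => if j = true then b1 else b0, ?_, ?_, ?_, ?_⟩
  · rintro (_ | _)
    · exact hb0
    · exact fun γ χ c hc => hb1 γ χ c (fun l => hsub (hc l))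
  · rintro (_ | _)
    · exact ⟨_, subset_rfl, hb0⟩
    · exact ⟨_, hsub, hb1⟩
  · simp only [if_true, Bool.false_eq_true, if_false]
    rintro ⟨x, hx0, hx1⟩
    obtain ⟨χ, hχ⟩ := exists_joint.{w} φ Unit
    have h1 := hb1 (Unit × Fin m) χ (fun q => b0 q.2) (fun q => hb0P q.2)
    rw [hχ 𝕄 b1 (fun _ => b0)] at h1
    obtain ⟨i, hi⟩ := (h1.1 ⟨x, hx1, fun _ => hx0⟩).exists
    dsimp only at hi
    rw [hχ 𝕄 (C i true) (fun _ => b0)] at hi
    obtain ⟨x', hx1', hx0'⟩ := hi
    have h2 := hb0 (Unit × Fin m) χ (fun q => C i true q.2) (fun q => full_mem C (i, true, q.2))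
    rw [hχ 𝕄 b0 (fun _ => C i true)] at h2
    have h3 := h2.1 ⟨x', hx0' (), fun _ => hx1'⟩
    obtain ⟨k, hk, hik⟩ := (h3.and (hyper_of_atTop (Filter.eventually_gt_atTop i))).exists
    dsimp only at hk
    rw [hχ 𝕄 (C k true) (fun _ => C i true)] at hk
    obtain ⟨x'', h4, h5⟩ := hk
    exact A3 i k hik ⟨x'', h5 (), h4⟩
  · simp only [if_true, Bool.false_eq_true, if_false]
    intro x hx0 hx1
    obtain ⟨s, hs'⟩ := exists_term_of_mem_closure _ hx1
    exact L2 hsub hb1 hx0 s hs'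

/-- Part 2: a Morley sequence for the first column. -/
lemma part2 (hs : IsSaturated LL 𝕄 (ℵ_ 1))
    (A2 : ∀ n, ∃ x : Fin p → 𝕄, ∀ i < n, φ.Realize (Sum.elim x (C i false))) :
    ∃ b : ℕ → Fin m → 𝕄, (∀ k, Lim (fun i => C i false) (Cs C) (b k)) ∧
      (∀ k, ∃ x : Fin p → 𝕄, ∀ l < k, φ.Realize (Sum.elim x (b l))) ∧
      (∀ l k, l < k → ∀ x,
        x ∈ Substructure.closure LL (Set.range (Sum.elim (b l) (full C))) →
        x ∈ Substructure.closure LL (Set.range (Sum.elim (b k) (full C))) → x ∈ Cs C) := by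
  classical
  have hc0 : (Cs C : Set 𝕄).Countable := countable_closure (Set.countable_range _)
  choose bf hbf using fun P : {P : Set 𝕄 // P.Countable} =>
    exists_lim hs (fun i => C i false) P.1 P.2
  let nx : {P : Set 𝕄 // P.Countable} → {P : Set 𝕄 // P.Countable} := fun P =>
    ⟨(Substructure.closure LL (P.1 ∪ Set.range (bf P)) : LL.Substructure 𝕄),
      countable_closure (P.2.union (Set.countable_range _))⟩
  let Pk : ℕ → {P : Set 𝕄 // P.Countable} := fun n => Nat.rec ⟨_, hc0⟩ (fun _ P => nx P) n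
  have hPk : ∀ n, Pk (n + 1) = nx (Pk n) := fun n => rfl
  let b : ℕ → Fin m → 𝕄 := fun k => bf (Pk k)
  have hstep : ∀ n, (Pk n).1 ⊆ (Pk (n + 1)).1 := by
    intro n x hx
    rw [hPk]
    exact Substructure.subset_closure (Or.inl hx)
  have hmono : ∀ l k, l ≤ k → (Pk l).1 ⊆ (Pk k).1 := by
    intro l k hlk
    induction k, hlk using Nat.le_induction with
    | base => exact subset_rfl
    | succ k _ ih => exact ih.trans (hstep k)
  have hCs : ∀ k, (Cs C : Set 𝕄) ⊆ (Pk k).1 := fun k => hmono 0 k (Nat.zero_le _)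
  have hbmem : ∀ l k, l < k → ∀ q, b l q ∈ (Pk k).1 := by
    intro l k hlk q
    apply hmono (l + 1) k hlk
    rw [hPk]
    exact Substructure.subset_closure (Or.inr ⟨q, rfl⟩)
  have hcl : ∀ l k, l < k →
      ((Substructure.closure LL (Set.range (Sum.elim (b l) (full C))) : LL.Substructure 𝕄) :
        Set 𝕄) ⊆ (Pk k).1 := by
    intro l k hlk
    refine subset_trans ?_ (hmono (l + 1) k hlk)
    rw [hPk]
    apply Substructure.closure_mono
    rintro _ ⟨(q | z), rfl⟩
    · exact Or.inr ⟨q, rfl⟩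
    · exact Or.inl (hCs l (full_mem C z))
  have hlim : ∀ k, Lim (fun i => C i false) (Pk k).1 (b k) := fun k => hbf (Pk k)
  refine ⟨b, fun k γ χ c hc => hlim k γ χ c (fun l => hCs k (hc l)), ?_, ?_⟩
  · have key : ∀ k n, ∃ x : Fin p → 𝕄, (∀ l < k, φ.Realize (Sum.elim x (b l))) ∧
        ∀ i < n, φ.Realize (Sum.elim x (C i false)) := by
      intro k
      induction k with
      | zero =>
        intro n
        obtain ⟨x, hx⟩ := A2 n
        exact ⟨x, fun l hl => absurd hl (Nat.not_lt_zero _), hx⟩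
      | succ k ih =>
        intro n
        obtain ⟨χ, hχ⟩ := exists_joint.{w} φ (Fin k ⊕ Fin n)
        let d : Fin k ⊕ Fin n → Fin m → 𝕄 := Sum.elim (fun l => b l) (fun i => C i false)
        have h1 := hlim k ((Fin k ⊕ Fin n) × Fin m) χ (fun q => d q.1 q.2) (by
          rintro ⟨(l | i), q⟩
          · exact hbmem l k l.2 q
          · exact hCs k (full_mem C (i, false, q)))
        rw [hχ] at h1
        have h2 : ∀ᶠ i in (hyperfilter ℕ : Filter ℕ),
            χ.Realize (Sum.elim (C i false) (fun q => d q.1 q.2)) := by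
          refine Filter.Eventually.of_forall fun i => ?_
          rw [hχ]
          obtain ⟨x, hx1, hx2⟩ := ih (max n (i + 1))
          refine ⟨x, hx2 i (by omega), ?_⟩
          rintro (l | j)
          · exact hx1 l l.2
          · exact hx2 j (by omega)
        obtain ⟨x, hx1, hx2⟩ := h1.2 h2
        refine ⟨x, fun l hl => ?_, fun i hi => hx2 (Sum.inr ⟨i, hi⟩)⟩
        rcases Nat.lt_succ_iff_lt_or_eq.1 hl with hl | rfl
        · exact hx2 (Sum.inl ⟨l, hl⟩)
        · exact hx1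
    intro k
    obtain ⟨x, hx, -⟩ := key k 0
    exact ⟨x, hx⟩
  · intro l k hlk x hxl hxk
    obtain ⟨s, hs'⟩ := exists_term_of_mem_closure _ hxk
    exact L2 (hCs k) (hlim k) (hcl l k hlk hxl) s hs'

end sop

end Pool.Agent.MP568911
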