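import Pool.Agent.Lib.MP_568911_lc.Indep
import Pool.Agent.Lib.MP_568911_lc.Sop

/-!
# Imaginaries: basic facts
-/

namespace Pool.Agent.MP568911
open FirstOrder FirstOrder.Language Function Cardinal
universe u v w

section basic
variable {L : FirstOrder.Language.{0, 0}} {𝕄 : Type w} [L.Structure 𝕄]

lemma Imag.mk_eq_iff (s : ESort L 𝕄) (v v' : Fin s.n → 𝕄) :
    Imag.mk s v = Imag.mk s v' ↔ s.E.Realize (Sum.elim v v') := by
  unfold Imag.mk
  constructor
  · intro h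
    have h1 := eq_of_heq (Sigma.mk.inj h).2
    exact Quotient.exact h1
  · intro h
    have : Quotient.mk s.setoid v = Quotient.mk s.setoid v' := Quotient.sound h
    rw [this]

lemma Imag.sort_eq {s s' : ESort L 𝕄} {v : Fin s.n → 𝕄} {v' : Fin s'.n → 𝕄}
    (h : Imag.mk s v = Imag.mk s' v') : s = s' := (Sigma.mk.inj h).1

lemma Imag.exists_rep (e : Imag L 𝕄) : ∃ (s : ESort L 𝕄) (v : Fin s.n → 𝕄), e = Imag.mk s v := by
  obtain ⟨s, q⟩ := e
  induction q using Quotient.inductionOn with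
  | h v => exact ⟨s, v, rfl⟩

/-- The sort of real elements. -/
def realSort (L : FirstOrder.Language.{0, 0}) (𝕄 : Type w) [L.Structure 𝕄] : ESort L 𝕄 where
  n := 1
  E := (Term.var (Sum.inl 0)).equal (Term.var (Sum.inr 0))
  equiv := by
    refine ⟨fun v => ?_, fun h => ?_, fun h h' => ?_⟩
    · rw [Formula.realize_equal]
      rfl
    · rw [Formula.realize_equal] at h ⊢
      exact h.symm
    · rw [Formula.realize_equal] at h h' ⊢
      exact h.trans h'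

/-- Real elements as imaginaries. -/
def re (L : FirstOrder.Language.{0, 0}) {𝕄 : Type w} [L.Structure 𝕄] (x : 𝕄) : Imag L 𝕄 :=
  Imag.mk (realSort L 𝕄) (fun _ => x)

lemma re_eq_mk (x : 𝕄) (v : Fin 1 → 𝕄) : re L x = Imag.mk (realSort L 𝕄) v ↔ x = v 0 := by
  unfold re
  rw [Imag.mk_eq_iff]
  change ((Term.var (Sum.inl 0) : L.Term (Fin 1 ⊕ Fin 1)).equal
    (Term.var (Sum.inr 0))).Realize _ ↔ _
  rw [Formula.realize_equal]
  rfl

lemma re_injective : Injective (re L : 𝕄 → Imag L 𝕄) := by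
  intro x y h
  exact (re_eq_mk x (fun _ => y)).1 h

lemma re_mem_eqOf {M : Set 𝕄} {x : 𝕄} (hx : x ∈ M) : re L x ∈ eqOf (L := L) M :=
  ⟨realSort L 𝕄, fun _ => x, fun _ => hx, rfl⟩

lemma EqFormula.sort_of_realize {α : Type} {φ : EqFormula L 𝕄 α} {s : α → ESort L 𝕄}
    {v : ∀ i, Fin (s i).n → 𝕄} (h : φ.Realize (fun i => Imag.mk (s i) (v i))) : φ.sort = s := by
  obtain ⟨v', h1, -⟩ := h
  funext i
  exact (Imag.sort_eq (h1 i)).symm

/-- pulling back a formula of `𝕄^eq` to the real sort -/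
lemma EqFormula.exists_pull {α : Type} [Finite α] (s : α → ESort L 𝕄)
    (body : L.Formula (Σ i, Fin (s i).n)) :
    ∃ ψ : L.Formula (Σ i, Fin (s i).n), ∀ v : ∀ i, Fin (s i).n → 𝕄,
      (EqFormula.mk s body).Realize (fun i => Imag.mk (s i) (v i)) ↔
        ψ.Realize (fun p => v p.1 p.2) := by
  let S := Σ i, Fin (s i).n
  have hfo : FO.{w} L (S ⊕ S) (fun M _ v =>
      (∀ i, (s i).E.Realize (fun q => v ((Sum.elim (fun l => Sum.inl ⟨i, l⟩)
        (fun l => Sum.inr ⟨i, l⟩) : Fin (s i).n ⊕ Fin (s i).n → S ⊕ S) q))) ∧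
      body.Realize (fun q => v (Sum.inr q))) :=
    FO.and (FO.allFin fun i => FO.realize _ _) (FO.realize _ _)
  obtain ⟨ψ, hψ⟩ := FO.ex hfo
  refine ⟨ψ, fun v => ?_⟩
  rw [hψ]
  have e1 : ∀ (i) (u : S → 𝕄), (fun q => Sum.elim (fun p : S => v p.1 p.2) u
      ((Sum.elim (fun l => Sum.inl ⟨i, l⟩)
        (fun l => Sum.inr ⟨i, l⟩) : Fin (s i).n ⊕ Fin (s i).n → S ⊕ S) q)) =
      Sum.elim (v i) (fun l => u ⟨i, l⟩) := by
    intro i u
    funext q
    rcases q with l | l <;> rfl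
  constructor
  · rintro ⟨v', h1, h2⟩
    refine ⟨fun p => v' p.1 p.2, fun i => ?_, h2⟩
    rw [e1]
    exact (Imag.mk_eq_iff _ _ _).1 (h1 i)
  · rintro ⟨u, h1, h2⟩
    refine ⟨fun i l => u ⟨i, l⟩, fun i => ?_, h2⟩
    have := h1 i
    rw [e1] at this
    exact (Imag.mk_eq_iff _ _ _).2 this

end basic

section elem
variable {𝕄 : Type w} [LL.Structure 𝕄]

/-- Partial isomorphisms are elementary on imaginaries. -/
theorem elem_imag {κ : Cardinal.{w}} (hκ : ℵ₀ < κ) (hM : IsT 𝕄) (hs : IsSaturated LL 𝕄 κ)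
    {C : Type w} [LL.Structure C] [Nonempty C] (hC : #C < κ) (p q : C ↪[LL] 𝕄)
    {α : Type} [Finite α] (φ : EqFormula LL 𝕄 α) (s : α → ESort LL 𝕄)
    (v : ∀ i, Fin (s i).n → C) :
    φ.Realize (fun i => Imag.mk (s i) (fun l => p (v i l))) ↔
      φ.Realize (fun i => Imag.mk (s i) (fun l => q (v i l))) := by
  by_cases h : φ.sort = s
  · obtain ⟨s', body⟩ := φ
    subst h
    obtain ⟨ψ, hψ⟩ := EqFormula.exists_pull s' body
    rw [hψ, hψ]
    exact qe hκ hM hM hs hs ψ hC p q (fun z : Σ i, Fin (s' i).n => v z.1 z.2)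
  · exact ⟨fun h' => absurd (EqFormula.sort_of_realize h') h,
      fun h' => absurd (EqFormula.sort_of_realize h') h⟩

/-- `p ∘ q⁻¹` maps `e` to `e'`. -/
def Moves {C : Type w} (p q : C → 𝕄) (e e' : Imag LL 𝕄) : Prop :=
  ∃ (s : ESort LL 𝕄) (v : Fin s.n → C), e = Imag.mk s (fun l => p (v l)) ∧
    e' = Imag.mk s (fun l => q (v l))

theorem elem_moves {κ : Cardinal.{w}} (hκ : ℵ₀ < κ) (hM : IsT 𝕄) (hs : IsSaturated LL 𝕄 κ)
    {C : Type w} [LL.Structure C] [Nonempty C] (hC : #C < κ) (p q : C ↪[LL] 𝕄)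
    {α : Type} [Finite α] (φ : EqFormula LL 𝕄 α) (a a' : α → Imag LL 𝕄)
    (h : ∀ i, Moves p q (a i) (a' i)) : φ.Realize a ↔ φ.Realize a' := by
  choose s v h1 h2 using h
  have e1 : a = fun i => Imag.mk (s i) (fun l => p (v i l)) := funext h1
  have e2 : a' = fun i => Imag.mk (s i) (fun l => q (v i l)) := funext h2
  rw [e1, e2]
  exact elem_imag hκ hM hs hC p q φ s v

theorem sameType_of_moves {κ : Cardinal.{w}} (hκ : ℵ₀ < κ) (hM : IsT 𝕄)
    (hs : IsSaturated LL 𝕄 κ) {C : Type w} [LL.Structure C] [Nonempty C] (hC : #C < κ)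
    (p q : C ↪[LL] 𝕄) {α : Type} [Finite α] (a a' : α → Imag LL 𝕄)
    (h : ∀ i, Moves p q (a i) (a' i)) (S : Set (Imag LL 𝕄)) (hS : ∀ e ∈ S, Moves p q e e) :
    SameType S a a' := by
  intro γ _ φ c hc
  apply elem_moves hκ hM hs hC p q
  rintro (i | j)
  · exact h i
  · exact hS _ (hc j)

lemma moves_eqOf {C : Type w} {p q : C → 𝕄} {M : Set 𝕄} (h : ∀ x ∈ M, ∃ c, p c = x ∧ q c = x) :
    ∀ e ∈ eqOf (L := LL) M, Moves p q e e := by
  rintro e ⟨s, v, hv, rfl⟩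
  choose c hc1 hc2 using fun j => h (v j) (hv j)
  exact ⟨s, c, by simp only [hc1], by simp only [hc2]⟩

end elem

end Pool.Agent.MP568911
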