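import Mathlib

/-!
# Minimal transversals
-/

namespace Pool.Agent.MP568911
open Function
universe w

/-- transversals of size `m` (as tuples) of a family of `r`-tuples -/
def Tr {A : Type w} {r : ℕ} (D : Set (Fin r → A)) (m : ℕ) : Set (Fin m → A) :=
  {t | ∀ d ∈ D, ∃ i l, d i = t l}

theorem tr_finite {A : Type w} {r : ℕ} (m : ℕ) : ∀ (D : Set (Fin r → A)),
    (∀ j < m, Tr D j = ∅) → (Tr D m).Finite := by
  induction m with
  | zero => intro D _; exact Set.toFinite _
  | succ m ih =>
    intro D hD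
    have h0 := hD 0 (Nat.succ_pos m)
    have : ∃ d0, d0 ∈ D := by
      by_contra hcon
      push Not at hcon
      have : (fun i : Fin 0 => i.elim0 : Fin 0 → A) ∈ Tr D 0 := fun d hd => absurd hd (hcon d)
      rw [h0] at this
      exact this
    obtain ⟨d0, hd0⟩ := this
    let Di : Fin r → Set (Fin r → A) := fun i => {d ∈ D | ∀ k, d k ≠ d0 i}
    have hDi : ∀ i, (Tr (Di i) m).Finite := by
      intro i
      apply ih
      intro j hj
      rw [Set.eq_empty_iff_forall_notMem]
      intro t ht
      have : (Fin.cons (d0 i) t : Fin (j + 1) → A) ∈ Tr D (j + 1) := by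
        intro d hd
        by_cases h : ∀ k, d k ≠ d0 i
        · obtain ⟨k, l, hkl⟩ := ht d ⟨hd, h⟩
          exact ⟨k, l.succ, by simpa using hkl⟩
        · push Not at h
          obtain ⟨k, hk⟩ := h
          exact ⟨k, 0, by simpa using hk⟩
      rw [hD (j + 1) (Nat.succ_lt_succ hj)] at this
      exact this
    have hsub : Tr D (m + 1) ⊆ ⋃ i : Fin r, ⋃ l : Fin (m + 1),
        (fun t : Fin m → A => (Fin.insertNth l (d0 i) t : Fin (m + 1) → A)) '' (Tr (Di i) m) := by
      intro t ht
      obtain ⟨i, l, hil⟩ := ht d0 hd0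
      simp only [Set.mem_iUnion]
      refine ⟨i, l, fun k => t (l.succAbove k), ?_, ?_⟩
      · rintro d ⟨hd, hd'⟩
        obtain ⟨k, l', hkl⟩ := ht d hd
        rcases Fin.eq_self_or_eq_succAbove l l' with h | ⟨l'', h⟩
        · exfalso
          apply hd' k
          rw [hkl, hil, h]
        · exact ⟨k, l'', by rw [hkl, h]⟩
      · dsimp only
        rw [hil]
        exact Fin.insertNth_self_removeNth l t
    refine Set.Finite.subset ?_ hsub
    exact Set.finite_iUnion fun i => Set.finite_iUnion fun l => (hDi i).image _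

/-- If every tuple in a nonempty family `D` meets the finite set `G`, then for some `m` the set of
transversals of size `m` is finite and nonempty, and `0 < m`. -/
theorem exists_min_transversal {A : Type w} {r : ℕ} (D : Set (Fin r → A)) (hD : D.Nonempty)
    (G : Set A) (hG : G.Finite) (h : ∀ d ∈ D, ∃ i, d i ∈ G) :
    ∃ m, 0 < m ∧ (Tr D m).Nonempty ∧ (Tr D m).Finite := by
  classical
  have hex : ∃ m, (Tr D m).Nonempty := by
    obtain ⟨n, f, hf⟩ : ∃ n, ∃ f : Fin n → A, Set.range f = G := by
      obtain ⟨n, f, -, hf⟩ := hG.fin_param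
      exact ⟨n, f, hf⟩
    refine ⟨n, f, fun d hd => ?_⟩
    obtain ⟨i, hi⟩ := h d hd
    rw [← hf] at hi
    obtain ⟨l, hl⟩ := hi
    exact ⟨i, l, hl.symm⟩
  refine ⟨Nat.find hex, ?_, Nat.find_spec hex, ?_⟩
  · rw [Nat.pos_iff_ne_zero]
    intro h0
    have h1 := Nat.find_spec hex
    obtain ⟨t, ht⟩ := h1
    obtain ⟨d, hd⟩ := hD
    obtain ⟨i, l, -⟩ := ht d hd
    rw [h0] at l
    exact l.elim0
  · apply tr_finite
    intro j hj
    exact Set.not_nonempty_iff_eq_empty.1 (Nat.find_min hex hj)

end Pool.Agent.MP568911
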