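import Pool.Agent.Lib.MP_568911_lc.Imag
import Pool.Agent.Lib.MP_568911_lc.Transv

/-!
# Moving covers of imaginaries
-/

namespace Pool.Agent.MP568911
open FirstOrder FirstOrder.Language Function Cardinal
universe u v w

section cond
variable {𝕄 : Type w} [LL.Structure 𝕄] {Z : Type w}

/-- A condition on maps `Z → 𝕄` which is definable with parameters in `P`. -/
def DefCond (P : Set 𝕄) (Cnd : (Z → 𝕄) → Prop) : Prop :=
  ∃ χ : LL.Formula (Z ⊕ P), ∀ j : Z → 𝕄, χ.Realize (Sum.elim j (fun p : P => (p : 𝕄))) ↔ Cnd j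

lemma DefCond.mono {P P' : Set 𝕄} (h : P ⊆ P') {Cnd : (Z → 𝕄) → Prop} (hC : DefCond P Cnd) :
    DefCond P' Cnd := by
  obtain ⟨χ, hχ⟩ := hC
  refine ⟨χ.relabel (Sum.map id (Set.inclusion h)), fun j => ?_⟩
  rw [Formula.realize_relabel, ← hχ]
  have : Sum.elim j (fun p : P' => (p : 𝕄)) ∘ Sum.map id (Set.inclusion h) =
      Sum.elim j (fun p : P => (p : 𝕄)) := by
    funext q
    rcases q with z | p <;> rfl
  rw [this]

lemma DefCond.finite {P : Set 𝕄} {ι : Type*} [Finite ι] {Cnd : ι → (Z → 𝕄) → Prop}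
    (h : ∀ i, DefCond P (Cnd i)) : DefCond P (fun j => ∀ i, Cnd i j) := by
  choose χ hχ using h
  refine ⟨Formula.iInf χ, fun j => ?_⟩
  rw [Formula.realize_iInf]
  simp only [hχ]

/-- Saturation, semantically. -/
theorem sat_cond {κ : Cardinal.{w}} (hs : IsSaturated LL 𝕄 κ) (hZ : #Z < κ) (P : Set 𝕄)
    (hP : #P < κ) {I : Type*} (Cnd : I → (Z → 𝕄) → Prop) (hC : ∀ i, DefCond P (Cnd i))
    (hfin : ∀ I0 : Finset I, ∃ j, ∀ i ∈ I0, Cnd i j) : ∃ j, ∀ i, Cnd i j := by
  classical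
  choose χ hχ using hC
  obtain ⟨j, hj⟩ := hs Z P hZ hP (Set.range χ) (by
    intro Γ₀ h1 h2
    rcases isEmpty_or_nonempty I with hI | hI
    · obtain ⟨j, -⟩ := hfin ∅
      refine ⟨j, fun φ hφ => ?_⟩
      obtain ⟨i, -⟩ := h1 hφ
      exact hI.elim i
    have h1' : ∀ φ ∈ Γ₀, ∃ i, χ i = φ := fun φ hφ => h1 hφ
    choose! g hg using h1'
    obtain ⟨j, hj⟩ := hfin (h2.toFinset.image g)
    refine ⟨j, fun φ hφ => ?_⟩
    have h3 := hj (g φ) (Finset.mem_image_of_mem _ (h2.mem_toFinset.2 hφ))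
    rw [← hχ, hg φ hφ] at h3
    exact h3)
  exact ⟨j, fun i => (hχ i j).1 (hj _ ⟨i, rfl⟩)⟩

/-- Indices for the conditions describing an embedding. -/
inductive EmbIdx (Z : Type w) : Type w
  | base (z : Z)
  | ne (z z' : Z)
  | ep (c : Bool) (z : Z)
  | gg (n : ℕ) (s : Fin (n + 2)) (z z' : Z)

/-- The conditions describing an embedding which agrees with `p` at the points mapped to `M`. -/
def embCond [LL.Structure Z] (p : Z → 𝕄) (M : Set 𝕄) : EmbIdx Z → (Z → 𝕄) → Prop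
  | .base z, j => p z ∈ M → j z = p z
  | .ne z z', j => z ≠ z' → j z ≠ j z'
  | .ep c z, j => ep c (j z) = j (ep c z)
  | .gg n s z z', j => gg n s (j z) (j z') = j (gg n s z z')

lemma embCond_def [LL.Structure Z] (p : Z → 𝕄) (M : Set 𝕄) (i : EmbIdx Z) :
    DefCond M (embCond p M i) := by
  cases i with
  | base z =>
    by_cases h : p z ∈ M
    · refine ⟨(Term.var (Sum.inl z)).equal (Term.var (Sum.inr ⟨p z, h⟩)), fun j => ?_⟩
      rw [Formula.realize_equal]
      simp [embCond, h]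
    · exact ⟨⊤, fun j => by simp [embCond, h]⟩
  | ne z z' =>
    by_cases h : z = z'
    · exact ⟨⊤, fun j => by simp [embCond, h]⟩
    · refine ⟨∼((Term.var (Sum.inl z)).equal (Term.var (Sum.inl z'))), fun j => ?_⟩
      rw [Formula.realize_not, Formula.realize_equal]
      simp [embCond, h]
  | ep c z =>
    refine ⟨(epT c (Term.var (Sum.inl z))).equal (Term.var (Sum.inl (ep c z))), fun j => ?_⟩
    rw [Formula.realize_equal]
    simp [embCond]
  | gg n s z z' =>
    refine ⟨(ggT n s (Term.var (Sum.inl z)) (Term.var (Sum.inl z'))).equal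
      (Term.var (Sum.inl (gg n s z z'))), fun j => ?_⟩
    rw [Formula.realize_equal]
    simp [embCond]

lemma embCond_self [LL.Structure Z] (p : Z ↪[LL] 𝕄) (M : Set 𝕄) (i : EmbIdx Z) :
    embCond p M i p := by
  cases i with
  | base z => exact fun _ => rfl
  | ne z z' => exact fun h h' => h (p.injective h')
  | ep c z => exact (map_ep p c z).symm
  | gg n s z z' => exact (map_gg p n s z z').symm

lemma exists_emb_of_embCond [LL.Structure Z] {p : Z → 𝕄} {M : Set 𝕄} {j : Z → 𝕄}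
    (h : ∀ i, embCond p M i j) :
    ∃ q : Z ↪[LL] 𝕄, (∀ z, q z = j z) ∧ ∀ z, p z ∈ M → q z = p z :=
  ⟨mkEmb j (fun z z' hzz => by
      by_contra hne
      exact h (.ne z z') hne hzz) (fun z => (h (.ep true z)).symm)
      (fun z => (h (.ep false z)).symm) (fun n s z z' => (h (.gg n s z z')).symm),
    fun _ => rfl, fun z hz => h (.base z) hz⟩

/-- Formulas have finite support. -/
lemma formula_support {L : FirstOrder.Language.{0, 0}} {α : Type*} (χ : L.Formula α) :
    ∃ (k : ℕ) (f : Fin k → α) (χ' : L.Formula (Fin k)), ∀ (M : Type w) [L.Structure M]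
      (v : α → M), χ.Realize v ↔ χ'.Realize (fun x => v (f x)) := by
  classical
  let F := BoundedFormula.freeVarFinset χ
  let e := F.equivFin
  refine ⟨F.card, fun x => (e.symm x : α), BoundedFormula.restrictFreeVar χ (fun a => e a), ?_⟩
  intro M _ v
  have := BoundedFormula.realize_restrictFreeVar (φ := χ) (f := fun a => e a)
    (v := fun x => v (e.symm x : α)) (xs := (default : Fin 0 → M)) v (by
      intro a
      rw [Equiv.symm_apply_apply])
  exact this.symm

end cond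

section def_
variable {𝕄 : Type w} [LL.Structure 𝕄] {Z : Type w}

/-- The set of values at `zz` of the maps satisfying `Cnd` and representing a given imaginary. -/
theorem exists_def {M : Set 𝕄} (hMne : M.Nonempty) {Cnd : (Z → 𝕄) → Prop} (hC : DefCond M Cnd)
    {α : Type} [Finite α] (s : α → ESort LL 𝕄) (v : ∀ i, Fin (s i).n → Z) {r : ℕ}
    (zz : Fin r → Z) :
    ∃ (k : ℕ) (c : Fin k → 𝕄) (δ : LL.Formula (Fin r ⊕ ((Σ i, Fin (s i).n) ⊕ Fin k))),
      (∀ x, c x ∈ M) ∧ ∀ (d : Fin r → 𝕄) (y : ∀ i, Fin (s i).n → 𝕄),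
        δ.Realize (Sum.elim d (Sum.elim (fun q => y q.1 q.2) c)) ↔
          ∃ j : Z → 𝕄, Cnd j ∧ (∀ i, Imag.mk (s i) (y i) = Imag.mk (s i) (fun l => j (v i l))) ∧
            ∀ l, d l = j (zz l) := by
  classical
  obtain ⟨m0, hm0⟩ := hMne
  obtain ⟨χ, hχ⟩ := hC
  obtain ⟨k, f, χ', hχ'⟩ := formula_support.{w} χ
  let S := Σ i, Fin (s i).n
  let c : Fin k → 𝕄 := fun x => Sum.elim (fun _ => m0) (fun p : M => (p : 𝕄)) (f x)
  have hc : ∀ x, c x ∈ M := by
    intro x
    simp only [c]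
    rcases f x with z | p
    · exact hm0
    · exact p.2
  let g : (S ⊕ Fin k) ⊕ Fin r → Z ⊕ M := Sum.elim (Sum.elim (fun q => Sum.inl (v q.1 q.2)) f)
    (fun l => Sum.inl (zz l))
  let W := Fin r ⊕ (S ⊕ Fin k)
  have hfo : FO.{w} LL (W ⊕ ((S ⊕ Fin k) ⊕ Fin r)) (fun _ _ u =>
      χ'.Realize (fun x => u (Sum.inr (Sum.inl (Sum.inr x)))) ∧
      ((∀ q q', g q = g q' → u (Sum.inr q) = u (Sum.inr q')) ∧
      ((∀ x, (∃ m : M, f x = Sum.inr m) →
        u (Sum.inr (Sum.inl (Sum.inr x))) = u (Sum.inl (Sum.inr (Sum.inr x)))) ∧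
      ((∀ i, (s i).E.Realize (fun q => u ((Sum.elim
          (fun l => Sum.inl (Sum.inr (Sum.inl ⟨i, l⟩)))
          (fun l => Sum.inr (Sum.inl (Sum.inl ⟨i, l⟩))) :
          Fin (s i).n ⊕ Fin (s i).n → W ⊕ ((S ⊕ Fin k) ⊕ Fin r)) q))) ∧
      (∀ l, u (Sum.inl (Sum.inl l)) = u (Sum.inr (Sum.inr l))))))) := by
    refine FO.and (FO.realize χ' (fun x => Sum.inr (Sum.inl (Sum.inr x)))) (FO.and ?_
      (FO.and ?_ (FO.and ?_ ?_)))
    · refine FO.allFin fun q => FO.allFin fun q' => FO.impConst fun _ => ?_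
      exact (FO.eq (Term.var (Sum.inr q)) (Term.var (Sum.inr q'))).congr fun M _ v => by simp
    · refine FO.allFin fun x => FO.impConst fun _ => ?_
      exact (FO.eq (Term.var (Sum.inr (Sum.inl (Sum.inr x))))
        (Term.var (Sum.inl (Sum.inr (Sum.inr x))))).congr fun M _ v => by simp
    · exact FO.allFin fun i => FO.realize _ _
    · refine FO.allFin fun l => ?_
      exact (FO.eq (Term.var (Sum.inl (Sum.inl l))) (Term.var (Sum.inr (Sum.inr l)))).congr
        fun M _ v => by simp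
  obtain ⟨δ, hδ⟩ := FO.ex hfo
  refine ⟨k, c, δ, hc, fun d y => ?_⟩
  rw [hδ]
  have e1 : ∀ (i) (u : (S ⊕ Fin k) ⊕ Fin r → 𝕄),
      (fun q => Sum.elim (Sum.elim d (Sum.elim (fun q : S => y q.1 q.2) c)) u ((Sum.elim
          (fun l => Sum.inl (Sum.inr (Sum.inl ⟨i, l⟩)))
          (fun l => Sum.inr (Sum.inl (Sum.inl ⟨i, l⟩))) :
          Fin (s i).n ⊕ Fin (s i).n → W ⊕ ((S ⊕ Fin k) ⊕ Fin r)) q)) =
      Sum.elim (y i) (fun l => u (Sum.inl (Sum.inl ⟨i, l⟩))) := by
    intro i u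
    funext q
    rcases q with l | l <;> rfl
  constructor
  · rintro ⟨u, h1, h2, h3, h4, h5⟩
    replace h4 : ∀ i, (s i).E.Realize (Sum.elim (y i) (fun l => u (Sum.inl (Sum.inl ⟨i, l⟩)))) := by
      intro i
      rw [← e1]
      exact h4 i
    replace h1 : χ'.Realize (fun x => u (Sum.inl (Sum.inr x))) := h1
    replace h2 : ∀ q q', g q = g q' → u q = u q' := h2
    replace h3 : ∀ x, (∃ m : M, f x = Sum.inr m) → u (Sum.inl (Sum.inr x)) = c x := h3
    replace h5 : ∀ l, d l = u (Sum.inr l) := h5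
    let j : Z → 𝕄 := fun z => if h : ∃ q, g q = Sum.inl z then u h.choose else m0
    have hj : ∀ q z, g q = Sum.inl z → j z = u q := by
      intro q z hq
      have hex : ∃ q, g q = Sum.inl z := ⟨q, hq⟩
      simp only [j, dif_pos hex]
      apply h2
      rw [hex.choose_spec, hq]
    refine ⟨j, ?_, fun i => ?_, fun l => ?_⟩
    · rw [← hχ, hχ' 𝕄]
      have : (fun x => Sum.elim j (fun p : M => (p : 𝕄)) (f x)) =
          fun x => u (Sum.inl (Sum.inr x)) := by
        funext x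
        rcases hfx : f x with z | p
        · exact hj (Sum.inl (Sum.inr x)) z hfx
        · rw [h3 x ⟨p, hfx⟩]
          simp only [c, hfx]
          rfl
      rw [this]
      exact h1
    · rw [Imag.mk_eq_iff]
      have := h4 i
      have e2 : (fun l => j (v i l)) = fun l => u (Sum.inl (Sum.inl ⟨i, l⟩)) := by
        funext l
        exact hj (Sum.inl (Sum.inl ⟨i, l⟩)) _ rfl
      rw [e2]
      exact this
    · rw [h5 l]
      exact (hj (Sum.inr l) _ rfl).symm
  · rintro ⟨j, h1, h2, h3⟩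
    refine ⟨fun q => Sum.elim j (fun p : M => (p : 𝕄)) (g q), ?_, ?_, ?_, ?_, ?_⟩
    · rw [← hχ, hχ' 𝕄] at h1
      exact h1
    · intro q q' hq
      change Sum.elim j (fun p : M => (p : 𝕄)) (g q) = Sum.elim j (fun p : M => (p : 𝕄)) (g q')
      rw [hq]
    · rintro x ⟨m, hm⟩
      change Sum.elim j (fun p : M => (p : 𝕄)) (f x) =
        Sum.elim (fun _ => m0) (fun p : M => (p : 𝕄)) (f x)
      rw [hm]
      rfl
    · intro i
      rw [e1]
      exact (Imag.mk_eq_iff _ _ _).1 (h2 i)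
    · intro l
      exact h3 l

/-- building formulas of `𝕄^eq` with real parameters -/
def mkEq {α : Type} (s : α → ESort LL 𝕄) (k : ℕ)
    (ψ : LL.Formula ((Σ i, Fin (s i).n) ⊕ Fin k)) : EqFormula LL 𝕄 (α ⊕ Fin k) where
  sort := Sum.elim s (fun _ => realSort LL 𝕄)
  body := ψ.relabel (Sum.elim (fun q => ⟨Sum.inl q.1, q.2⟩) (fun x => ⟨Sum.inr x, (0 : Fin 1)⟩))

lemma mkEq_realize {α : Type} (s : α → ESort LL 𝕄) (k : ℕ)
    (ψ : LL.Formula ((Σ i, Fin (s i).n) ⊕ Fin k)) (b : α → Imag LL 𝕄) (c : Fin k → 𝕄) :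
    (mkEq s k ψ).Realize (Sum.elim b (fun x => re LL (c x))) ↔
      ∃ y : ∀ i, Fin (s i).n → 𝕄, (∀ i, b i = Imag.mk (s i) (y i)) ∧
        ψ.Realize (Sum.elim (fun q => y q.1 q.2) c) := by
  constructor
  · rintro ⟨v, h1, h2⟩
    refine ⟨fun i => v (Sum.inl i), fun i => h1 (Sum.inl i), ?_⟩
    have h3 : ∀ x, c x = v (Sum.inr x) (0 : Fin 1) := fun x => (re_eq_mk _ _).1 (h1 (Sum.inr x))
    unfold mkEq at h2
    simp only at h2
    rw [Formula.realize_relabel] at h2
    have e : (Sum.elim (fun q : Σ i, Fin (s i).n => v (Sum.inl q.1) q.2) c) =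
        (fun p : Σ i, Fin ((Sum.elim s (fun _ : Fin k => realSort LL 𝕄)) i).n => v p.1 p.2) ∘
        (Sum.elim (fun q => ⟨Sum.inl q.1, q.2⟩) (fun x => ⟨Sum.inr x, (0 : Fin 1)⟩)) := by
      funext q
      rcases q with q | x
      · rfl
      · exact h3 x
    rw [e]
    exact h2
  · rintro ⟨y, h1, h2⟩
    refine ⟨fun i => match i with
      | Sum.inl i => y i
      | Sum.inr x => fun _ => c x, ?_, ?_⟩
    · rintro (i | x)
      · exact h1 i
      · rfl
    · unfold mkEq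
      simp only
      rw [Formula.realize_relabel]
      have e : (Sum.elim (fun q : Σ i, Fin (s i).n => y q.1 q.2) c) =
          (fun p : Σ i, Fin ((Sum.elim s (fun _ : Fin k => realSort LL 𝕄)) i).n =>
            (match p.1 with
              | Sum.inl i => y i
              | Sum.inr x => fun _ => c x :
              Fin ((Sum.elim s (fun _ : Fin k => realSort LL 𝕄)) p.1).n → 𝕄) p.2) ∘
          (Sum.elim (fun q => ⟨Sum.inl q.1, q.2⟩) (fun x => ⟨Sum.inr x, (0 : Fin 1)⟩)) := by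
        funext q
        rcases q with q | x <;> rfl
      rw [e] at h2
      exact h2

/-- building formulas of `𝕄^eq` with real parameters and one real variable -/
def mkEq2 {α : Type} (s : α → ESort LL 𝕄) (k : ℕ)
    (ψ : LL.Formula (Unit ⊕ ((Σ i, Fin (s i).n) ⊕ Fin k))) :
    EqFormula LL 𝕄 (Unit ⊕ (α ⊕ Fin k)) where
  sort := Sum.elim (fun _ => realSort LL 𝕄) (Sum.elim s (fun _ => realSort LL 𝕄))
  body := ψ.relabel (Sum.elim (fun _ => ⟨Sum.inl (), (0 : Fin 1)⟩)
    (Sum.elim (fun q => ⟨Sum.inr (Sum.inl q.1), q.2⟩)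
      (fun x => ⟨Sum.inr (Sum.inr x), (0 : Fin 1)⟩)))

lemma mkEq2_realize {α : Type} (s : α → ESort LL 𝕄) (k : ℕ)
    (ψ : LL.Formula (Unit ⊕ ((Σ i, Fin (s i).n) ⊕ Fin k))) (e : Imag LL 𝕄) (b : α → Imag LL 𝕄)
    (c : Fin k → 𝕄) :
    (mkEq2 s k ψ).Realize (Sum.elim (fun _ => e) (Sum.elim b (fun x => re LL (c x)))) ↔
      ∃ u : 𝕄, e = re LL u ∧ ∃ y : ∀ i, Fin (s i).n → 𝕄, (∀ i, b i = Imag.mk (s i) (y i)) ∧
        ψ.Realize (Sum.elim (fun _ => u) (Sum.elim (fun q => y q.1 q.2) c)) := by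
  constructor
  · rintro ⟨v, h1, h2⟩
    have h4 := h1 (Sum.inl ())
    refine ⟨v (Sum.inl ()) (0 : Fin 1), ?_, fun i => v (Sum.inr (Sum.inl i)),
      fun i => h1 (Sum.inr (Sum.inl i)), ?_⟩
    · rw [Sum.elim_inl] at h4
      rw [h4]
      exact ((re_eq_mk _ _).2 rfl).symm
    have h3 : ∀ x, c x = v (Sum.inr (Sum.inr x)) (0 : Fin 1) := fun x =>
      (re_eq_mk _ _).1 (h1 (Sum.inr (Sum.inr x)))
    unfold mkEq2 at h2
    simp only at h2
    rw [Formula.realize_relabel] at h2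
    refine (iff_of_eq ?_).mp h2
    congr 1
    funext q
    rcases q with q | q | x
    · rfl
    · rfl
    · exact (h3 x).symm
  · rintro ⟨u, rfl, y, h1, h2⟩
    refine ⟨fun i => match i with
      | Sum.inl _ => fun _ => u
      | Sum.inr (Sum.inl i) => y i
      | Sum.inr (Sum.inr x) => fun _ => c x, ?_, ?_⟩
    · rintro (_ | i | x)
      · rfl
      · exact h1 i
      · rfl
    · unfold mkEq2
      simp only
      rw [Formula.realize_relabel]
      refine (iff_of_eq ?_).mp h2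
      congr 1
      funext q
      rcases q with q | q | x <;> rfl

end def_

end Pool.Agent.MP568911
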