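import Pool.Agent.Lib.MP_568911_lc.Imag2

/-!
# Moving covers of imaginaries (continued)
-/

namespace Pool.Agent.MP568911
open FirstOrder FirstOrder.Language Function Cardinal
universe u v w

section fin
variable {𝕄 : Type w} [LL.Structure 𝕄] {Z : Type w}

/-- Extension, finite version. -/
lemma k2_fin {M : Set 𝕄} (hMne : M.Nonempty) {Cnd : (Z → 𝕄) → Prop} (hC : DefCond M Cnd)
    {α : Type} [Finite α] (s : α → ESort LL 𝕄) (v : ∀ i, Fin (s i).n → Z) (p : Z → 𝕄)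
    (hp : Cnd p) (a' : α → Imag LL 𝕄)
    (hST : SameType (eqOf M) (fun i => Imag.mk (s i) (fun l => p (v i l))) a') :
    ∃ j : Z → 𝕄, Cnd j ∧ ∀ i, a' i = Imag.mk (s i) (fun l => j (v i l)) := by
  obtain ⟨k, c, δ, hc, hδ⟩ := exists_def hMne hC s v (fun i : Fin 0 => i.elim0)
  let ψ : LL.Formula ((Σ i, Fin (s i).n) ⊕ Fin k) := δ.relabel (Sum.elim Fin.elim0 id)
  have hψ : ∀ y : ∀ i, Fin (s i).n → 𝕄, ψ.Realize (Sum.elim (fun q => y q.1 q.2) c) ↔
      ∃ j : Z → 𝕄, Cnd j ∧ (∀ i, Imag.mk (s i) (y i) = Imag.mk (s i) (fun l => j (v i l))) := by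
    intro y
    simp only [ψ]
    rw [Formula.realize_relabel]
    have e : (Sum.elim (fun q : Σ i, Fin (s i).n => y q.1 q.2) c) ∘
        (Sum.elim Fin.elim0 id : Fin 0 ⊕ ((Σ i, Fin (s i).n) ⊕ Fin k) → _) =
        Sum.elim (fun i : Fin 0 => i.elim0) (Sum.elim (fun q => y q.1 q.2) c) := by
      funext q
      rcases q with q | q
      · exact q.elim0
      · rfl
    rw [e, hδ]
    constructor
    · rintro ⟨j, h1, h2, -⟩
      exact ⟨j, h1, h2⟩
    · rintro ⟨j, h1, h2⟩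
      exact ⟨j, h1, h2, fun i => i.elim0⟩
  have h1 := hST (Fin k) (mkEq s k ψ) (fun x => re LL (c x)) (fun x => re_mem_eqOf (hc x))
  rw [mkEq_realize, mkEq_realize] at h1
  obtain ⟨y, h2, h3⟩ := h1.1 ⟨fun i l => p (v i l), fun i => rfl, (hψ _).2 ⟨p, hp, fun i => rfl⟩⟩
  obtain ⟨j, h4, h5⟩ := (hψ _).1 h3
  exact ⟨j, h4, fun i => (h2 i).trans (h5 i)⟩

/-- Avoidance, finite version. -/
lemma k3_fin {M : Set 𝕄} (hMne : M.Nonempty) {Cnd : (Z → 𝕄) → Prop} (hC : DefCond M Cnd)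
    {α : Type} [Finite α] (s : α → ESort LL 𝕄) (v : ∀ i, Fin (s i).n → Z) (p : Z → 𝕄)
    (hp : Cnd p) {r : ℕ} (zz : Fin r → Z)
    (hz : ∀ l, re LL (p (zz l)) ∉
      aclEq (eqOf M ∪ Set.range (fun i => Imag.mk (s i) (fun l => p (v i l)))))
    (G : Set 𝕄) (hG : G.Finite) :
    ∃ j : Z → 𝕄, Cnd j ∧ (∀ i, Imag.mk (s i) (fun l => p (v i l)) =
      Imag.mk (s i) (fun l => j (v i l))) ∧ ∀ l, j (zz l) ∉ G := by
  classical
  by_contra hcon
  push Not at hcon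
  obtain ⟨k, c, δ, hc, hδ⟩ := exists_def hMne hC s v zz
  let D : Set (Fin r → 𝕄) := {d | ∃ j : Z → 𝕄, Cnd j ∧ (∀ i, Imag.mk (s i) (fun l => p (v i l)) =
      Imag.mk (s i) (fun l => j (v i l))) ∧ ∀ l, d l = j (zz l)}
  have hpD : (fun l => p (zz l)) ∈ D := ⟨p, hp, fun i => rfl, fun l => rfl⟩
  obtain ⟨m, hm0, ⟨t0, ht0⟩, hm2⟩ := exists_min_transversal D ⟨_, hpD⟩ G hG (by
    rintro d ⟨j, h1, h2, h3⟩
    obtain ⟨l, hl⟩ := hcon j h1 h2
    exact ⟨l, by rw [h3]; exact hl⟩)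
  obtain ⟨i0, l0, hil⟩ := ht0 _ hpD
  -- the formula defining the union of the transversals
  let S := Σ i, Fin (s i).n
  let W := Unit ⊕ (S ⊕ Fin k)
  have hfo : FO.{w} LL (W ⊕ Fin m) (fun M _ u => (∃ l : Fin m, u (Sum.inr l) =
      u (Sum.inl (Sum.inl ()))) ∧ ∀ d : Fin r → M,
      δ.Realize (fun q => (Sum.elim u d) ((Sum.elim Sum.inr
        (fun z => Sum.inl (Sum.inl (Sum.inr z))) : Fin r ⊕ (S ⊕ Fin k) → (W ⊕ Fin m) ⊕ Fin r) q)) →
      ∃ (i : Fin r) (l : Fin m), (Sum.elim u d) (Sum.inr i) = (Sum.elim u d) (Sum.inl (Sum.inr l))) := by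
    refine FO.and (FO.exFin fun l => ?_) (FO.all (P := fun M _ v => δ.Realize (fun q => v
      ((Sum.elim Sum.inr
        (fun z => Sum.inl (Sum.inl (Sum.inr z))) : Fin r ⊕ (S ⊕ Fin k) → (W ⊕ Fin m) ⊕ Fin r) q)) →
      ∃ (i : Fin r) (l : Fin m), v (Sum.inr i) = v (Sum.inl (Sum.inr l)))
      (FO.imp (FO.realize _ _) (FO.exFin fun i => FO.exFin fun l => ?_)))
    · exact (FO.eq (Term.var (Sum.inr l)) (Term.var (Sum.inl (Sum.inl ())))).congr
        fun M _ v => by simp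
    · exact (FO.eq (Term.var (Sum.inr i)) (Term.var (Sum.inl (Sum.inr l)))).congr
        fun M _ v => by simp
  obtain ⟨ψ, hψ⟩ := FO.ex hfo
  have hψ' : ∀ (x : 𝕄) (y : ∀ i, Fin (s i).n → 𝕄),
      (∀ i, Imag.mk (s i) (fun l => p (v i l)) = Imag.mk (s i) (y i)) →
      (ψ.Realize (Sum.elim (fun _ => x) (Sum.elim (fun q => y q.1 q.2) c)) ↔
        ∃ t ∈ Tr D m, ∃ l, t l = x) := by
    intro x y hy
    rw [hψ]
    have e : ∀ (t : Fin m → 𝕄) (d : Fin r → 𝕄), (fun q => (Sum.elim (Sum.elim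
        (Sum.elim (fun _ => x) (Sum.elim (fun q : S => y q.1 q.2) c) : W → 𝕄) t) d)
        ((Sum.elim Sum.inr (fun z => Sum.inl (Sum.inl (Sum.inr z))) :
          Fin r ⊕ (S ⊕ Fin k) → (W ⊕ Fin m) ⊕ Fin r) q)) =
        Sum.elim d (Sum.elim (fun q : S => y q.1 q.2) c) := by
      intro t d
      funext q
      rcases q with q | q <;> rfl
    have hD : ∀ d, δ.Realize (Sum.elim d (Sum.elim (fun q : S => y q.1 q.2) c)) ↔ d ∈ D := by
      intro d
      rw [hδ]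
      constructor
      · rintro ⟨j, h1, h2, h3⟩
        exact ⟨j, h1, fun i => (hy i).trans (h2 i), h3⟩
      · rintro ⟨j, h1, h2, h3⟩
        exact ⟨j, h1, fun i => (hy i).symm.trans (h2 i), h3⟩
    constructor
    · rintro ⟨t, ⟨l, hl⟩, h2⟩
      refine ⟨t, fun d hd => ?_, l, hl⟩
      exact h2 d (by rw [e]; exact (hD d).2 hd)
    · rintro ⟨t, ht, l, hl⟩
      refine ⟨t, ⟨l, hl⟩, fun d hd => ?_⟩
      rw [e] at hd
      exact ht d ((hD d).1 hd)
  apply hz i0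
  refine ⟨α ⊕ Fin k, inferInstance, mkEq2 s k ψ, Sum.elim
    (fun i => Imag.mk (s i) (fun l => p (v i l))) (fun x => re LL (c x)), ?_, ?_, ?_⟩
  · rintro (i | x)
    · exact Or.inr ⟨i, rfl⟩
    · exact Or.inl (re_mem_eqOf (hc x))
  · rw [mkEq2_realize]
    refine ⟨p (zz i0), rfl, fun i l => p (v i l), fun i => rfl, ?_⟩
    rw [hψ' _ _ (fun i => rfl)]
    exact ⟨t0, ht0, l0, hil.symm⟩
  · have hfin : (⋃ t ∈ Tr D m, Set.range t).Finite := hm2.biUnion fun t _ => Set.finite_range t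
    refine (hfin.image (re LL)).subset ?_
    intro e he
    rw [Set.mem_ofPred_eq, mkEq2_realize] at he
    obtain ⟨x, rfl, y, h1, h2⟩ := he
    rw [hψ' x y h1] at h2
    obtain ⟨t, ht, l, hl⟩ := h2
    refine ⟨x, ?_, rfl⟩
    simp only [Set.mem_iUnion]
    exact ⟨t, ht, l, hl⟩

lemma aclEq_mono {C C' : Set (Imag LL 𝕄)} (h : C ⊆ C') : aclEq C ⊆ aclEq C' := by
  rintro e ⟨γ, hγ, φ, c, h1, h2, h3⟩
  exact ⟨γ, hγ, φ, c, fun j => h (h1 j), h2, h3⟩

lemma eqOf_mono {M M' : Set 𝕄} (h : M ⊆ M') : eqOf (L := LL) M ⊆ eqOf M' := by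
  rintro e ⟨s, v, hv, rfl⟩
  exact ⟨s, v, fun j => h (hv j), rfl⟩

end fin

section full
variable {𝕄 : Type w} [LL.Structure 𝕄] {Z : Type w} [LL.Structure Z]

/-- the condition that the imaginary represented at `v` is `e` -/
lemma repCond_def {P : Set 𝕄} (s : ESort LL 𝕄) (v : Fin s.n → Z) (y : Fin s.n → 𝕄)
    (hy : ∀ l, y l ∈ P) :
    DefCond P (fun j : Z → 𝕄 => Imag.mk s y = Imag.mk s (fun l => j (v l))) := by
  refine ⟨s.E.relabel (Sum.elim (fun l => Sum.inr ⟨y l, hy l⟩) (fun l => Sum.inl (v l))),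
    fun j => ?_⟩
  change _ ↔ Imag.mk s y = Imag.mk s (fun l => j (v l))
  rw [Formula.realize_relabel, Imag.mk_eq_iff]
  have : Sum.elim j (fun p : P => (p : 𝕄)) ∘ (Sum.elim (fun l => Sum.inr ⟨y l, hy l⟩)
      (fun l => Sum.inl (v l)) : Fin s.n ⊕ Fin s.n → Z ⊕ P) =
      Sum.elim y (fun l => j (v l)) := by
    funext q
    rcases q with l | l <;> rfl
  rw [this]

/-- **Extension.** -/
theorem k2 {κ : Cardinal.{w}} (hκ : ℵ₀ < κ) (hs : IsSaturated LL 𝕄 κ) (hZ : #Z < κ)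
    (p : Z ↪[LL] 𝕄) {M : Set 𝕄} (hMne : M.Nonempty) (hM : #M < κ)
    {α : Type} [Finite α] (s : α → ESort LL 𝕄) (v : ∀ i, Fin (s i).n → Z)
    (a' : α → Imag LL 𝕄)
    (hST : SameType (eqOf M) (fun i => Imag.mk (s i) (fun l => p (v i l))) a') :
    ∃ q : Z ↪[LL] 𝕄, (∀ z, p z ∈ M → q z = p z) ∧
      ∀ i, a' i = Imag.mk (s i) (fun l => q (v i l)) := by
  classical
  obtain ⟨j0, -, hj0⟩ := k2_fin hMne (Cnd := fun _ => True) ⟨⊤, fun j => by simp⟩ s v p trivial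
    a' hST
  let y : ∀ i, Fin (s i).n → 𝕄 := fun i l => j0 (v i l)
  let P : Set 𝕄 := M ∪ Set.range (fun q : Σ i, Fin (s i).n => y q.1 q.2)
  have hP : #P < κ := (Cardinal.mk_union_le _ _).trans_lt
    (Cardinal.add_lt_of_lt hκ.le hM ((Set.finite_range _).lt_aleph0.trans hκ))
  let Cnd : EmbIdx Z ⊕ α → (Z → 𝕄) → Prop := Sum.elim (embCond p M)
    (fun i j => Imag.mk (s i) (y i) = Imag.mk (s i) (fun l => j (v i l)))
  obtain ⟨j, hj⟩ := sat_cond hs hZ P hP Cnd (by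
    rintro (i | i)
    · exact (embCond_def _ M i).mono Set.subset_union_left
    · exact repCond_def (s i) (v i) (y i) (fun l => Or.inr ⟨⟨i, l⟩, rfl⟩)) (by
    intro I0
    let ι := {i : EmbIdx Z // Sum.inl i ∈ I0}
    have : Finite ι := Finite.of_injective (fun i : ι => (⟨Sum.inl i.1, i.2⟩ : I0)) (by
      intro a b h
      have := congrArg Subtype.val h
      exact Subtype.ext (Sum.inl_injective this))
    obtain ⟨j, h1, h2⟩ := k2_fin hMne (Cnd := fun j => ∀ i : ι, embCond p M i.1 j)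
      (DefCond.finite fun i => embCond_def _ M i.1) s v p (fun i => embCond_self p M i.1) a' hST
    refine ⟨j, ?_⟩
    rintro (i | i) hi
    · exact h1 ⟨i, hi⟩
    · change Imag.mk (s i) (y i) = Imag.mk (s i) (fun l => j (v i l))
      rw [← h2 i]
      exact (hj0 i).symm)
  obtain ⟨q, hq1, hq2⟩ := exists_emb_of_embCond (fun i => hj (Sum.inl i))
  refine ⟨q, hq2, fun i => ?_⟩
  have h3 : Imag.mk (s i) (y i) = Imag.mk (s i) (fun l => j (v i l)) := hj (Sum.inr i)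
  rw [hj0 i]
  change Imag.mk (s i) (y i) = _
  rw [h3]
  simp only [hq1]

/-- algebraic closure is preserved by partial isomorphisms fixing the base -/
lemma aclEq_moves {κ : Cardinal.{w}} (hκ : ℵ₀ < κ) (hM : IsT 𝕄)
    (hs : IsSaturated LL 𝕄 κ) [Nonempty Z] (hZ : #Z < κ)
    (p q : Z ↪[LL] 𝕄) {C : Set (Imag LL 𝕄)} (hC : ∀ e ∈ C, Moves p q e e) {e e' : Imag LL 𝕄}
    (h : Moves p q e e') (he : e ∈ aclEq C) : e' ∈ aclEq C := by
  obtain ⟨γ, hγ, φ, c, h1, h2, h3⟩ := he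
  refine ⟨γ, hγ, φ, c, h1, ?_, h3⟩
  rw [← elem_moves hκ hM hs hZ p q φ (Sum.elim (fun _ => e) c) (Sum.elim (fun _ => e') c)]
  · exact h2
  · rintro (_ | j)
    · exact h
    · exact hC _ (h1 j)

/-- **Avoidance.** -/
theorem k3 {κ : Cardinal.{w}} (hκ : ℵ₀ < κ) (hT : IsT 𝕄) (hs : IsSaturated LL 𝕄 κ)
    (hZ : #Z < κ) (p : Z ↪[LL] 𝕄) {M : Set 𝕄} (hMne : M.Nonempty) (hM : #M < κ)
    (hMZ : ∀ x ∈ M, ∃ z, p z = x)
    {Λ : Type w} (s : Λ → ESort LL 𝕄) (v : ∀ i, Fin (s i).n → Z)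
    (S : Set 𝕄) (hS : #S < κ) :
    ∃ q : Z ↪[LL] 𝕄, (∀ z, p z ∈ M → q z = p z) ∧
      (∀ i, Imag.mk (s i) (fun l => p (v i l)) = Imag.mk (s i) (fun l => q (v i l))) ∧
      ∀ z, q z ∈ S → re LL (q z) ∈
        aclEq (eqOf M ∪ Set.range (fun i => Imag.mk (s i) (fun l => p (v i l)))) := by
  classical
  set C := eqOf M ∪ Set.range (fun i => Imag.mk (s i) (fun l => p (v i l))) with hCdef
  have : Nonempty Z := by
    obtain ⟨x, hx⟩ := hMne
    obtain ⟨z, -⟩ := hMZ x hx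
    exact ⟨z⟩
  let P : Set 𝕄 := (M ∪ S) ∪ Set.range p
  have hP : #P < κ := (Cardinal.mk_union_le _ _).trans_lt
    (Cardinal.add_lt_of_lt hκ.le ((Cardinal.mk_union_le _ _).trans_lt
      (Cardinal.add_lt_of_lt hκ.le hM hS)) ((Cardinal.mk_range_le (f := p)).trans_lt hZ))
  let Bad := {z : Z // re LL (p z) ∉ aclEq C} × S
  let Cnd : (EmbIdx Z ⊕ Λ) ⊕ Bad → (Z → 𝕄) → Prop := Sum.elim (Sum.elim (embCond p M)
    (fun i j => Imag.mk (s i) (fun l => p (v i l)) = Imag.mk (s i) (fun l => j (v i l))))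
    (fun b j => j b.1 ≠ b.2)
  obtain ⟨j, hj⟩ := sat_cond hs hZ P hP Cnd (by
    rintro ((i | i) | b)
    · exact (embCond_def _ M i).mono (Set.subset_union_left.trans Set.subset_union_left)
    · exact repCond_def (s i) (v i) _ (fun l => Or.inr ⟨_, rfl⟩)
    · refine ⟨∼((Term.var (Sum.inl b.1.1)).equal
        (Term.var (Sum.inr ⟨b.2, Or.inl (Or.inr b.2.2)⟩))), fun j => ?_⟩
      rw [Formula.realize_not, Formula.realize_equal]
      rfl) (by
    intro I0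
    let ι := {i : EmbIdx Z // Sum.inl (Sum.inl i) ∈ I0}
    have : Finite ι := Finite.of_injective (fun i : ι => (⟨Sum.inl (Sum.inl i.1), i.2⟩ : I0)) (by
      intro a b h
      have := congrArg Subtype.val h
      exact Subtype.ext (Sum.inl_injective (Sum.inl_injective this)))
    let Λ0 := {i : Λ // Sum.inl (Sum.inr i) ∈ I0}
    have : Finite Λ0 := Finite.of_injective
      (fun i : Λ0 => (⟨Sum.inl (Sum.inr i.1), i.2⟩ : I0)) (by
      intro a b h
      have := congrArg Subtype.val h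
      exact Subtype.ext (Sum.inr_injective (Sum.inl_injective this)))
    let B0 := {i : Bad // Sum.inr i ∈ I0}
    have : Finite B0 := Finite.of_injective (fun i : B0 => (⟨Sum.inr i.1, i.2⟩ : I0)) (by
      intro a b h
      have := congrArg Subtype.val h
      exact Subtype.ext (Sum.inr_injective this))
    obtain ⟨n1, ⟨e1⟩⟩ := Finite.exists_equiv_fin Λ0
    obtain ⟨n2, ⟨e2⟩⟩ := Finite.exists_equiv_fin B0
    obtain ⟨j, h1, h2, h3⟩ := k3_fin hMne (Cnd := fun j => ∀ i : ι, embCond p M i.1 j)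
      (DefCond.finite fun i => embCond_def _ M i.1)
      (fun x : Fin n1 => s (e1.symm x).1) (fun x => v (e1.symm x).1) p
      (fun i => embCond_self p M i.1) (fun l : Fin n2 => ((e2.symm l).1.1.1 : Z)) (by
        intro l hl
        apply (e2.symm l).1.1.2
        refine aclEq_mono ?_ hl
        rw [hCdef]
        apply Set.union_subset_union_right
        rintro _ ⟨x, rfl⟩
        exact ⟨(e1.symm x).1, rfl⟩)
      (Set.range (fun l : Fin n2 => ((e2.symm l).1.2 : 𝕄))) (Set.finite_range _)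
    refine ⟨j, ?_⟩
    rintro ((i | i) | b) hi
    · exact h1 ⟨i, hi⟩
    · have := h2 (e1 ⟨i, hi⟩)
      rw [Equiv.symm_apply_apply] at this
      exact this
    · have := h3 (e2 ⟨b, hi⟩)
      rw [Equiv.symm_apply_apply] at this
      intro hcon
      exact this ⟨e2 ⟨b, hi⟩, by
        dsimp only
        rw [Equiv.symm_apply_apply]
        exact hcon.symm⟩)
  obtain ⟨q, hq1, hq2⟩ := exists_emb_of_embCond (fun i => hj (Sum.inl (Sum.inl i)))
  have h3 : ∀ i, Imag.mk (s i) (fun l => p (v i l)) = Imag.mk (s i) (fun l => q (v i l)) := by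
    intro i
    have h4 : Imag.mk (s i) (fun l => p (v i l)) = Imag.mk (s i) (fun l => j (v i l)) :=
      hj (Sum.inl (Sum.inr i))
    rw [h4]
    simp only [hq1]
  refine ⟨q, hq2, h3, fun z hz => ?_⟩
  have hfix : ∀ e ∈ C, Moves p q e e := by
    rintro e (he | ⟨i, rfl⟩)
    · refine moves_eqOf (M := M) ?_ e he
      intro x hx
      obtain ⟨z, hz⟩ := hMZ x hx
      exact ⟨z, hz, by rw [hq2 z (by rw [hz]; exact hx), hz]⟩
    · exact ⟨s i, v i, rfl, h3 i⟩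
  refine aclEq_moves hκ hT hs hZ p q hfix (e := re LL (p z)) ⟨realSort LL 𝕄, fun _ => z, rfl, rfl⟩ ?_
  by_contra hcon
  exact hj (Sum.inr (⟨z, hcon⟩, ⟨q z, hz⟩)) (hq1 z).symm

end full

end Pool.Agent.MP568911
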