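import Pool.Agent.Lib.MP_568911_lc.Imag3

/-!
# Algebraic closure, realising invariant types, uniqueness of Morley sequences
-/

namespace Pool.Agent.MP568911
open FirstOrder FirstOrder.Language Function Cardinal
universe u v w

section
variable {𝕄 : Type w} [LL.Structure 𝕄]

/-- Real elements algebraic over imaginaries covered by a closed set `X` are in `X`. -/
theorem acl_real {κ : Cardinal.{w}} (hκ : ℵ₀ < κ) (hT : IsT 𝕄) (hs : IsSaturated LL 𝕄 κ)
    (X : LL.Substructure 𝕄) (hXne : Nonempty X) (hX : #X < κ) {C : Set (Imag LL 𝕄)}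
    (hC : C ⊆ eqOf (X : Set 𝕄)) {x : 𝕄} (hx : re LL x ∈ aclEq C) : x ∈ X := by
  classical
  obtain ⟨γ, hγ, φ, c, h1, h2, h3⟩ := hx
  by_contra hxX
  let Zs : LL.Substructure 𝕄 := Substructure.closure LL (insert x (X : Set 𝕄))
  have hsub : insert x (X : Set 𝕄) ⊆ (Zs : Set 𝕄) := Substructure.subset_closure
  have hZ : #Zs < κ := card_closure_lt hκ (Cardinal.mk_insert_le.trans_lt
    (Cardinal.add_lt_of_lt hκ.le hX (Cardinal.one_lt_aleph0.trans hκ)))
  let Y : LL.Substructure Zs := X.comap Zs.subtype.toHom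
  have hY : ∀ z : Zs, z ∈ Y ↔ (z : 𝕄) ∈ X := fun z => Iff.rfl
  obtain ⟨x0⟩ := hXne
  have : Nonempty Y := ⟨⟨⟨x0, hsub (Set.mem_insert_of_mem _ x0.2)⟩, x0.2⟩⟩
  let S : Set 𝕄 := {u | re LL u ∈ {e' | φ.Realize (Sum.elim (fun _ => e') c)}}
  have hS : S.Finite := h3.preimage re_injective.injOn
  obtain ⟨G, hG1, hG2⟩ := free hκ hT hs (Good.of_emb Zs.subtype hT.1) hZ Y
    (Zs.subtype.comp Y.subtype) S (hS.lt_aleph0.trans hκ)
  have hxZ : x ∈ Zs := hsub (Set.mem_insert _ _)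
  apply hxX
  have h4 : G ⟨x, hxZ⟩ ∈ S := by
    change φ.Realize (Sum.elim (fun _ => re LL (G ⟨x, hxZ⟩)) c)
    have : Nonempty Zs := ⟨⟨x, hxZ⟩⟩
    rw [← elem_moves hκ hT hs hZ Zs.subtype G φ (Sum.elim (fun _ => re LL x) c)]
    · exact h2
    · rintro (_ | j)
      · exact ⟨realSort LL 𝕄, fun _ => ⟨x, hxZ⟩, rfl, rfl⟩
      · refine moves_eqOf (M := (X : Set 𝕄)) ?_ _ (hC (h1 j))
        intro y hy
        have hyZ : y ∈ Zs := hsub (Set.mem_insert_of_mem _ hy)
        exact ⟨⟨y, hyZ⟩, rfl, hG1 ⟨⟨y, hyZ⟩, hy⟩⟩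
  exact hG2 _ h4

lemma mem_of_re_mem_eqOf {κ : Cardinal.{w}} (hκ : ℵ₀ < κ) (hT : IsT 𝕄)
    (hs : IsSaturated LL 𝕄 κ) (X : LL.Substructure 𝕄) (hXne : Nonempty X) (hX : #X < κ) {x : 𝕄}
    (hx : re LL x ∈ eqOf (X : Set 𝕄)) : x ∈ X := by
  obtain ⟨s, v, hv, h⟩ := hx
  have hsort := Imag.sort_eq h
  subst hsort
  have := (re_eq_mk x v).1 h
  rw [this]
  exact hv (0 : Fin 1)

/-- Conjugates of an element outside a closed set can be found outside any small set. -/
theorem exists_conj {κ : Cardinal.{w}} (hκ : ℵ₀ < κ) (hT : IsT 𝕄) (hs : IsSaturated LL 𝕄 κ)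
    (X : LL.Substructure 𝕄) (hXne : Nonempty X) (hX : #X < κ) {x : 𝕄} (hx : x ∉ X)
    (S : Set 𝕄) (hS : #S < κ) :
    ∃ x' ∉ S, SameType (eqOf (X : Set 𝕄)) (fun _ : Unit => re LL x) (fun _ => re LL x') := by
  classical
  let Zs : LL.Substructure 𝕄 := Substructure.closure LL (insert x (X : Set 𝕄))
  have hsub : insert x (X : Set 𝕄) ⊆ (Zs : Set 𝕄) := Substructure.subset_closure
  have hZ : #Zs < κ := card_closure_lt hκ (Cardinal.mk_insert_le.trans_lt
    (Cardinal.add_lt_of_lt hκ.le hX (Cardinal.one_lt_aleph0.trans hκ)))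
  let Y : LL.Substructure Zs := X.comap Zs.subtype.toHom
  obtain ⟨x0⟩ := hXne
  have : Nonempty Y := ⟨⟨⟨x0, hsub (Set.mem_insert_of_mem _ x0.2)⟩, x0.2⟩⟩
  obtain ⟨G, hG1, hG2⟩ := free hκ hT hs (Good.of_emb Zs.subtype hT.1) hZ Y
    (Zs.subtype.comp Y.subtype) S hS
  have hxZ : x ∈ Zs := hsub (Set.mem_insert _ _)
  have : Nonempty Zs := ⟨⟨x, hxZ⟩⟩
  refine ⟨G ⟨x, hxZ⟩, fun h => hx (hG2 _ h), ?_⟩
  refine sameType_of_moves hκ hT hs hZ Zs.subtype G _ _
    (fun _ => ⟨realSort LL 𝕄, fun _ => ⟨x, hxZ⟩, rfl, rfl⟩) _ (moves_eqOf ?_)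
  intro y hy
  have hyZ : y ∈ Zs := hsub (Set.mem_insert_of_mem _ hy)
  exact ⟨⟨y, hyZ⟩, rfl, hG1 ⟨⟨y, hyZ⟩, hy⟩⟩

theorem infinite_conj {κ : Cardinal.{w}} (hκ : ℵ₀ < κ) (hT : IsT 𝕄) (hs : IsSaturated LL 𝕄 κ)
    (X : LL.Substructure 𝕄) (hXne : Nonempty X) (hX : #X < κ) {x : 𝕄} (hx : x ∉ X) :
    {x' | SameType (eqOf (X : Set 𝕄)) (fun _ : Unit => re LL x) (fun _ => re LL x')}.Infinite := by
  intro hfin
  obtain ⟨x', h1, h2⟩ := exists_conj hκ hT hs X hXne hX hx _ (hfin.lt_aleph0.trans hκ)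
  exact h1 h2

/-- combining representatives -/
def sumv {α β : Type} {s : α → ESort LL 𝕄} {t : β → ESort LL 𝕄}
    (v : ∀ i, Fin (s i).n → 𝕄) (u : ∀ j, Fin (t j).n → 𝕄) :
    ∀ i : α ⊕ β, Fin ((Sum.elim s t : α ⊕ β → ESort LL 𝕄) i).n → 𝕄
  | Sum.inl i => v i
  | Sum.inr j => u j

lemma sumv_mk {α β : Type} {s : α → ESort LL 𝕄} {t : β → ESort LL 𝕄}
    (v : ∀ i, Fin (s i).n → 𝕄) (u : ∀ j, Fin (t j).n → 𝕄) :
    Sum.elim (fun i => Imag.mk (s i) (v i)) (fun j => Imag.mk (t j) (u j)) =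
      fun i => Imag.mk ((Sum.elim s t : α ⊕ β → ESort LL 𝕄) i) (sumv v u i) := by
  funext i
  rcases i with i | i <;> rfl

/-- **Realising a type over a small set.** -/
theorem k6 {κ : Cardinal.{w}} (hκ : ℵ₀ < κ) (hs : IsSaturated LL 𝕄 κ)
    {β : Type} [Finite β] (q : Ultrafilter (β → Imag LL 𝕄)) (s : β → ESort LL 𝕄)
    (hq : ∀ᶠ x in (q : Filter (β → Imag LL 𝕄)), ∃ v : ∀ i, Fin (s i).n → 𝕄,
      ∀ i, x i = Imag.mk (s i) (v i))
    (P : Set 𝕄) (hP : #P < κ) :
    ∃ y : ∀ i, Fin (s i).n → 𝕄, RealizesOver (eqOf P) q (fun i => Imag.mk (s i) (y i)) := by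
  classical
  let Z : Type w := ULift.{w} (Σ i, Fin (s i).n)
  have hZ : #Z < κ := (Cardinal.mk_lt_aleph0_iff.2 inferInstance).trans hκ
  let fl : (∀ i, Fin (s i).n → 𝕄) → Z → 𝕄 := fun v z => v z.down.1 z.down.2
  let I := {θ : LL.Formula (Z ⊕ P) // ∀ᶠ x in (q : Filter (β → Imag LL 𝕄)), ∀ v : ∀ i, Fin (s i).n → 𝕄,
    (∀ i, x i = Imag.mk (s i) (v i)) → θ.Realize (Sum.elim (fl v) (fun p : P => (p : 𝕄)))}
  obtain ⟨j, hj⟩ := sat_cond hs hZ P hP (I := I)
    (fun θ j => θ.1.Realize (Sum.elim j (fun p : P => (p : 𝕄))))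
    (fun θ => ⟨θ.1, fun j => Iff.rfl⟩) (by
    intro I0
    have h1 : ∀ᶠ x in (q : Filter (β → Imag LL 𝕄)), ∀ θ ∈ I0, ∀ v : ∀ i, Fin (s i).n → 𝕄,
        (∀ i, x i = Imag.mk (s i) (v i)) →
          θ.1.Realize (Sum.elim (fl v) (fun p : P => (p : 𝕄))) :=
      (Filter.eventually_all_finset I0).2 (fun θ _ => θ.2)
    obtain ⟨x, hx1, v, hv⟩ := (h1.and hq).exists
    exact ⟨fl v, fun θ hθ => hx1 θ hθ v hv⟩)
  let y : ∀ i, Fin (s i).n → 𝕄 := fun i l => j ⟨⟨i, l⟩⟩
  have hfly : fl y = j := by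
    funext z
    rfl
  refine ⟨y, ?_⟩
  intro γ _ φ c hc
  choose t u hu hcu using hc
  have hc' : c = fun i => Imag.mk (t i) (u i) := funext hcu
  subst hc'
  by_cases hsort : φ.sort = Sum.elim s t
  · obtain ⟨s', body⟩ := φ
    dsimp only at hsort
    subst hsort
    obtain ⟨ψ, hψ⟩ := EqFormula.exists_pull (Sum.elim s t) body
    let g : (Σ i : β ⊕ γ, Fin ((Sum.elim s t : β ⊕ γ → ESort LL 𝕄) i).n) → Z ⊕ P := fun z =>
      match z with
      | ⟨Sum.inl i, l⟩ => Sum.inl ⟨⟨i, l⟩⟩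
      | ⟨Sum.inr i, l⟩ => Sum.inr ⟨u i l, hu i l⟩
    have key : ∀ v : ∀ i, Fin (s i).n → 𝕄, (ψ.relabel g).Realize
        (Sum.elim (fl v) (fun p : P => (p : 𝕄))) ↔
        (EqFormula.mk (Sum.elim s t) body).Realize
          (Sum.elim (fun i => Imag.mk (s i) (v i)) (fun i => Imag.mk (t i) (u i))) := by
      intro v
      rw [sumv_mk, hψ, Formula.realize_relabel]
      have : Sum.elim (fl v) (fun p : P => (p : 𝕄)) ∘ g =
          fun p : (Σ i : β ⊕ γ, Fin ((Sum.elim s t : β ⊕ γ → ESort LL 𝕄) i).n) =>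
            sumv v u p.1 p.2 := by
        funext z
        obtain ⟨(i | i), l⟩ := z <;> rfl
      rw [this]
    rw [← key y]
    by_cases hq' : ∀ᶠ x in (q : Filter (β → Imag LL 𝕄)), (EqFormula.mk (Sum.elim s t) body).Realize
        (Sum.elim x (fun i => Imag.mk (t i) (u i)))
    · refine iff_of_true ?_ hq'
      have hI : ∀ᶠ x in (q : Filter (β → Imag LL 𝕄)), ∀ v : ∀ i, Fin (s i).n → 𝕄, (∀ i, x i = Imag.mk (s i) (v i)) →
          (ψ.relabel g).Realize (Sum.elim (fl v) (fun p : P => (p : 𝕄))) := by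
        filter_upwards [hq'] with x hx v hv
        rw [key]
        have : x = fun i => Imag.mk (s i) (v i) := funext hv
        rw [← this]
        exact hx
      have := hj ⟨_, hI⟩
      rw [hfly]
      exact this
    · refine iff_of_false ?_ hq'
      have hq'' := Ultrafilter.eventually_not.2 hq'
      have hI : ∀ᶠ x in (q : Filter (β → Imag LL 𝕄)), ∀ v : ∀ i, Fin (s i).n → 𝕄, (∀ i, x i = Imag.mk (s i) (v i)) →
          Formula.Realize (∼(ψ.relabel g)) (Sum.elim (fl v) (fun p : P => (p : 𝕄))) := by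
        filter_upwards [hq''] with x hx v hv
        rw [Formula.realize_not, key]
        have : x = fun i => Imag.mk (s i) (v i) := funext hv
        rw [← this]
        exact hx
      have := hj ⟨_, hI⟩
      rw [Formula.realize_not] at this
      rw [hfly]
      exact this
  · refine iff_of_false ?_ ?_
    · intro h
      rw [sumv_mk] at h
      exact hsort (EqFormula.sort_of_realize h)
    · intro h
      obtain ⟨x, hx, v, hv⟩ := (h.and hq).exists
      have : x = fun i => Imag.mk (s i) (v i) := funext hv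
      rw [this, sumv_mk] at hx
      exact hsort (EqFormula.sort_of_realize hx)

lemma RealizesOver.mono {C C' : Set (Imag LL 𝕄)} (h : C ⊆ C') {β : Type}
    {q : Ultrafilter (β → Imag LL 𝕄)} {b : β → Imag LL 𝕄} (hb : RealizesOver C' q b) :
    RealizesOver C q b := fun γ _ φ c hc => hb γ φ c (fun j => h (hc j))

lemma SameType.of_realizes {C : Set (Imag LL 𝕄)} {β : Type}
    {q : Ultrafilter (β → Imag LL 𝕄)} {b b' : β → Imag LL 𝕄} (hb : RealizesOver C q b)
    (hb' : RealizesOver C q b') : SameType C b b' := fun γ _ φ c hc => by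
  rw [hb γ φ c hc, hb' γ φ c hc]

/-- reindexing formulas of `𝕄^eq` -/
lemma EqFormula.exists_relabel {α α' : Type} (e : α ≃ α') (φ : EqFormula LL 𝕄 α) :
    ∃ φ' : EqFormula LL 𝕄 α', ∀ w, φ'.Realize w ↔ φ.Realize (fun i => w (e i)) := by
  obtain ⟨s, body⟩ := φ
  obtain ⟨s', rfl⟩ : ∃ s' : α' → ESort LL 𝕄, s = fun i => s' (e i) :=
    ⟨fun i => s (e.symm i), by funext i; simp⟩
  refine ⟨⟨s', body.relabel (fun p => ⟨e p.1, p.2⟩)⟩, fun w => ?_⟩
  constructor
  · rintro ⟨v, h1, h2⟩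
    refine ⟨fun i => v (e i), fun i => h1 (e i), ?_⟩
    dsimp only at h2
    rw [Formula.realize_relabel] at h2
    exact h2
  · rintro ⟨v, h1, h2⟩
    dsimp only at v h1 h2
    -- transport `v` along `e`
    obtain ⟨v', rfl⟩ : ∃ v' : ∀ i, Fin (s' i).n → 𝕄, v = fun i => v' (e i) := by
      refine ⟨(Equiv.piCongrLeft (fun i => Fin (s' i).n → 𝕄) e) v, ?_⟩
      funext i
      exact (Equiv.piCongrLeft_apply_apply (fun i => Fin (s' i).n → 𝕄) e v i).symm
    refine ⟨v', fun i => ?_, ?_⟩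
    · obtain ⟨i', rfl⟩ := e.surjective i
      exact h1 i'
    · dsimp only
      rw [Formula.realize_relabel]
      exact h2

/-- **Uniqueness of the type of a Morley sequence.** -/
theorem k7 {C : Set (Imag LL 𝕄)} {β : Type} [Finite β] {q : Ultrafilter (β → Imag LL 𝕄)}
    (hq : IsInvariant C q) {b b' : ℕ → β → Imag LL 𝕄} (hb : IsMorley C q b)
    (hb' : IsMorley C q b') (N : ℕ) :
    SameType C (fun z : Fin N × β => b z.1 z.2) (fun z : Fin N × β => b' z.1 z.2) := by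
  induction N with
  | zero =>
    intro γ _ φ c hc
    have : (fun z : Fin 0 × β => b z.1 z.2) = (fun z : Fin 0 × β => b' z.1 z.2) := by
      funext z
      exact z.1.elim0
    rw [this]
  | succ N ih =>
    intro γ _ φ c hc
    -- the reindexing
    let e : (Fin (N + 1) × β) ⊕ γ ≃ β ⊕ ((Fin N × β) ⊕ γ) :=
      { toFun := fun z => match z with
          | Sum.inl (i, k) => Fin.lastCases (Sum.inl k) (fun i => Sum.inr (Sum.inl (i, k))) i
          | Sum.inr j => Sum.inr (Sum.inr j)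
        invFun := fun z => match z with
          | Sum.inl k => Sum.inl (Fin.last N, k)
          | Sum.inr (Sum.inl (i, k)) => Sum.inl (i.castSucc, k)
          | Sum.inr (Sum.inr j) => Sum.inr j
        left_inv := by
          rintro (⟨i, k⟩ | j)
          · refine Fin.lastCases ?_ (fun i => ?_) i
            · simp
            · simp
          · rfl
        right_inv := by
          rintro (k | ⟨i, k⟩ | j)
          · simp
          · simp
          · rfl }
    obtain ⟨φ', hφ'⟩ := EqFormula.exists_relabel e φ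
    have key : ∀ d : ℕ → β → Imag LL 𝕄,
        φ.Realize (Sum.elim (fun z : Fin (N + 1) × β => d z.1 z.2) c) ↔
        φ'.Realize (Sum.elim (d N) (Sum.elim (fun z : Fin N × β => d z.1 z.2) c)) := by
      intro d
      rw [hφ']
      have : (fun i => (Sum.elim (d N) (Sum.elim (fun z : Fin N × β => d z.1 z.2) c)) (e i)) =
          Sum.elim (fun z : Fin (N + 1) × β => d z.1 z.2) c := by
        funext z
        rcases z with ⟨i, k⟩ | j
        · refine Fin.lastCases ?_ (fun i => ?_) i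
          · simp [e]
          · simp [e]
        · rfl
      rw [this]
    rw [key b, key b']
    have hpar : ∀ (d : ℕ → β → Imag LL 𝕄) (j : (Fin N × β) ⊕ γ),
        Sum.elim (fun z : Fin N × β => d z.1 z.2) c j ∈ C ∪ {e | ∃ j < N, ∃ k, e = d j k} := by
      rintro d (⟨i, k⟩ | j)
      · exact Or.inr ⟨i, i.2, k, rfl⟩
      · exact Or.inl (hc j)
    rw [hb N _ φ' _ (hpar b), hb' N _ φ' _ (hpar b')]
    apply hq
    intro γ' _ χ c' hc'
    obtain ⟨χ', hχ'⟩ := EqFormula.exists_relabel (Equiv.sumAssoc (Fin N × β) γ γ') χ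
    have key2 : ∀ d : Fin N × β → Imag LL 𝕄, χ.Realize (Sum.elim (Sum.elim d c) c') ↔
        χ'.Realize (Sum.elim d (Sum.elim c c')) := by
      intro d
      rw [hχ']
      have : (fun i => (Sum.elim d (Sum.elim c c')) (Equiv.sumAssoc (Fin N × β) γ γ' i)) =
          Sum.elim (Sum.elim d c) c' := by
        funext z
        rcases z with (z | z) | z <;> rfl
      rw [this]
    rw [key2, key2]
    apply ih
    rintro (j | j)
    · exact hc j
    · exact hc' j

end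

end Pool.Agent.MP568911
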