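import Pool.Agent.Lib.MP_568911_lc.Rich

/-!
# The independence theorem and free amalgamation in saturated models
-/

namespace Pool.Agent.MP568911
open FirstOrder FirstOrder.Language Function Cardinal
universe u v w

section indep
variable {𝕄 : Type w} [LL.Structure 𝕄]

lemma emb_codRestrict {A B : Type*} [LL.Structure A] [LL.Structure B] (f : A ↪[LL] B)
    (S : LL.Substructure B) (h : ∀ a, f a ∈ S) : ∃ g : A ↪[LL] S, ∀ a, (g a : B) = f a :=
  ⟨mkEmb (fun a => ⟨f a, h a⟩) (fun a b hab => f.injective (congrArg Subtype.val hab))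
    (fun a => Subtype.ext (by rw [coe_hd]; exact map_hd f a))
    (fun a => Subtype.ext (by rw [coe_tl]; exact map_tl f a))
    (fun n s a b => Subtype.ext (by rw [coe_gg]; exact map_gg f n s a b)), fun a => rfl⟩

/-- **Independence theorem.** -/
theorem indep {κ : Cardinal.{w}} (hκ : ℵ₀ < κ) (hM : IsT 𝕄) (hs : IsSaturated LL 𝕄 κ)
    {Z : Type w} [LL.Structure Z] (hZ : Good Z) (hZκ : #Z < κ)
    {ι : Type} [Nonempty ι] [Countable ι]
    (X Y : LL.Substructure Z) (g : ι → (Y ↪[LL] 𝕄))
    (h1 : ∀ i k, i ≠ k → ∀ y y' : Y, g i y = g k y' → y = y' ∧ (y : Z) ∈ X)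
    (h2 : ∀ i k, ∀ y : Y, (y : Z) ∈ X → g i y = g k y)
    (x0 : Z) (hx0X : x0 ∈ X) (hx0Y : x0 ∈ Y) :
    ∃ G : ι → (Z ↪[LL] 𝕄), (∀ i (y : Y), G i y = g i y) ∧ (∀ i k, ∀ x ∈ X, G i x = G k x) := by
  obtain ⟨D, _, F, G, hD, k1, k2, -⟩ := amalg3 hM.1 hZ X Y g h1 h2 x0 hx0X hx0Y
  -- the small part of `𝕄`
  let W : LL.Substructure 𝕄 := Substructure.closure LL (Set.range fun q : ι × Y => g q.1 q.2)
  have hιZ : ∀ (T : Type w), #T < κ → lift.{0} #(ι × T) < κ := by
    intro T hT
    rw [Cardinal.lift_uzero, Cardinal.mk_prod]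
    refine Cardinal.mul_lt_of_lt hκ.le ?_ ?_
    · refine lt_of_le_of_lt ?_ hκ
      rw [Cardinal.lift_le_aleph0, Cardinal.mk_le_aleph0_iff]
      infer_instance
    · simpa using hT
  have hY : #Y < κ := (Cardinal.mk_le_of_injective Subtype.val_injective).trans_lt hZκ
  have hW : #W < κ := by
    apply card_closure_lt hκ
    have := Cardinal.mk_range_le_lift (f := fun q : ι × Y => g q.1 q.2)
    rw [Cardinal.lift_id, Cardinal.lift_id] at this
    refine this.trans_lt ?_
    simpa using hιZ Y hY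
  let E : LL.Substructure D := Substructure.closure LL
    (Set.range (fun a : W => F a) ∪ Set.range fun q : ι × Z => G q.1 q.2)
  have hE : #E < κ := by
    apply card_closure_lt hκ
    refine (Cardinal.mk_union_le _ _).trans_lt (Cardinal.add_lt_of_lt hκ.le ?_ ?_)
    · exact Cardinal.mk_range_le.trans_lt hW
    · have := Cardinal.mk_range_le_lift (f := fun q : ι × Z => G q.1 q.2)
      rw [Cardinal.lift_id, Cardinal.lift_id] at this
      refine this.trans_lt ?_
      simpa using hιZ Z hZκ
  have hsub : Set.range (fun a : W => F a) ∪ (Set.range fun q : ι × Z => G q.1 q.2) ⊆ (E : Set D) :=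
    Substructure.subset_closure
  obtain ⟨kk, hkk⟩ := emb_codRestrict (F.comp W.subtype) E (fun a => hsub (Or.inl ⟨a, rfl⟩))
  have : Nonempty W := ⟨⟨g (Classical.arbitrary ι) ⟨x0, hx0Y⟩,
    Substructure.subset_closure ⟨(Classical.arbitrary ι, ⟨x0, hx0Y⟩), rfl⟩⟩⟩
  obtain ⟨f, hf⟩ := rich hM hs (Good.of_emb E.subtype hD) hE W.subtype kk
  have hG : ∀ i, ∃ G' : Z ↪[LL] E, ∀ z, (G' z : D) = G i z := fun i =>
    emb_codRestrict (G i) E (fun z => hsub (Or.inr ⟨(i, z), rfl⟩))
  choose G' hG' using hG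
  refine ⟨fun i => f.comp (G' i), ?_, ?_⟩
  · intro i y
    have hy : g i y ∈ W := Substructure.subset_closure ⟨(i, y), rfl⟩
    have : G' i y = kk ⟨g i y, hy⟩ := by
      apply Subtype.ext
      rw [hG', hkk, k1]
      rfl
    rw [Embedding.comp_apply, this, hf]
    rfl
  · intro i k x hx
    have : G' i x = G' k x := by
      apply Subtype.ext
      rw [hG', hG', k2 i k x hx]
    rw [Embedding.comp_apply, Embedding.comp_apply, this]

/-- **Free amalgamation.** -/
theorem free {κ : Cardinal.{w}} (hκ : ℵ₀ < κ) (hM : IsT 𝕄) (hs : IsSaturated LL 𝕄 κ)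
    {Z : Type w} [LL.Structure Z] (hZ : Good Z) (hZκ : #Z < κ)
    (Y : LL.Substructure Z) [Nonempty Y] (g : Y ↪[LL] 𝕄) (S : Set 𝕄) (hS : #S < κ) :
    ∃ G : Z ↪[LL] 𝕄, (∀ y : Y, G y = g y) ∧ ∀ z, G z ∈ S → z ∈ Y := by
  obtain ⟨D, _, F, G, hD, k1, k2⟩ := amalg2 hM.1 hZ g Y.subtype
  let W : LL.Substructure 𝕄 := Substructure.closure LL (S ∪ Set.range g)
  have hY : #Y < κ := (Cardinal.mk_le_of_injective Subtype.val_injective).trans_lt hZκ
  have hW : #W < κ := by
    apply card_closure_lt hκ
    refine (Cardinal.mk_union_le _ _).trans_lt (Cardinal.add_lt_of_lt hκ.le hS ?_)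
    exact (Cardinal.mk_range_le (f := g)).trans_lt hY
  let E : LL.Substructure D := Substructure.closure LL
    (Set.range (fun a : W => F a) ∪ Set.range G)
  have hE : #E < κ := by
    apply card_closure_lt hκ
    refine (Cardinal.mk_union_le _ _).trans_lt (Cardinal.add_lt_of_lt hκ.le ?_ ?_)
    · exact Cardinal.mk_range_le.trans_lt hW
    · exact (Cardinal.mk_range_le (f := G)).trans_lt hZκ
  have hsub : Set.range (fun a : W => F a) ∪ (Set.range G) ⊆ (E : Set D) :=
    Substructure.subset_closure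
  obtain ⟨kk, hkk⟩ := emb_codRestrict (F.comp W.subtype) E (fun a => hsub (Or.inl ⟨a, rfl⟩))
  have hgW : ∀ y, g y ∈ W := fun y => Substructure.subset_closure (Or.inr ⟨y, rfl⟩)
  have : Nonempty W := ⟨⟨g (Classical.arbitrary Y), hgW _⟩⟩
  obtain ⟨f, hf⟩ := rich hM hs (Good.of_emb E.subtype hD) hE W.subtype kk
  obtain ⟨G', hG'⟩ := emb_codRestrict G E (fun z => hsub (Or.inr ⟨z, rfl⟩))
  refine ⟨f.comp G', ?_, ?_⟩
  · intro y
    have : G' y = kk ⟨g y, hgW y⟩ := by
      apply Subtype.ext
      rw [hG', hkk]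
      exact k1 y
    rw [Embedding.comp_apply, this, hf]
    rfl
  · intro z hz
    have hzW : f (G' z) ∈ W := Substructure.subset_closure (Or.inl hz)
    have h3 : f (G' z) = f (kk ⟨f (G' z), hzW⟩) := (hf ⟨f (G' z), hzW⟩).symm
    have h4 := f.injective h3
    have h5 : G z = F (f (G' z)) := by
      rw [← hG', h4, hkk, ← h4]
      rfl
    obtain ⟨y, hy, -⟩ := k2 z _ h5
    rw [← hy]
    exact y.2

end indep

section span
variable {𝕄 𝕄' : Type w} [LL.Structure 𝕄] [LL.Structure 𝕄']

/-- Two tuples satisfying the same equalities of terms generate isomorphic substructures. -/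
theorem span_of_terms {α : Type*} (v : α → 𝕄) (v' : α → 𝕄')
    (h : ∀ s t : LL.Term α, s.realize v = t.realize v ↔ s.realize v' = t.realize v') :
    ∃ q : Substructure.closure LL (Set.range v) ↪[LL] 𝕄',
      ∀ (s : LL.Term α) (hs : s.realize v ∈ Substructure.closure LL (Set.range v)),
        q ⟨s.realize v, hs⟩ = s.realize v' := by
  have hex : ∀ x : Substructure.closure LL (Set.range v), ∃ s : LL.Term α,
      s.realize v = (x : 𝕄) := by
    rintro ⟨x, hx⟩
    let S : LL.Substructure 𝕄 :=
      { carrier := {x | ∃ s : LL.Term α, s.realize v = x}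
        fun_mem := by
          intro n f xs hxs
          choose s hs using hxs
          exact ⟨Term.func f s, by simp only [Term.realize, hs]⟩ }
    have : Substructure.closure LL (Set.range v) ≤ S := by
      rw [Substructure.closure_le]
      rintro _ ⟨a, rfl⟩
      exact ⟨Term.var a, rfl⟩
    exact this hx
  choose tm htm using hex
  have key : ∀ (s : LL.Term α) (x : Substructure.closure LL (Set.range v)),
      s.realize v = (x : 𝕄) → (tm x).realize v' = s.realize v' := by
    intro s x hx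
    rw [← h, htm, hx]
  refine ⟨mkEmb (fun x => (tm x).realize v') ?_ ?_ ?_ ?_, ?_⟩
  · intro x y hxy
    have : (tm x).realize v = (tm y).realize v := (h _ _).2 hxy
    rw [htm, htm] at this
    exact Subtype.ext this
  · intro x
    have h1 := key (epT true (tm x)) (hd x) (by rw [realize_epT, htm, coe_hd]; rfl)
    rw [h1, realize_epT]
    rfl
  · intro x
    have h1 := key (epT false (tm x)) (tl x) (by rw [realize_epT, htm, coe_tl]; rfl)
    rw [h1, realize_epT]
    rfl
  · intro n s x u
    have h1 := key (ggT n s (tm x) (tm u)) (gg n s x u) (by rw [realize_ggT, htm, htm, coe_gg])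
    rw [h1, realize_ggT]
  · intro s hs
    rw [mkEmb_apply]
    exact key s _ rfl

lemma realize_mem_closure {α : Type*} (v : α → 𝕄) {S : LL.Substructure 𝕄} (hv : ∀ a, v a ∈ S)
    (s : LL.Term α) : s.realize v ∈ S := by
  induction s with
  | var a => exact hv a
  | func f ts ih => exact S.fun_mem f _ ih

lemma exists_term_of_mem_closure {α : Type*} (v : α → 𝕄) {x : 𝕄}
    (hx : x ∈ Substructure.closure LL (Set.range v)) : ∃ s : LL.Term α, s.realize v = x := by
  let S : LL.Substructure 𝕄 :=
    { carrier := {x | ∃ s : LL.Term α, s.realize v = x}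
      fun_mem := by
        intro n f xs hxs
        choose s hs using hxs
        exact ⟨Term.func f s, by simp only [Term.realize, hs]⟩ }
  have : Substructure.closure LL (Set.range v) ≤ S := by
    rw [Substructure.closure_le]
    rintro _ ⟨a, rfl⟩
    exact ⟨Term.var a, rfl⟩
  exact this hx

end span

end Pool.Agent.MP568911
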