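import Pool.Agent.Lib.MP_568911_lc.Imag4

/-!
# The theory is one-based
-/

namespace Pool.Agent.MP568911
open FirstOrder FirstOrder.Language Function Cardinal
universe u v w

section
variable {𝕄 : Type w} [LL.Structure 𝕄]

/-- If `b'` realises the `M`-invariant type `q` over a set containing infinitely many conjugates
over `M` of each element of `P ∖ M`, then `acl^eq(M b') ∩ P ⊆ M`. -/
theorem k5 {κ : Cardinal.{w}} (hκ : ℵ₀ < κ) (hT : IsT 𝕄) (hs : IsSaturated LL 𝕄 κ)
    (M : LL.Substructure 𝕄) (hMne : Nonempty M) (hM : #M < κ)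
    {β : Type} [Finite β] {q : Ultrafilter (β → Imag LL 𝕄)}
    (hq : IsInvariant (eqOf (M : Set 𝕄)) q) (P : Set 𝕄) (hP : #P < κ) :
    ∃ P' : Set 𝕄, #P' < κ ∧ (M : Set 𝕄) ⊆ P' ∧ P ⊆ P' ∧ ∀ b' : β → Imag LL 𝕄,
      RealizesOver (eqOf P') q b' → ∀ c ∈ P,
        re LL c ∈ aclEq (eqOf (M : Set 𝕄) ∪ Set.range b') → c ∈ M := by
  classical
  let f : P × ℕ → 𝕄 := fun z => if h : (z.1 : 𝕄) ∉ M then
    ((infinite_conj hκ hT hs M hMne hM h).natEmbedding _ z.2 : 𝕄) else (z.1 : 𝕄)
  let P' : Set 𝕄 := ((M : Set 𝕄) ∪ P) ∪ Set.range f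
  have hP' : #P' < κ := by
    refine (Cardinal.mk_union_le _ _).trans_lt (Cardinal.add_lt_of_lt hκ.le
      ((Cardinal.mk_union_le _ _).trans_lt (Cardinal.add_lt_of_lt hκ.le hM hP)) ?_)
    refine (Cardinal.mk_range_le (f := f)).trans_lt ?_
    rw [Cardinal.mk_prod]
    refine Cardinal.mul_lt_of_lt hκ.le (by simpa using hP) ?_
    simpa using hκ
  refine ⟨P', hP', Set.subset_union_left.trans Set.subset_union_left,
    Set.subset_union_right.trans Set.subset_union_left, ?_⟩
  intro b' hb' c hcP hc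
  by_contra hcM
  obtain ⟨γ, hγ, φ, e, h1, h2, h3⟩ := hc
  have hMP' : (M : Set 𝕄) ⊆ P' := Set.subset_union_left.trans Set.subset_union_left
  have hcP' : c ∈ P' := Or.inl (Or.inr hcP)
  -- representatives of `b'`
  choose t y hty using fun j => (b' j).exists_rep
  have key : ∀ c' ∈ P', SameType (eqOf (M : Set 𝕄)) (fun _ : Unit => re LL c)
      (fun _ => re LL c') → φ.Realize (Sum.elim (fun _ => re LL c') e) := by
    intro c' hc' hcc
    -- `(c, b')` and `(c', b')` have the same type over `M`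
    have hST : SameType (eqOf (M : Set 𝕄)) (Sum.elim (fun _ : Unit => re LL c) b')
        (Sum.elim (fun _ : Unit => re LL c') b') := by
      intro γ' _ χ d hd
      let eqv : (Unit ⊕ β) ⊕ γ' ≃ β ⊕ (Unit ⊕ γ') :=
        { toFun := fun z => match z with
            | Sum.inl (Sum.inl a) => Sum.inr (Sum.inl a)
            | Sum.inl (Sum.inr b) => Sum.inl b
            | Sum.inr g => Sum.inr (Sum.inr g)
          invFun := fun z => match z with
            | Sum.inr (Sum.inl a) => Sum.inl (Sum.inl a)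
            | Sum.inl b => Sum.inl (Sum.inr b)
            | Sum.inr (Sum.inr g) => Sum.inr g
          left_inv := by rintro ((a | b) | g) <;> rfl
          right_inv := by rintro (b | a | g) <;> rfl }
      obtain ⟨χ', hχ'⟩ := EqFormula.exists_relabel eqv χ
      have hk : ∀ x : 𝕄, χ.Realize (Sum.elim (Sum.elim (fun _ : Unit => re LL x) b') d) ↔
          χ'.Realize (Sum.elim b' (Sum.elim (fun _ : Unit => re LL x) d)) := by
        intro x
        rw [hχ']
        have : (fun i => (Sum.elim b' (Sum.elim (fun _ : Unit => re LL x) d)) (eqv i)) =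
            Sum.elim (Sum.elim (fun _ : Unit => re LL x) b') d := by
          funext z
          rcases z with (a | b) | g <;> rfl
        rw [this]
      have hpar : ∀ x ∈ P', ∀ j, Sum.elim (fun _ : Unit => re LL x) d j ∈ eqOf (L := LL) P' := by
        rintro x hx (j | j)
        · exact re_mem_eqOf hx
        · exact eqOf_mono hMP' (hd j)
      rw [hk, hk, hb' _ χ' _ (hpar c hcP'), hb' _ χ' _ (hpar c' hc')]
      apply hq
      intro γ'' _ θ d' hd'
      obtain ⟨θ', hθ'⟩ := EqFormula.exists_relabel (Equiv.sumAssoc Unit γ' γ'') θ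
      have hk2 : ∀ x : 𝕄, θ.Realize (Sum.elim (Sum.elim (fun _ : Unit => re LL x) d) d') ↔
          θ'.Realize (Sum.elim (fun _ : Unit => re LL x) (Sum.elim d d')) := by
        intro x
        rw [hθ']
        have : (fun i => (Sum.elim (fun _ : Unit => re LL x) (Sum.elim d d'))
            (Equiv.sumAssoc Unit γ' γ'' i)) =
            Sum.elim (Sum.elim (fun _ : Unit => re LL x) d) d' := by
          funext z
          rcases z with (z | z) | z <;> rfl
        rw [this]
      rw [hk2, hk2]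
      apply hcc
      rintro (j | j)
      · exact hd j
      · exact hd' j
    -- extend to a partial isomorphism
    let Zs : LL.Substructure 𝕄 := Substructure.closure LL
      ((M : Set 𝕄) ∪ insert c (Set.range fun z : Σ j, Fin (t j).n => y z.1 z.2))
    have hsub : ((M : Set 𝕄) ∪ insert c (Set.range fun z : Σ j, Fin (t j).n => y z.1 z.2)) ⊆
      (Zs : Set 𝕄) := Substructure.subset_closure
    have hZ : #Zs < κ := card_closure_lt hκ ((Cardinal.mk_union_le _ _).trans_lt
      (Cardinal.add_lt_of_lt hκ.le hM (((Set.finite_range _).insert c).lt_aleph0.trans hκ)))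
    have hcZ : c ∈ Zs := hsub (Or.inr (Set.mem_insert _ _))
    have hyZ : ∀ j l, y j l ∈ Zs := fun j l => hsub (Or.inr (Set.mem_insert_of_mem _ ⟨⟨j, l⟩, rfl⟩))
    have hMs : (M : Set 𝕄).Nonempty := by
      obtain ⟨m⟩ := hMne
      exact ⟨m, m.2⟩
    have : Nonempty Zs := ⟨⟨c, hcZ⟩⟩
    let vv : ∀ i : Unit ⊕ β,
        Fin ((Sum.elim (fun _ : Unit => realSort LL 𝕄) t : Unit ⊕ β → ESort LL 𝕄) i).n → Zs :=
      fun i => match i with
        | Sum.inl _ => fun _ => (⟨c, hcZ⟩ : Zs)
        | Sum.inr j => fun l => ⟨y j l, hyZ j l⟩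
    obtain ⟨g, hg1, hg2⟩ := k2 hκ hs hZ Zs.subtype hMs hM
      (Sum.elim (fun _ : Unit => realSort LL 𝕄) t) vv
      (Sum.elim (fun _ : Unit => re LL c') b') (by
        have : (fun i : Unit ⊕ β => Imag.mk ((Sum.elim (fun _ : Unit => realSort LL 𝕄) t) i)
            (fun l => Zs.subtype (vv i l))) = Sum.elim (fun _ : Unit => re LL c) b' := by
          funext i
          rcases i with i | j
          · rfl
          · exact (hty j).symm
        rw [this]
        exact hST)
    rw [← elem_moves hκ hT hs hZ Zs.subtype g φ (Sum.elim (fun _ => re LL c) e)]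
    · exact h2
    · have hcm : Moves Zs.subtype g (re LL c) (re LL c') :=
        ⟨realSort LL 𝕄, fun _ => ⟨c, hcZ⟩, rfl, hg2 (Sum.inl ())⟩
      rintro (_ | j)
      · exact hcm
      · rcases h1 j with hj | ⟨k, hk⟩
        · refine moves_eqOf (M := (M : Set 𝕄)) ?_ _ hj
          intro x hx
          have hxZ : x ∈ Zs := hsub (Or.inl hx)
          exact ⟨⟨x, hxZ⟩, rfl, hg1 ⟨x, hxZ⟩ hx⟩
        · change Moves Zs.subtype g (e j) (e j)
          rw [← hk]
          exact ⟨t k, fun l => ⟨y k l, hyZ k l⟩, hty k, hg2 (Sum.inr k)⟩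
  -- infinitely many solutions
  have hinf := infinite_conj hκ hT hs M hMne hM hcM
  have hcont : Set.range (fun n => re LL ((hinf.natEmbedding _ n : 𝕄))) ⊆
      {e' | φ.Realize (Sum.elim (fun _ => e') e)} := by
    rintro _ ⟨n, rfl⟩
    refine key _ (Or.inr ⟨(⟨c, hcP⟩, n), ?_⟩) (hinf.natEmbedding _ n).2
    simp only [f, dif_pos hcM]
  refine (Set.infinite_range_of_injective ?_).mono hcont h3
  intro n n' h
  have := re_injective h
  exact (hinf.natEmbedding _).injective (Subtype.ext this)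

/-- One step of the construction of a good Morley sequence. -/
theorem morley_step {κ : Cardinal.{w}} (hκ : ℵ₀ < κ) (hT : IsT 𝕄) (hs : IsSaturated LL 𝕄 κ)
    (M : LL.Substructure 𝕄) (hMne : Nonempty M) (hM : #M < κ)
    {β : Type} [Finite β] {q : Ultrafilter (β → Imag LL 𝕄)}
    (hq : IsInvariant (eqOf (M : Set 𝕄)) q)
    (SY : LL.Substructure 𝕄) (hSY : #SY < κ) (hMSY : M ≤ SY)
    (t : β → ESort LL 𝕄) (u : ∀ j, Fin (t j).n → SY)
    (hb : RealizesOver (eqOf (M : Set 𝕄)) q (fun j => Imag.mk (t j) (fun l => (u j l : 𝕄))))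
    (P : Set 𝕄) (hP : #P < κ) :
    ∃ g : SY ↪[LL] 𝕄, (∀ y : SY, (y : 𝕄) ∈ M → g y = y) ∧
      RealizesOver (eqOf P) q (fun j => Imag.mk (t j) (fun l => g (u j l))) ∧
      ∀ y, g y ∈ P → g y ∈ M := by
  classical
  obtain ⟨P', hP', hMP', hPP', hk5⟩ := k5 hκ hT hs M hMne hM hq P hP
  have hqs : ∀ᶠ x in (q : Filter (β → Imag LL 𝕄)), ∃ v : ∀ i, Fin (t i).n → 𝕄,
      ∀ i, x i = Imag.mk (t i) (v i) := by
    have h1 := hb Empty ⟨Sum.elim t (fun e => e.elim), ⊤⟩ (fun e => e.elim) (fun e => e.elim)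
    have h2 : (EqFormula.mk (Sum.elim t (fun e : Empty => e.elim)) ⊤ :
        EqFormula LL 𝕄 (β ⊕ Empty)).Realize
        (Sum.elim (fun j => Imag.mk (t j) (fun l => (u j l : 𝕄))) (fun e => e.elim)) := by
      refine ⟨fun i => match i with
        | Sum.inl j => fun l => (u j l : 𝕄)
        | Sum.inr e => e.elim, ?_, ?_⟩
      · rintro (j | e)
        · rfl
        · exact e.elim
      · exact Formula.realize_top.2 trivial
    filter_upwards [h1.1 h2] with x hx
    obtain ⟨v, hv, -⟩ := hx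
    exact ⟨fun i => v (Sum.inl i), fun i => hv (Sum.inl i)⟩
  obtain ⟨y, hy⟩ := k6 hκ hs q t hqs P' hP'
  have hMs : (M : Set 𝕄).Nonempty := by
    obtain ⟨m⟩ := hMne
    exact ⟨m, m.2⟩
  obtain ⟨g0, hg1, hg2⟩ := k2 hκ hs hSY SY.subtype hMs hM t u
    (fun i => Imag.mk (t i) (y i)) (SameType.of_realizes hb (hy.mono (eqOf_mono hMP')))
  have hg0M : ∀ z : SY, (z : 𝕄) ∈ M → g0 z = z := fun z hz => hg1 z hz
  obtain ⟨g1, h1, h2, h3⟩ := k3 hκ hT hs hSY g0 hMs hM
    (fun x hx => ⟨⟨x, hMSY hx⟩, hg0M ⟨x, hMSY hx⟩ hx⟩)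
    (Λ := ULift.{w} β) (fun i => t i.down) (fun i => u i.down) P hP
  refine ⟨g1, ?_, ?_, ?_⟩
  · intro z hz
    have := h1 z (by rw [hg0M z hz]; exact hz)
    rw [this, hg0M z hz]
  · have e1 : (fun j => Imag.mk (t j) (fun l => g1 (u j l))) = fun i => Imag.mk (t i) (y i) := by
      funext j
      rw [hg2 j]
      exact (h2 ⟨j⟩).symm
    rw [e1]
    exact hy.mono (eqOf_mono hPP')
  · intro z hz
    refine hk5 _ hy _ hz ?_
    have := h3 z hz
    have e2 : Set.range (fun i : ULift.{w} β => Imag.mk (t i.down) (fun l => g0 (u i.down l))) =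
        Set.range (fun i => Imag.mk (t i) (y i)) := by
      ext e
      constructor
      · rintro ⟨i, rfl⟩
        exact ⟨i.down, (hg2 i.down)⟩
      · rintro ⟨i, rfl⟩
        exact ⟨⟨i⟩, (hg2 i).symm⟩
    rw [e2] at this
    exact this

end

end Pool.Agent.MP568911
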