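import Pool.Agent.Lib.MP_568911_lc.OneBased

/-!
# The theory is one-based (end of the proof)
-/

namespace Pool.Agent.MP568911
open FirstOrder FirstOrder.Language Function Cardinal
universe u v w

section
variable {𝕄 : Type w} [LL.Structure 𝕄]

lemma mk_prod_nat_lt {κ : Cardinal.{w}} (hκ : ℵ₀ < κ) {T : Type w} (hT : #T < κ) :
    #(ℕ × T) < κ := by
  rw [Cardinal.mk_prod]
  refine Cardinal.mul_lt_of_lt hκ.le ?_ (by simpa using hT)
  simpa using hκ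

lemma card_range_lt {κ : Cardinal.{w}} {T : Type w} (hT : #T < κ) (f : T → 𝕄) :
    #(Set.range f) < κ := (Cardinal.mk_range_le (f := f)).trans_lt hT

/-- Independent covers: no Kim-dividing. -/
theorem not_kimDivides {κ : Cardinal.{w}} (hκ : ℵ₀ < κ) (hT : IsT 𝕄) (hs : IsSaturated LL 𝕄 κ)
    (M : LL.Substructure 𝕄) (hMne : Nonempty M) (hM : #M < κ)
    (SX SY : LL.Substructure 𝕄) (hSX : #SX < κ) (hSY : #SY < κ) (hMX : M ≤ SX) (hMY : M ≤ SY)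
    (hXY : ∀ x, x ∈ SX → x ∈ SY → x ∈ M)
    {α β : Type} [Finite α] [Finite β] (φ : EqFormula LL 𝕄 (α ⊕ β)) (a : α → Imag LL 𝕄)
    (b : β → Imag LL 𝕄) (ha : ∀ i, a i ∈ eqOf (SX : Set 𝕄)) (hb : ∀ j, b j ∈ eqOf (SY : Set 𝕄))
    (hφ : φ.Realize (Sum.elim a b)) : ¬ KimDivides (M : Set 𝕄) φ b := by
  classical
  rintro ⟨q, hq, hbq, bs, hbs, N, hN⟩
  choose s v hv ha' using ha
  choose t u hu hb' using hb
  have hbq' : RealizesOver (eqOf (M : Set 𝕄)) q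
      (fun j => Imag.mk (t j) (fun l => ((⟨u j l, hu j l⟩ : SY) : 𝕄))) := by
    have : (fun j => Imag.mk (t j) (fun l => ((⟨u j l, hu j l⟩ : SY) : 𝕄))) = b :=
      funext fun j => (hb' j).symm
    rw [this]
    exact hbq
  choose g hg1 hg2 hg3 using fun P : {P : Set 𝕄 // #P < κ} =>
    morley_step hκ hT hs M hMne hM hq SY hSY hMY t (fun j l => ⟨u j l, hu j l⟩) hbq' P.1 P.2
  let nx : {P : Set 𝕄 // #P < κ} → {P : Set 𝕄 // #P < κ} := fun P =>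
    ⟨P.1 ∪ Set.range (g P), (Cardinal.mk_union_le _ _).trans_lt
      (Cardinal.add_lt_of_lt hκ.le P.2 (card_range_lt hSY (g P)))⟩
  let Pn : ℕ → {P : Set 𝕄 // #P < κ} := fun n => Nat.rec ⟨(M : Set 𝕄), hM⟩ (fun _ P => nx P) n
  have hPn : ∀ n, Pn (n + 1) = nx (Pn n) := fun n => rfl
  have hmono : ∀ l k, l ≤ k → (Pn l).1 ⊆ (Pn k).1 := by
    intro l k hlk
    induction k, hlk using Nat.le_induction with
    | base => exact subset_rfl
    | succ k _ ih =>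
      refine ih.trans ?_
      rw [hPn]
      exact Set.subset_union_left
  have hMP : ∀ k, (M : Set 𝕄) ⊆ (Pn k).1 := fun k => hmono 0 k (Nat.zero_le _)
  let gn : ℕ → (SY ↪[LL] 𝕄) := fun n => g (Pn n)
  have hgM : ∀ n (y : SY), (y : 𝕄) ∈ M → gn n y = y := fun n y hy => hg1 (Pn n) y hy
  have hrange : ∀ l k, l < k → ∀ y, gn l y ∈ (Pn k).1 := by
    intro l k hlk y
    apply hmono (l + 1) k hlk
    rw [hPn]
    exact Or.inr ⟨y, rfl⟩
  let b' : ℕ → β → Imag LL 𝕄 := fun n j => Imag.mk (t j) (fun l => gn n ⟨u j l, hu j l⟩)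
  have hb'M : IsMorley (eqOf (M : Set 𝕄)) q b' := by
    intro i
    refine (hg2 (Pn i)).mono ?_
    rintro e (he | ⟨j, hj, k, rfl⟩)
    · exact eqOf_mono (hMP i) he
    · exact ⟨t k, _, fun l => hrange j i hj _, rfl⟩
  -- coincidences
  have hcoin : ∀ i k, i < k → ∀ y y' : SY, gn i y = gn k y' → (y : 𝕄) ∈ M ∧ y = y' := by
    intro i k hik y y' h
    have h1 : gn k y' ∈ M := hg3 (Pn k) y' (by
      change gn k y' ∈ (Pn k).1
      rw [← h]
      exact hrange i k hik y)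
    have h2 : y' = ⟨gn k y', hMY h1⟩ := by
      apply (gn k).injective
      rw [hgM k ⟨gn k y', hMY h1⟩ h1]
    have h3 : y = ⟨gn k y', hMY h1⟩ := by
      apply (gn i).injective
      rw [hgM i ⟨gn k y', hMY h1⟩ h1, h]
    refine ⟨?_, h3.trans h2.symm⟩
    rw [h3]
    exact h1
  -- the structure generated by `SX ∪ SY`
  let Zc : LL.Substructure 𝕄 := Substructure.closure LL ((SX : Set 𝕄) ∪ SY)
  have hsub : ((SX : Set 𝕄) ∪ SY) ⊆ (Zc : Set 𝕄) := Substructure.subset_closure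
  have hZ : #Zc < κ := card_closure_lt hκ ((Cardinal.mk_union_le _ _).trans_lt
    (Cardinal.add_lt_of_lt hκ.le hSX hSY))
  let X : LL.Substructure Zc := SX.comap Zc.subtype.toHom
  let Y : LL.Substructure Zc := SY.comap Zc.subtype.toHom
  obtain ⟨yy, hyy⟩ := emb_codRestrict (Zc.subtype.comp Y.subtype) SY (fun y => y.2)
  have hyy' : ∀ y : Y, yy y = ⟨((y : Zc) : 𝕄), y.2⟩ := fun y => Subtype.ext (hyy y)
  obtain ⟨m0⟩ := hMne
  have hMne : Nonempty M := ⟨m0⟩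
  have hm0Z : (m0 : 𝕄) ∈ Zc := hsub (Or.inl (hMX m0.2))
  have : Nonempty Zc := ⟨⟨m0, hm0Z⟩⟩
  obtain ⟨G, hG1, hG2⟩ := indep hκ hT hs (Z := Zc) (Good.of_emb Zc.subtype hT.1) hZ X Y
    (fun n : ℕ => (gn n).comp yy) (by
      intro i k hik y y' h
      rw [Embedding.comp_apply, Embedding.comp_apply] at h
      have : ((yy y : SY) : 𝕄) ∈ M ∧ yy y = yy y' := by
        rcases lt_or_gt_of_ne hik with h' | h'
        · exact hcoin i k h' _ _ h
        · obtain ⟨h1, h2⟩ := hcoin k i h' _ _ h.symm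
          exact ⟨h2 ▸ h1, h2.symm⟩
      refine ⟨yy.injective this.2, hMX ?_⟩
      have h3 := this.1
      rw [hyy'] at h3
      exact h3) (by
      intro i k y hy
      rw [Embedding.comp_apply, Embedding.comp_apply, hyy']
      have h1 : ((y : Zc) : 𝕄) ∈ M := hXY _ hy y.2
      rw [hgM i _ h1, hgM k _ h1]) ⟨m0, hm0Z⟩ (hMX m0.2) (hMY m0.2)
  have hvZ : ∀ i l, v i l ∈ Zc := fun i l => hsub (Or.inl (hv i l))
  have huZ : ∀ j l, u j l ∈ Zc := fun j l => hsub (Or.inr (hu j l))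
  let as : α → Imag LL 𝕄 := fun i => Imag.mk (s i) (fun l => G 0 ⟨v i l, hvZ i l⟩)
  have hGu : ∀ n j l, G n ⟨u j l, huZ j l⟩ = gn n ⟨u j l, hu j l⟩ := by
    intro n j l
    have h1 := hG1 n ⟨⟨u j l, huZ j l⟩, hu j l⟩
    rw [Embedding.comp_apply, hyy'] at h1
    exact h1
  have hreal : ∀ n, φ.Realize (Sum.elim as (b' n)) := by
    intro n
    rw [← elem_moves hκ hT hs hZ Zc.subtype (G n) φ (Sum.elim a b)]
    · exact hφ
    · rintro (i | j)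
      · refine ⟨s i, fun l => ⟨v i l, hvZ i l⟩, ha' i, ?_⟩
        change as i = _
        simp only [as]
        congr 1
        funext l
        exact hG2 0 n _ (hv i l)
      · refine ⟨t j, fun l => ⟨u j l, huZ j l⟩, hb' j, ?_⟩
        change b' n j = _
        simp only [b', hGu]
  -- transfer to the given Morley sequence
  let Zs : LL.Substructure 𝕄 := Substructure.closure LL (Set.range fun z : ℕ × Zc => G z.1 z.2)
  have hZs : #Zs < κ := card_closure_lt hκ (card_range_lt (mk_prod_nat_lt hκ hZ) _)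
  have hGZ : ∀ n z, G n z ∈ Zs := fun n z => Substructure.subset_closure ⟨(n, z), rfl⟩
  have : Nonempty Zs := ⟨⟨_, hGZ 0 ⟨m0, hm0Z⟩⟩⟩
  have hMs : (M : Set 𝕄).Nonempty := ⟨m0, m0.2⟩
  obtain ⟨f, -, hf2⟩ := k2 hκ hs hZs Zs.subtype hMs hM (α := Fin N × β) (fun z => t z.2)
    (fun z l => ⟨G z.1 ⟨u z.2 l, huZ z.2 l⟩, hGZ _ _⟩) (fun z => bs z.1 z.2) (by
      have h1 := k7 hq hb'M hbs N
      have h2 : (fun z : Fin N × β => b' z.1 z.2) = fun z : Fin N × β => Imag.mk (t z.2)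
          (fun l => Zs.subtype (⟨G z.1 ⟨u z.2 l, huZ z.2 l⟩, hGZ _ _⟩ : Zs)) := by
        funext z
        simp only [b']
        congr 1
        funext l
        exact (hGu z.1 z.2 l).symm
      rw [h2] at h1
      exact h1)
  apply hN
  refine ⟨fun i => Imag.mk (s i) (fun l => f ⟨G 0 ⟨v i l, hvZ i l⟩, hGZ _ _⟩), fun n hn => ?_⟩
  rw [← elem_moves hκ hT hs hZs Zs.subtype f φ (Sum.elim as (b' n))]
  · exact hreal n
  · rintro (i | j)
    · exact ⟨s i, fun l => ⟨G 0 ⟨v i l, hvZ i l⟩, hGZ _ _⟩, rfl, rfl⟩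
    · refine ⟨t j, fun l => ⟨G n ⟨u j l, huZ j l⟩, hGZ _ _⟩, ?_, hf2 (⟨n, hn⟩, j)⟩
      change b' n j = _
      simp only [b']
      congr 1
      funext l
      exact (hGu n j l).symm

lemma mem_aclEq {C : Set (Imag LL 𝕄)} {e : Imag LL 𝕄} (he : e ∈ C) : e ∈ aclEq C := by
  obtain ⟨s, v, rfl⟩ := e.exists_rep
  let φ : EqFormula LL 𝕄 (Unit ⊕ Unit) :=
    ⟨fun _ => s, s.E.relabel (Sum.elim (fun l => ⟨Sum.inl (), l⟩) (fun l => ⟨Sum.inr (), l⟩))⟩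
  have hφ : ∀ e', φ.Realize (Sum.elim (fun _ => e') (fun _ => Imag.mk s v)) ↔
      e' = Imag.mk s v := by
    intro e'
    constructor
    · rintro ⟨w, h1, h2⟩
      have h3 : e' = Imag.mk s (w (Sum.inl ())) := h1 (Sum.inl ())
      have h4 : Imag.mk s v = Imag.mk s (w (Sum.inr ())) := h1 (Sum.inr ())
      rw [h3, h4, Imag.mk_eq_iff]
      simp only [φ] at h2
      rw [Formula.realize_relabel] at h2
      refine (iff_of_eq ?_).mp h2
      congr 1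
      funext q
      rcases q with q | q <;> rfl
    · rintro rfl
      refine ⟨fun _ => v, ?_, ?_⟩
      · rintro (i | i) <;> rfl
      · simp only [φ]
        rw [Formula.realize_relabel]
        have h5 := (Imag.mk_eq_iff s v v).1 rfl
        refine (iff_of_eq ?_).mp h5
        congr 1
        funext q
        rcases q with q | q <;> rfl
  refine ⟨Unit, inferInstance, φ, fun _ => Imag.mk s v, fun _ => he, (hφ _).2 rfl, ?_⟩
  have : {e' | φ.Realize (Sum.elim (fun _ => e') (fun _ => Imag.mk s v))} = {Imag.mk s v} := by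
    ext e'
    exact hφ e'
  rw [this]
  exact Set.finite_singleton _

/-- **The theory is one-based.** -/
theorem oneBased [Nonempty 𝕄] {κ : Cardinal.{w}} (hκ : ℵ₀ < κ) (hT : IsT 𝕄)
    (hs : IsSaturated LL 𝕄 κ) : IsOneBasedIn LL 𝕄 κ := by
  classical
  intro M A B hM hA hB hKF
  let M0 : LL.Substructure 𝕄 := M.toSubstructure
  have hM0κ : #M0 < κ := hM
  have hne : Nonempty M0 := by
    have h1 : LL.ElementarilyEquivalent M 𝕄 := M.subtype.elementarilyEquivalent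
    exact h1.symm.nonempty
  have hMs : (M0 : Set 𝕄).Nonempty := by
    obtain ⟨m⟩ := hne
    exact ⟨m, m.2⟩
  refine ⟨fun e he => ⟨mem_aclEq (Or.inr he), mem_aclEq (Or.inr he)⟩, fun hsub => ?_⟩
  obtain ⟨α, _, a, haA, ι, _, β, _, φ, b, hKD, hcov⟩ := hKF
  -- covers of `a` and `B`
  choose s v hv using fun i => (a i).exists_rep
  choose sB vB hvB using fun e : B => (e : Imag LL 𝕄).exists_rep
  let X0 : LL.Substructure 𝕄 := Substructure.closure LL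
    ((M0 : Set 𝕄) ∪ Set.range fun z : Σ i, Fin (s i).n => v z.1 z.2)
  have hX0 : #X0 < κ := card_closure_lt hκ ((Cardinal.mk_union_le _ _).trans_lt
    (Cardinal.add_lt_of_lt hκ.le hM0κ ((Set.finite_range _).lt_aleph0.trans hκ)))
  have hX0sub : ((M0 : Set 𝕄) ∪ Set.range fun z : Σ i, Fin (s i).n => v z.1 z.2) ⊆
    (X0 : Set 𝕄) := Substructure.subset_closure
  have hBcard : #(Σ e : B, Fin (sB e).n) < κ := by
    refine (Cardinal.mk_le_of_injective (f := fun z : Σ e : B, Fin (sB e).n =>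
      ((z.2 : ℕ), z.1)) ?_).trans_lt (mk_prod_nat_lt hκ hB)
    rintro ⟨e, l⟩ ⟨e', l'⟩ h
    simp only [Prod.mk.injEq] at h
    obtain ⟨h1, rfl⟩ := h
    congr 1
    exact Fin.ext h1
  let Y0 : LL.Substructure 𝕄 := Substructure.closure LL
    ((M0 : Set 𝕄) ∪ Set.range fun z : Σ e : B, Fin (sB e).n => vB z.1 z.2)
  have hY0 : #Y0 < κ := card_closure_lt hκ ((Cardinal.mk_union_le _ _).trans_lt
    (Cardinal.add_lt_of_lt hκ.le hM0κ (card_range_lt hBcard _)))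
  have hY0sub : ((M0 : Set 𝕄) ∪ Set.range fun z : Σ e : B, Fin (sB e).n => vB z.1 z.2) ⊆
    (Y0 : Set 𝕄) := Substructure.subset_closure
  have hMX0 : M0 ≤ X0 := fun x hx => hX0sub (Or.inl hx)
  have hMY0 : M0 ≤ Y0 := fun x hx => hY0sub (Or.inl hx)
  have hvX0 : ∀ i l, v i l ∈ X0 := fun i l => hX0sub (Or.inr ⟨⟨i, l⟩, rfl⟩)
  have hvY0 : ∀ e l, vB e l ∈ Y0 := fun e l => hY0sub (Or.inr ⟨⟨e, l⟩, rfl⟩)
  -- moving `X0`
  obtain ⟨q1, h11, h12, h13⟩ := k3 hκ hT hs hX0 X0.subtype hMs hM0κ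
    (fun x hx => ⟨⟨x, hMX0 hx⟩, rfl⟩) (Λ := ULift.{w} α) (fun i => s i.down)
    (fun i l => ⟨v i.down l, hvX0 i.down l⟩) (Y0 : Set 𝕄) hY0
  have hfix1 : ∀ (x : 𝕄) (hx : x ∈ M0), q1 ⟨x, hMX0 hx⟩ = x := fun x hx =>
    h11 ⟨x, hMX0 hx⟩ hx
  have ha1 : ∀ i, a i = Imag.mk (s i) (fun l => q1 ⟨v i l, hvX0 i l⟩) := fun i =>
    (hv i).trans (h12 ⟨i⟩)
  let SX : LL.Substructure 𝕄 := q1.toHom.range
  have hSXmem : ∀ x, x ∈ SX ↔ ∃ z, q1 z = x := fun x => Iff.rfl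
  have hSX : #SX < κ := card_range_lt hX0 q1
  have hMX : M0 ≤ SX := fun x hx => ⟨⟨x, hMX0 hx⟩, hfix1 x hx⟩
  have haSX : ∀ i, ∃ w : Fin (s i).n → 𝕄, (∀ l, w l ∈ SX) ∧ a i = Imag.mk (s i) w := fun i =>
    ⟨_, fun l => ⟨_, rfl⟩, ha1 i⟩
  have hX1 : ∀ x, x ∈ SX → x ∈ Y0 → re LL x ∈ aclEq (A ∪ eqOf (M : Set 𝕄)) := by
    rintro x ⟨z, rfl⟩ hx
    refine aclEq_mono ?_ (h13 z hx)
    rintro e (he | ⟨i, rfl⟩)
    · exact Or.inr he
    · refine Or.inl ?_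
      have := haA i.down
      rw [hv] at this
      exact this
  -- moving `Y0`
  obtain ⟨q2, h21, h22, h23⟩ := k3 hκ hT hs hY0 Y0.subtype hMs hM0κ
    (fun x hx => ⟨⟨x, hMY0 hx⟩, rfl⟩) (Λ := B) sB
    (fun e l => ⟨vB e l, hvY0 e l⟩) (SX : Set 𝕄) hSX
  have hfix2 : ∀ (x : 𝕄) (hx : x ∈ M0), q2 ⟨x, hMY0 hx⟩ = x := fun x hx =>
    h21 ⟨x, hMY0 hx⟩ hx
  let SY : LL.Substructure 𝕄 := q2.toHom.range
  have hSY : #SY < κ := card_range_lt hY0 q2
  have hMY : M0 ≤ SY := fun x hx => ⟨⟨x, hMY0 hx⟩, hfix2 x hx⟩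
  have hBSY : B ⊆ eqOf (SY : Set 𝕄) := by
    intro e he
    exact ⟨sB ⟨e, he⟩, fun l => q2 ⟨vB ⟨e, he⟩ l, hvY0 _ _⟩, fun l => ⟨_, rfl⟩,
      (hvB ⟨e, he⟩).trans (h22 ⟨e, he⟩)⟩
  have hBY0 : B ∪ eqOf (M : Set 𝕄) ⊆ eqOf (Y0 : Set 𝕄) := by
    rintro e (he | he)
    · exact ⟨sB ⟨e, he⟩, vB ⟨e, he⟩, fun l => hvY0 _ _, hvB ⟨e, he⟩⟩
    · exact eqOf_mono hMY0 he
  have hneY0 : Nonempty Y0 := by
    obtain ⟨m⟩ := hne
    exact ⟨⟨m, hMY0 m.2⟩⟩
  have hXY : ∀ x, x ∈ SX → x ∈ SY → x ∈ M0 := by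
    rintro x hx ⟨z, rfl⟩
    have h1 : re LL (q2 z) ∈ aclEq (B ∪ eqOf (M : Set 𝕄)) := by
      refine aclEq_mono ?_ (h23 z hx)
      rintro e (he | ⟨i, rfl⟩)
      · exact Or.inr he
      · refine Or.inl ?_
        have := i.2
        rw [hvB i] at this
        exact this
    have h2 : q2 z ∈ Y0 := acl_real hκ hT hs Y0 hneY0 hY0 hBY0 h1
    have h3 := hX1 _ hx h2
    exact mem_of_re_mem_eqOf hκ hT hs M0 hne hM0κ (hsub ⟨h3, h1⟩)
  -- parameters of the Kim-dividing formulas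
  choose t u hu using fun (i : ι) (j : β i) => (b i j).exists_rep
  let Y' : LL.Substructure 𝕄 := Substructure.closure LL
    ((SY : Set 𝕄) ∪ Set.range fun z : Σ i : ι, Σ j : β i, Fin (t i j).n => u z.1 z.2.1 z.2.2)
  have hY' : #Y' < κ := card_closure_lt hκ ((Cardinal.mk_union_le _ _).trans_lt
    (Cardinal.add_lt_of_lt hκ.le hSY ((Set.finite_range _).lt_aleph0.trans hκ)))
  have hY'sub : ((SY : Set 𝕄) ∪ Set.range fun z : Σ i : ι, Σ j : β i, Fin (t i j).n =>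
    u z.1 z.2.1 z.2.2) ⊆ (Y' : Set 𝕄) := Substructure.subset_closure
  let Zc : LL.Substructure 𝕄 := Substructure.closure LL ((SX : Set 𝕄) ∪ SY)
  have hZsub : ((SX : Set 𝕄) ∪ SY) ⊆ (Zc : Set 𝕄) := Substructure.subset_closure
  have hZ : #Zc < κ := card_closure_lt hκ ((Cardinal.mk_union_le _ _).trans_lt
    (Cardinal.add_lt_of_lt hκ.le hSX hSY))
  let Y : LL.Substructure Zc := SY.comap Zc.subtype.toHom
  obtain ⟨m0⟩ := hne
  have hne : Nonempty M0 := ⟨m0⟩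
  have hm0Z : (m0 : 𝕄) ∈ Zc := hZsub (Or.inl (hMX m0.2))
  have : Nonempty Zc := ⟨⟨m0, hm0Z⟩⟩
  have : Nonempty Y := ⟨⟨⟨m0, hm0Z⟩, hMY m0.2⟩⟩
  obtain ⟨G, hG1, hG2⟩ := free hκ hT hs (Good.of_emb Zc.subtype hT.1) hZ Y
    (Zc.subtype.comp Y.subtype) (Y' : Set 𝕄) hY'
  have hGY : ∀ (x : 𝕄) (hx : x ∈ SY), G ⟨x, hZsub (Or.inr hx)⟩ = x := fun x hx =>
    hG1 ⟨⟨x, hZsub (Or.inr hx)⟩, hx⟩
  choose w hw1 hw2 using haSX
  let a' : α → Imag LL 𝕄 := fun i => Imag.mk (s i) (fun l => G ⟨w i l, hZsub (Or.inl (hw1 i l))⟩)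
  have hST : SameType (eqOf (M : Set 𝕄) ∪ B) a a' := by
    refine sameType_of_moves hκ hT hs hZ Zc.subtype G a a'
      (fun i => ⟨s i, fun l => ⟨w i l, hZsub (Or.inl (hw1 i l))⟩, hw2 i, rfl⟩) _ ?_
    intro e he
    refine moves_eqOf (M := (SY : Set 𝕄)) ?_ e ?_
    · intro x hx
      exact ⟨⟨x, hZsub (Or.inr hx)⟩, rfl, hGY x hx⟩
    · rcases he with he | he
      · exact eqOf_mono hMY he
      · exact hBSY he
  obtain ⟨i, hi⟩ := hcov a' hST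
  -- the new cover of `a'`
  obtain ⟨gX, hgX⟩ := emb_codRestrict SX.subtype Zc (fun x => hZsub (Or.inl x.2))
  let SX' : LL.Substructure 𝕄 := (G.comp gX).toHom.range
  have hSX' : #SX' < κ := card_range_lt hSX (G.comp gX)
  refine not_kimDivides hκ hT hs M0 hne hM0κ SX' Y' hSX' hY' ?_ ?_ ?_ (φ i) a' (b i) ?_ ?_ hi
    (hKD i)
  · intro x hx
    refine ⟨⟨x, hMX hx⟩, ?_⟩
    change G (gX ⟨x, hMX hx⟩) = x
    have : gX ⟨x, hMX hx⟩ = ⟨x, hZsub (Or.inr (hMY hx))⟩ := Subtype.ext (hgX _)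
    rw [this]
    exact hGY x (hMY hx)
  · exact fun x hx => hY'sub (Or.inl (hMY hx))
  · rintro x ⟨z, rfl⟩ hx
    have h1 : gX z ∈ Y := hG2 _ hx
    have h2 : ((gX z : Zc) : 𝕄) ∈ SY := h1
    have h3 : ((gX z : Zc) : 𝕄) = z := hgX z
    have h4 : (z : 𝕄) ∈ M0 := hXY _ z.2 (h3 ▸ h2)
    change G (gX z) ∈ M0
    have h5 : gX z = ⟨z, hZsub (Or.inr (hMY h4))⟩ := Subtype.ext h3
    rw [h5, hGY _ (hMY h4)]
    exact h4
  · intro j
    refine ⟨s j, fun l => G ⟨w j l, hZsub (Or.inl (hw1 j l))⟩, fun l => ?_, rfl⟩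
    refine ⟨⟨w j l, hw1 j l⟩, ?_⟩
    change G (gX ⟨w j l, hw1 j l⟩) = _
    congr 1
    exact Subtype.ext (hgX _)
  · intro j
    exact ⟨t i j, u i j, fun l => hY'sub (Or.inr ⟨⟨i, j, l⟩, rfl⟩), hu i j⟩

end

end Pool.Agent.MP568911
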