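import Pool.Agent.Lib.MP_568911_lc.Amalg
import Pool.Agent.Lib.MP_568911_lc.FO
import Pool.Agent.Lib.MP_568911_lc.Defs

/-!
# Saturated models are rich; quantifier elimination over nonempty substructures
-/

namespace Pool.Agent.MP568911
open FirstOrder FirstOrder.Language Function Cardinal
universe u v w

section pat
variable {B : Type w} [LL.Structure B] (hB : Good B) (R : LL.Substructure B) (F : Finset B)
  (a0 : F) (ha0 : (a0 : B) ∈ R) (n0 : ℕ)

open Classical in
/-- The pattern given by a finite subset of a structure. -/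
noncomputable def patOf : Pat where
  k := F.card
  n0 := n0
  a0 := F.equivFin a0
  old x := decide ((F.equivFin.symm x : B) ∈ R)
  H i x := if h : ep i (F.equivFin.symm x : B) ∈ F then some (F.equivFin ⟨_, h⟩) else none
  G n s x y := if h : gg n s (F.equivFin.symm x : B) (F.equivFin.symm y : B) ∈ F then
    some (F.equivFin ⟨_, h⟩) else none
  old_a0 := by simpa using ha0
  oldH := by
    intro i a b ha hab
    simp only [decide_eq_true_eq] at ha ⊢
    split_ifs at hab with h
    simp only [Option.some.injEq] at hab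
    rw [← hab]
    simpa using ep_mem R i ha
  oldG := by
    intro n s a b c ha hb hab
    simp only [decide_eq_true_eq] at ha hb ⊢
    split_ifs at hab with h
    simp only [Option.some.injEq] at hab
    rw [← hab]
    simpa using gg_mem R n s ha hb
  good := by
    intro n x e u he hu
    have hu' : ∀ i, (F.equivFin.symm (u i) : B) = ep i (F.equivFin.symm e : B) := by
      intro i
      have := hu i
      split_ifs at this with h
      simp only [Option.some.injEq] at this
      rw [← this]
      simp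
    obtain ⟨p, hp1, hp2⟩ := hB n (F.equivFin.symm x : B) (F.equivFin.symm e : B)
    refine ⟨p, fun i j hij h => hp1 i j hij ⟨?_, h.2⟩, fun i => ?_⟩
    · rw [← hu', ← hu', h.1]
    · have h3 : gg n (p i).2 (F.equivFin.symm x : B) (F.equivFin.symm (u (p i).1) : B) =
          (F.equivFin.symm e : B) := by rw [hu', hp2]
      rw [dif_pos (by rw [h3]; exact (F.equivFin.symm e).2)]
      congr 1
      rw [Equiv.apply_eq_iff_eq_symm_apply]
      exact Subtype.ext h3

lemma patOf_old (x : Fin F.card) : (patOf hB R F a0 ha0 n0).old x = true ↔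
    (F.equivFin.symm x : B) ∈ R := by
  classical
  simp [patOf]

lemma patOf_H (i : Bool) (x y : Fin F.card) : (patOf hB R F a0 ha0 n0).H i x = some y ↔
    ep i (F.equivFin.symm x : B) = (F.equivFin.symm y : B) := by
  classical
  simp only [patOf]
  constructor
  · intro h
    split_ifs at h with h'
    simp only [Option.some.injEq] at h
    rw [← h]
    simp
  · intro h
    rw [dif_pos (by rw [h]; exact (F.equivFin.symm y).2)]
    congr 1
    rw [Equiv.apply_eq_iff_eq_symm_apply]
    exact Subtype.ext h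

lemma patOf_G (n : ℕ) (s : Fin (n + 2)) (x y z : Fin F.card) :
    (patOf hB R F a0 ha0 n0).G n s x y = some z ↔
    gg n s (F.equivFin.symm x : B) (F.equivFin.symm y : B) = (F.equivFin.symm z : B) := by
  classical
  simp only [patOf]
  constructor
  · intro h
    split_ifs at h with h'
    simp only [Option.some.injEq] at h
    rw [← h]
    simp
  · intro h
    rw [dif_pos (by rw [h]; exact (F.equivFin.symm z).2)]
    congr 1
    rw [Equiv.apply_eq_iff_eq_symm_apply]
    exact Subtype.ext h

end pat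

section rich
variable {𝕄 : Type w} [LL.Structure 𝕄]

/-- `j` is an embedding over `A` as far as the elements of `F` and the levels `< n0` can see. -/
def PEmb {A B : Type w} [LL.Structure A] [LL.Structure B] (i : A → 𝕄) (k : A → B)
    (F : Set B) (n0 : ℕ) (j : B → 𝕄) : Prop :=
  (∀ a, k a ∈ F → j (k a) = i a) ∧
  (∀ b ∈ F, ∀ b' ∈ F, j b = j b' → b = b') ∧
  (∀ c, ∀ b ∈ F, ep c b ∈ F → ep c (j b) = j (ep c b)) ∧
  (∀ n < n0, ∀ s, ∀ b ∈ F, ∀ b' ∈ F, gg n s b b' ∈ F → gg n s (j b) (j b') = j (gg n s b b'))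

lemma PEmb.mono {A B : Type w} [LL.Structure A] [LL.Structure B] {i : A → 𝕄} {k : A → B}
    {F F' : Set B} {n0 n0' : ℕ} {j : B → 𝕄} (hF : F ⊆ F') (hn : n0 ≤ n0')
    (h : PEmb i k F' n0' j) : PEmb i k F n0 j := by
  obtain ⟨h1, h2, h3, h4⟩ := h
  exact ⟨fun a ha => h1 a (hF ha), fun b hb b' hb' h => h2 b (hF hb) b' (hF hb') h,
    fun c b hb hb' => h3 c b (hF hb) (hF hb'),
    fun n hn' s b hb b' hb' hb'' => h4 n (hn'.trans_le hn) s b (hF hb) b' (hF hb') (hF hb'')⟩

/-- Finite approximations of embeddings exist. -/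
theorem exists_PEmb (hM : IsT 𝕄) {A B : Type w} [LL.Structure A] [LL.Structure B] [Nonempty A]
    (hB : Good B) (i : A ↪[LL] 𝕄) (k : A ↪[LL] B) (F : Finset B) (n0 : ℕ) :
    ∃ j : B → 𝕄, PEmb i k (F : Set B) n0 j := by
  classical
  -- enlarge `F`
  let aa : A := Classical.arbitrary A
  wlog hF : k aa ∈ F generalizing F
  · obtain ⟨j, hj⟩ := this (insert (k aa) F) (Finset.mem_insert_self _ _)
    exact ⟨j, hj.mono (by simp) le_rfl⟩
  let R : LL.Substructure B := k.toHom.range
  have hR : ∀ b, b ∈ R ↔ ∃ a, k a = b := fun b => Iff.rfl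
  let a0 : F := ⟨k aa, hF⟩
  have ha0 : (a0 : B) ∈ R := ⟨aa, rfl⟩
  let P := patOf hB R F a0 ha0 n0
  obtain ⟨D, _, f, g, hD, hfg, hfg'⟩ := amalg2 hM.1 hB i k
  let e := F.equivFin
  let v : Fin P.k → 𝕄 := fun x =>
    if h : ∃ a, k a = (e.symm x : B) then i h.choose else i aa
  have hv : ∀ x a, k a = (e.symm x : B) → v x = i a := by
    intro x a ha
    have hex : ∃ a, k a = (e.symm x : B) := ⟨a, ha⟩
    simp only [v, dif_pos hex]
    congr 1
    apply k.injective
    rw [hex.choose_spec, ha]
  have hold : ∀ x, P.old x = true ↔ ∃ a, k a = (e.symm x : B) := fun x =>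
    patOf_old hB R F a0 ha0 n0 x
  have hPH : ∀ c x y, P.H c x = some y ↔ ep c (e.symm x : B) = (e.symm y : B) :=
    fun c x y => patOf_H hB R F a0 ha0 n0 c x y
  have hPG : ∀ n s x y z, P.G n s x y = some z ↔
      gg n s (e.symm x : B) (e.symm y : B) = (e.symm z : B) :=
    fun n s x y z => patOf_G hB R F a0 ha0 n0 n s x y z
  have hO : OldFacts P v := by
    refine ⟨?_, ?_, ?_⟩
    · intro x y hx hy hxy
      obtain ⟨a, ha⟩ := (hold x).1 hx
      obtain ⟨b, hb⟩ := (hold y).1 hy
      rw [hv x a ha, hv y b hb] at hxy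
      have := i.injective hxy
      subst this
      apply e.symm.injective
      apply Subtype.ext
      rw [← ha, hb]
    · intro c x y hx hxy
      obtain ⟨a, ha⟩ := (hold x).1 hx
      rw [hPH, ← ha, ← map_ep] at hxy
      rw [hv x a ha, hv y _ hxy, map_ep]
    · intro n _ s x y z hx hy hxy
      obtain ⟨a, ha⟩ := (hold x).1 hx
      obtain ⟨b, hb⟩ := (hold y).1 hy
      rw [hPG, ← ha, ← hb, ← map_gg] at hxy
      rw [hv x a ha, hv y b hb, hv z _ hxy, map_gg]
  have hT : Theta P v := by
    refine theta_of_ext P v f hD (fun x => g (e.symm x : B)) ?_ ?_ ?_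
    · intro x hx
      obtain ⟨a, ha⟩ := (hold x).1 hx
      rw [hv x a ha, ← ha, hfg]
    · intro x hx b hb
      obtain ⟨a, ha, -⟩ := hfg' _ _ hb
      have := (hold x).2 ⟨a, ha⟩
      rw [hx] at this
      exact absurd this (by simp)
    · intro n _ s x y z h
      rw [hPG] at h
      rw [← map_gg, h]
  obtain ⟨w, hw1, hw2, hw3, hw4⟩ := hM.2 P v hO hT
  refine ⟨fun b => if h : b ∈ F then w (e ⟨b, h⟩) else i aa, ?_, ?_, ?_, ?_⟩
  · intro a ha
    have ha' : k a ∈ F := ha
    simp only [dif_pos ha']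
    have h1 : k a = (e.symm (e ⟨k a, ha'⟩) : B) := by simp
    rw [hw1 _ ((hold _).2 ⟨a, h1⟩), hv _ a h1]
  · intro b hb b' hb' h
    have hbF : b ∈ F := hb
    have hbF' : b' ∈ F := hb'
    simp only [dif_pos hbF, dif_pos hbF'] at h
    have := e.injective (hw2 _ _ h)
    exact congrArg Subtype.val this
  · intro c b hb hb'
    have hbF : b ∈ F := hb
    have hbF' : ep c b ∈ F := hb'
    simp only [dif_pos hbF, dif_pos hbF']
    apply hw3
    rw [hPH]
    simp
  · intro n hn s b hb b' hb' hb''
    have hbF : b ∈ F := hb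
    have hbF' : b' ∈ F := hb'
    have hbF'' : gg n s b b' ∈ F := hb''
    simp only [dif_pos hbF, dif_pos hbF', dif_pos hbF'']
    apply hw4 n hn
    rw [hPG]
    simp

/-- The formulas describing an embedding over `A`. -/
inductive EmbFormula {A B : Type w} [LL.Structure A] [LL.Structure B] (i : A → 𝕄) (k : A → B)
    (P : Set 𝕄) : LL.Formula (B ⊕ P) → Prop
  | base (a : A) (h : i a ∈ P) :
      EmbFormula i k P ((Term.var (Sum.inl (k a))).equal (Term.var (Sum.inr ⟨i a, h⟩)))
  | ne (b b' : B) (h : b ≠ b') :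
      EmbFormula i k P (∼((Term.var (Sum.inl b)).equal (Term.var (Sum.inl b'))))
  | ep (c : Bool) (b : B) :
      EmbFormula i k P ((epT c (Term.var (Sum.inl b))).equal (Term.var (Sum.inl (ep c b))))
  | gg (n : ℕ) (s : Fin (n + 2)) (b b' : B) :
      EmbFormula i k P ((ggT n s (Term.var (Sum.inl b)) (Term.var (Sum.inl b'))).equal
        (Term.var (Sum.inl (gg n s b b'))))

theorem embFormula_of_PEmb {A B : Type w} [LL.Structure A] [LL.Structure B] {i : A → 𝕄}
    {k : A → B} {P : Set 𝕄} {φ : LL.Formula (B ⊕ P)} (h : EmbFormula i k P φ) :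
    ∃ (F : Finset B) (n0 : ℕ), ∀ j, PEmb i k (F : Set B) n0 j →
      φ.Realize (Sum.elim j (fun p : P => (p : 𝕄))) := by
  classical
  cases h with
  | base a h =>
    refine ⟨{k a}, 0, fun j hj => ?_⟩
    rw [Formula.realize_equal]
    simp only [Term.realize_var, Sum.elim_inl, Sum.elim_inr]
    exact hj.1 a (by simp)
  | ne b b' h =>
    refine ⟨{b, b'}, 0, fun j hj => ?_⟩
    rw [Formula.realize_not, Formula.realize_equal]
    simp only [Term.realize_var, Sum.elim_inl]
    exact fun h' => h (hj.2.1 b (by simp) b' (by simp) h')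
  | ep c b =>
    refine ⟨{b, ep c b}, 0, fun j hj => ?_⟩
    rw [Formula.realize_equal]
    simp only [realize_epT, Term.realize_var, Sum.elim_inl]
    exact hj.2.2.1 c b (by simp) (by simp)
  | gg n s b b' =>
    refine ⟨{b, b', gg n s b b'}, n + 1, fun j hj => ?_⟩
    rw [Formula.realize_equal]
    simp only [realize_ggT, Term.realize_var, Sum.elim_inl]
    exact hj.2.2.2 n (Nat.lt_succ_self n) s b (by simp) b' (by simp) (by simp)

theorem embFormula_finite {A B : Type w} [LL.Structure A] [LL.Structure B] {i : A → 𝕄}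
    {k : A → B} {P : Set 𝕄} {Γ : Set (LL.Formula (B ⊕ P))} (hfin : Γ.Finite)
    (h : ∀ φ ∈ Γ, EmbFormula i k P φ) :
    ∃ (F : Finset B) (n0 : ℕ), ∀ j, PEmb i k (F : Set B) n0 j → ∀ φ ∈ Γ,
      φ.Realize (Sum.elim j (fun p : P => (p : 𝕄))) := by
  classical
  induction Γ, hfin using Set.Finite.induction_on with
  | empty => exact ⟨∅, 0, fun _ _ φ hφ => absurd hφ (Set.notMem_empty _)⟩
  | @insert φ Γ' _ _ ih =>
    obtain ⟨F1, n1, h1⟩ := ih (fun ψ hψ => h ψ (Set.mem_insert_of_mem _ hψ))
    obtain ⟨F2, n2, h2⟩ := embFormula_of_PEmb (h φ (Set.mem_insert _ _))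
    refine ⟨F1 ∪ F2, max n1 n2, fun j hj ψ hψ => ?_⟩
    rcases Set.mem_insert_iff.1 hψ with rfl | hψ
    · exact h2 j (hj.mono (by simp) (le_max_right _ _))
    · exact h1 j (hj.mono (by simp) (le_max_left _ _)) ψ hψ

/-- If all embedding formulas hold, we have an embedding over `A`. -/
theorem emb_of_embFormula {A B : Type w} [LL.Structure A] [LL.Structure B] {i : A → 𝕄}
    {k : A → B} {P : Set 𝕄} (hP : ∀ a, i a ∈ P) {j : B → 𝕄}
    (h : ∀ φ, EmbFormula i k P φ → φ.Realize (Sum.elim j (fun p : P => (p : 𝕄)))) :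
    ∃ f : B ↪[LL] 𝕄, (∀ b, f b = j b) ∧ ∀ a, f (k a) = i a := by
  have h1 : ∀ a, j (k a) = i a := by
    intro a
    have := h _ (EmbFormula.base a (hP a))
    rw [Formula.realize_equal] at this
    simpa using this
  have h2 : Injective j := by
    intro b b' hbb
    by_contra hne
    have := h _ (EmbFormula.ne b b' hne)
    rw [Formula.realize_not, Formula.realize_equal] at this
    exact this (by simpa using hbb)
  have h3 : ∀ c b, j (ep c b) = ep c (j b) := by
    intro c b
    have := h _ (EmbFormula.ep c b)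
    rw [Formula.realize_equal] at this
    simpa using this.symm
  have h4 : ∀ n s b b', j (gg n s b b') = gg n s (j b) (j b') := by
    intro n s b b'
    have := h _ (EmbFormula.gg n s b b')
    rw [Formula.realize_equal] at this
    simpa using this.symm
  exact ⟨mkEmb j h2 (h3 true) (h3 false) h4, fun b => rfl, h1⟩

/-- **Richness.** -/
theorem rich {κ : Cardinal.{w}} (hM : IsT 𝕄) (hs : IsSaturated LL 𝕄 κ)
    {A B : Type w} [LL.Structure A] [LL.Structure B] [Nonempty A]
    (hB : Good B) (hκ : #B < κ) (i : A ↪[LL] 𝕄) (k : A ↪[LL] B) :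
    ∃ f : B ↪[LL] 𝕄, ∀ a, f (k a) = i a := by
  have hP : #(Set.range i) < κ :=
    (Cardinal.mk_range_le (f := i)).trans_lt ((Cardinal.mk_le_of_injective k.injective).trans_lt hκ)
  obtain ⟨j, hj⟩ := hs B (Set.range i) hκ hP {φ | EmbFormula i k (Set.range i) φ} (by
    intro Γ₀ h1 h2
    obtain ⟨F, n0, hF⟩ := embFormula_finite h2 (fun φ hφ => h1 hφ)
    obtain ⟨j, hj⟩ := exists_PEmb hM hB i k F n0
    exact ⟨j, hF j hj⟩)
  obtain ⟨f, -, hf⟩ := emb_of_embFormula (fun a => Set.mem_range_self a) hj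
  exact ⟨f, hf⟩

end rich

section card

lemma card_closure_lt {𝕄 : Type w} [LL.Structure 𝕄] {κ : Cardinal.{w}} (hκ : ℵ₀ < κ)
    {s : Set 𝕄} (hs : #s < κ) : #(Substructure.closure LL s) < κ := by
  have h1 := Substructure.lift_card_closure_le (L := LL) (s := s)
  have h2 : lift.{w} #(Σ l, LL.Functions l) ≤ ℵ₀ := by
    rw [Cardinal.lift_le_aleph0, Cardinal.mk_le_aleph0_iff]
    infer_instance
  have h3 : lift.{0} #(Substructure.closure LL s) ≤ max ℵ₀ (lift.{0} #s + ℵ₀) := by
    refine h1.trans (max_le_max le_rfl (add_le_add le_rfl ?_))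
    simpa using h2
  rw [Cardinal.lift_uzero, Cardinal.lift_uzero] at h3
  refine h3.trans_lt (max_lt hκ ?_)
  exact Cardinal.add_lt_of_lt hκ.le hs hκ

end card

section qe
variable {𝕄 𝕄' : Type w} [LL.Structure 𝕄] [LL.Structure 𝕄']

/-- One back-and-forth step. -/
theorem bf_step {κ : Cardinal.{w}} (hκ : ℵ₀ < κ) (hM : Good 𝕄) (hM' : IsT 𝕄')
    (hs : IsSaturated LL 𝕄' κ) {C : Type w} [LL.Structure C] [Nonempty C] (hC : #C < κ)
    (p : C ↪[LL] 𝕄) (q : C ↪[LL] 𝕄') (x : 𝕄) :
    ∃ (C' : Type w) (_ : LL.Structure C') (c : C ↪[LL] C') (p' : C' ↪[LL] 𝕄)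
      (q' : C' ↪[LL] 𝕄'), #C' < κ ∧ (∀ a, p' (c a) = p a) ∧ (∀ a, q' (c a) = q a) ∧
      ∃ y, p' y = x := by
  classical
  let S : LL.Substructure 𝕄 := Substructure.closure LL (insert x (Set.range p))
  have hsub : insert x (Set.range p) ⊆ (S : Set 𝕄) := Substructure.subset_closure
  have hcard : #S < κ := by
    apply card_closure_lt hκ
    refine (Cardinal.mk_insert_le).trans_lt ?_
    refine Cardinal.add_lt_of_lt hκ.le ?_ (Cardinal.one_lt_aleph0.trans hκ)
    exact (Cardinal.mk_range_le (f := p)).trans_lt hC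
  let c : C ↪[LL] S := mkEmb (fun a => ⟨p a, hsub (Set.mem_insert_of_mem _ ⟨a, rfl⟩)⟩)
    (fun a b h => p.injective (congrArg Subtype.val h))
    (fun a => Subtype.ext (by rw [coe_hd]; exact map_hd p a))
    (fun a => Subtype.ext (by rw [coe_tl]; exact map_tl p a))
    (fun n s a b => Subtype.ext (by rw [coe_gg]; exact map_gg p n s a b))
  obtain ⟨q', hq'⟩ := rich hM' hs (Good.of_emb S.subtype hM) hcard q c
  exact ⟨S, inferInstance, c, S.subtype, q', hcard, fun a => rfl, hq',
    ⟨x, hsub (Set.mem_insert _ _)⟩, rfl⟩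

/-- **Quantifier elimination** over nonempty substructures, for saturated models. -/
theorem qe_sat {κ : Cardinal.{w}} (hκ : ℵ₀ < κ) (hM : IsT 𝕄) (hM' : IsT 𝕄')
    (hs : IsSaturated LL 𝕄 κ) (hs' : IsSaturated LL 𝕄' κ)
    {α : Type*} {n : ℕ} (φ : LL.BoundedFormula α n) {C : Type w} [LL.Structure C] [Nonempty C]
    (hC : #C < κ) (p : C ↪[LL] 𝕄) (q : C ↪[LL] 𝕄') (v : α → C) (xs : Fin n → C) :
    φ.Realize (fun i => p (v i)) (fun i => p (xs i)) ↔
      φ.Realize (fun i => q (v i)) (fun i => q (xs i)) := by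
  induction φ generalizing C with
  | falsum => exact Iff.rfl
  | equal t1 t2 =>
    simp only [BoundedFormula.Realize]
    have h1 : ∀ t : LL.Term (α ⊕ Fin _), t.realize (Sum.elim (fun i => p (v i))
        (fun i => p (xs i))) = p (t.realize (Sum.elim v xs)) := by
      intro t
      rw [← HomClass.realize_term]
      congr 1
      funext i
      rcases i with i | i <;> rfl
    have h2 : ∀ t : LL.Term (α ⊕ Fin _), t.realize (Sum.elim (fun i => q (v i))
        (fun i => q (xs i))) = q (t.realize (Sum.elim v xs)) := by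
      intro t
      rw [← HomClass.realize_term]
      congr 1
      funext i
      rcases i with i | i <;> rfl
    rw [h1, h1, h2, h2, p.injective.eq_iff, q.injective.eq_iff]
  | rel R _ => exact (R : Empty).elim
  | imp _ _ ih1 ih2 =>
    rw [BoundedFormula.realize_imp, BoundedFormula.realize_imp, ih1 hC p q, ih2 hC p q]
  | all ψ ih =>
    rw [BoundedFormula.realize_all, BoundedFormula.realize_all]
    constructor
    · intro H x'
      obtain ⟨C', _, c, q', p', hC', hq, hp, y, hy⟩ := bf_step hκ hM'.1 hM hs hC q p x'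
      haveI : Nonempty C' := ⟨y⟩
      have h1 := H (p' y)
      have h2 := ih hC' p' q' (fun i => c (v i)) (Fin.snoc (fun i => c (xs i)) y)
      have e1 : (fun i => p' (c (v i))) = fun i => p (v i) := funext fun i => hp _
      have e2 : (fun i => q' (c (v i))) = fun i => q (v i) := funext fun i => hq _
      have e3 : (fun i => p' ((Fin.snoc (fun i => c (xs i)) y : Fin _ → C') i)) =
          Fin.snoc (fun i => p (xs i)) (p' y) := by
        funext i
        refine Fin.lastCases ?_ (fun i => ?_) i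
        · simp
        · simp [hp]
      have e4 : (fun i => q' ((Fin.snoc (fun i => c (xs i)) y : Fin _ → C') i)) =
          Fin.snoc (fun i => q (xs i)) (q' y) := by
        funext i
        refine Fin.lastCases ?_ (fun i => ?_) i
        · simp
        · simp [hq]
      rw [e1, e2, e3, e4] at h2
      rw [← hy]
      exact h2.1 h1
    · intro H x
      obtain ⟨C', _, c, p', q', hC', hp, hq, y, hy⟩ := bf_step hκ hM.1 hM' hs' hC p q x
      haveI : Nonempty C' := ⟨y⟩
      have h1 := H (q' y)
      have h2 := ih hC' p' q' (fun i => c (v i)) (Fin.snoc (fun i => c (xs i)) y)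
      have e1 : (fun i => p' (c (v i))) = fun i => p (v i) := funext fun i => hp _
      have e2 : (fun i => q' (c (v i))) = fun i => q (v i) := funext fun i => hq _
      have e3 : (fun i => p' ((Fin.snoc (fun i => c (xs i)) y : Fin _ → C') i)) =
          Fin.snoc (fun i => p (xs i)) (p' y) := by
        funext i
        refine Fin.lastCases ?_ (fun i => ?_) i
        · simp
        · simp [hp]
      have e4 : (fun i => q' ((Fin.snoc (fun i => c (xs i)) y : Fin _ → C') i)) =
          Fin.snoc (fun i => q (xs i)) (q' y) := by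
        funext i
        refine Fin.lastCases ?_ (fun i => ?_) i
        · simp
        · simp [hq]
      rw [e1, e2, e3, e4] at h2
      rw [← hy]
      exact h2.2 h1

/-- Quantifier elimination, for formulas. -/
theorem qe {κ : Cardinal.{w}} (hκ : ℵ₀ < κ) (hM : IsT 𝕄) (hM' : IsT 𝕄')
    (hs : IsSaturated LL 𝕄 κ) (hs' : IsSaturated LL 𝕄' κ)
    {α : Type*} (φ : LL.Formula α) {C : Type w} [LL.Structure C] [Nonempty C]
    (hC : #C < κ) (p : C ↪[LL] 𝕄) (q : C ↪[LL] 𝕄') (v : α → C) :
    φ.Realize (fun i => p (v i)) ↔ φ.Realize (fun i => q (v i)) := by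
  have h := qe_sat hκ hM hM' hs hs' φ hC p q v (fun i : Fin 0 => i.elim0)
  have e1 : (fun i : Fin 0 => p (i.elim0)) = default := Subsingleton.elim _ _
  have e2 : (fun i : Fin 0 => q (i.elim0)) = default := Subsingleton.elim _ _
  rw [e1, e2] at h
  exact h

end qe

end Pool.Agent.MP568911
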