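import Pool.Agent.Lib.MP_568911_lc.Sop

/-!
# The theory is NSOP₁: end of the proof
-/

namespace Pool.Agent.MP568911
open FirstOrder FirstOrder.Language Function Cardinal Filter
universe u v w

section sop
variable {𝕄 : Type w} [LL.Structure 𝕄] {m p : ℕ} {φ : LL.Formula (Fin p ⊕ Fin m)}
  {C : ℕ → Bool → Fin m → 𝕄} {m0 : 𝕄}

/-- Part 3: a realisation independent of the parameter. -/
lemma part3 (hs : IsSaturated LL 𝕄 (ℵ_ 1)) {b : ℕ → Fin m → 𝕄}
    (hb1 : ∀ k, Lim (fun i => C i false) (Cs C) (b k))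
    (hb2 : ∀ k, ∃ x : Fin p → 𝕄, ∀ l < k, φ.Realize (Sum.elim x (b l)))
    (hb3 : ∀ l k, l < k → ∀ x,
        x ∈ Substructure.closure LL (Set.range (Sum.elim (b l) (full C))) →
        x ∈ Substructure.closure LL (Set.range (Sum.elim (b k) (full C))) → x ∈ Cs C) :
    ∃ a : Fin p → 𝕄, φ.Realize (Sum.elim a (b 0)) ∧
      ∀ x, x ∈ Substructure.closure LL (Set.range (Sum.elim a (full C))) →
        x ∈ Substructure.closure LL (Set.range (Sum.elim (b 0) (full C))) → x ∈ Cs C := by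
  classical
  let Y : Set 𝕄 := (Substructure.closure LL (Set.range (Sum.elim (b 0) (full C))) :
    LL.Substructure 𝕄)
  have hYc : Y.Countable := countable_closure (Set.countable_range _)
  have : Countable Y := hYc.to_subtype
  have hbY : ∀ l, b 0 l ∈ Y := fun l => Substructure.subset_closure ⟨Sum.inl l, rfl⟩
  have hCY : ∀ z, full C z ∈ Y := fun z => Substructure.subset_closure ⟨Sum.inr z, rfl⟩
  let g0 : Fin p ⊕ Fin m → ULift.{w} (Fin p) ⊕ Y := Sum.map ULift.up (fun l => ⟨b 0 l, hbY l⟩)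
  let g1 : Fin p ⊕ Zv m → ULift.{w} (Fin p) ⊕ Y := Sum.map ULift.up (fun z => ⟨full C z, hCY z⟩)
  let ψ : LL.Term (Fin p ⊕ Zv m) × {d : Y // (d : 𝕄) ∉ Cs C} →
      LL.Formula (ULift.{w} (Fin p) ⊕ Y) := fun q =>
    ∼((q.1.relabel g1).equal (Term.var (Sum.inr q.2.1)))
  let Γ : Set (LL.Formula (ULift.{w} (Fin p) ⊕ Y)) := insert (φ.relabel g0) (Set.range ψ)
  have hg0 : ∀ y : ULift.{w} (Fin p) → 𝕄, (φ.relabel g0).Realize
      (Sum.elim y (fun p : Y => (p : 𝕄))) ↔ φ.Realize (Sum.elim (fun j => y ⟨j⟩) (b 0)) := by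
    intro y
    rw [Formula.realize_relabel]
    have : Sum.elim y (fun p : Y => (p : 𝕄)) ∘ g0 = Sum.elim (fun j => y ⟨j⟩) (b 0) := by
      funext q
      rcases q with j | l <;> rfl
    rw [this]
  have hψ : ∀ (q) (y : ULift.{w} (Fin p) → 𝕄), (ψ q).Realize
      (Sum.elim y (fun p : Y => (p : 𝕄))) ↔
        q.1.realize (Sum.elim (fun j => y ⟨j⟩) (full C)) ≠ (q.2.1 : 𝕄) := by
    intro q y
    simp only [ψ]
    rw [Formula.realize_not, Formula.realize_equal, Term.realize_relabel]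
    have : Sum.elim y (fun p : Y => (p : 𝕄)) ∘ g1 = Sum.elim (fun j => y ⟨j⟩) (full C) := by
      funext q
      rcases q with j | l <;> rfl
    rw [this]
    rfl
  by_cases hfin : ∀ Γ₀ : Set (LL.Formula (ULift.{w} (Fin p) ⊕ Y)), Γ₀ ⊆ Γ → Γ₀.Finite →
      ∃ v : ULift.{w} (Fin p) → 𝕄, ∀ χ ∈ Γ₀, χ.Realize (Sum.elim v (fun p => (p : 𝕄)))
  · obtain ⟨v, hv⟩ := hs _ Y lt_aleph_one lt_aleph_one Γ hfin
    refine ⟨fun j => v ⟨j⟩, (hg0 v).1 (hv _ (Set.mem_insert _ _)), ?_⟩
    intro x hx1 hx2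
    by_contra hx3
    obtain ⟨s, hs'⟩ := exists_term_of_mem_closure _ hx1
    have := (hψ (s, ⟨⟨x, hx2⟩, hx3⟩) v).1 (hv _ (Set.mem_insert_of_mem _ ⟨_, rfl⟩))
    exact this hs'
  · exfalso
    push Not at hfin
    obtain ⟨Γ₀, hΓ1, hΓ2, hΓ3⟩ := hfin
    -- the finite set of exceptions
    let R := {χ : Γ₀ // (χ : LL.Formula _) ∈ Set.range ψ}
    have : Finite Γ₀ := hΓ2
    have : Finite R := inferInstance
    choose qr hqr using fun r : R => r.2
    have hd : ∀ r : R, ∃ t : LL.Term (Fin m ⊕ Zv m),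
        t.realize (Sum.elim (b 0) (full C)) = ((qr r).2.1 : 𝕄) := fun r =>
      exists_term_of_mem_closure _ (qr r).2.1.2
    choose t ht using hd
    obtain ⟨χ, hχ⟩ := exists_cover_formula.{w} φ R (fun r => (qr r).1) t
    have h0 : χ.Realize (Sum.elim (b 0) (full C)) := by
      rw [hχ]
      intro x hx
      obtain ⟨θ, hθ1, hθ2⟩ := hΓ3 (fun j => x j.down)
      rcases hΓ1 hθ1 with h | h
      · exfalso
        rw [h] at hθ2
        exact hθ2 ((hg0 _).2 hx)
      · let r : R := ⟨⟨θ, hθ1⟩, h⟩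
        refine ⟨r, ?_⟩
        have h2 : θ = ψ (qr r) := (hqr r).symm
        rw [h2] at hθ2
        rw [hψ] at hθ2
        rw [ht]
        simpa using hθ2
    have hk : ∀ k, χ.Realize (Sum.elim (b k) (full C)) := fun k =>
      (hb1 k (Zv m) χ (full C) (full_mem C)).2 ((hb1 0 (Zv m) χ (full C) (full_mem C)).1 h0)
    -- values outside `Cs`
    have hout : ∀ k r, (t r).realize (Sum.elim (b k) (full C)) ∉ Cs C := by
      intro k r hmem
      set c := (t r).realize (Sum.elim (b k) (full C)) with hc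
      let χ' : LL.Formula (Fin m ⊕ (Zv m ⊕ Unit)) :=
        ((t r).relabel (Sum.map id Sum.inl)).equal (Term.var (Sum.inr (Sum.inr ())))
      have e : ∀ y : Fin m → 𝕄, (Sum.elim y (Sum.elim (full C) (fun _ => c)) : _ → 𝕄) ∘
          (Sum.map id Sum.inl : Fin m ⊕ Zv m → Fin m ⊕ (Zv m ⊕ Unit)) =
          Sum.elim y (full C) := by
        intro y
        funext q
        rcases q with l | l <;> rfl
      have hch : ∀ y : Fin m → 𝕄, χ'.Realize (Sum.elim y (Sum.elim (full C) (fun _ => c))) ↔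
          (t r).realize (Sum.elim y (full C)) = c := by
        intro y
        simp only [χ']
        rw [Formula.realize_equal, Term.realize_relabel, e]
        rfl
      have hpar : ∀ l : Zv m ⊕ Unit, Sum.elim (full C) (fun _ => c) l ∈ (Cs C : Set 𝕄) := by
        rintro (l | l)
        · exact full_mem C l
        · exact hmem
      have h1 := (hb1 k _ χ' _ hpar).1 ((hch _).2 hc.symm)
      have h2 := (hch _).1 ((hb1 0 _ χ' _ hpar).2 h1)
      rw [ht] at h2
      apply (qr r).2.2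
      rw [h2]
      exact hmem
    -- pigeonhole
    obtain ⟨x, hx⟩ := hb2 (Nat.card R + 1)
    have hr : ∀ l : Fin (Nat.card R + 1), ∃ r, ((qr r).1).realize (Sum.elim x (full C)) =
        (t r).realize (Sum.elim (b l) (full C)) := by
      intro l
      exact (hχ 𝕄 (b l) (full C)).1 (hk l) x (hx l l.2)
    choose ρ hρ using hr
    have hninj : ¬ Injective ρ := by
      intro hinj
      have := Nat.card_le_card_of_injective ρ hinj
      rw [Nat.card_fin] at this
      omega
    have : ∃ l k : Fin (Nat.card R + 1), l < k ∧ ρ l = ρ k := by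
      unfold Function.Injective at hninj
      push Not at hninj
      obtain ⟨l, k, h1, h2⟩ := hninj
      rcases lt_or_gt_of_ne h2 with h | h
      · exact ⟨l, k, h, h1⟩
      · exact ⟨k, l, h, h1.symm⟩
    obtain ⟨l, k, hlk, hρlk⟩ := this
    have h1 := hρ l
    have h2 := hρ k
    rw [← hρlk] at h2
    have h3 := h1.symm.trans h2
    have hmem : ∀ l' : ℕ, (t (ρ l)).realize (Sum.elim (b l') (full C)) ∈
        Substructure.closure LL (Set.range (Sum.elim (b l') (full C))) := fun l' =>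
      realize_mem_closure _ (fun q => Substructure.subset_closure (Set.mem_range_self q)) _
    refine hout l (ρ l) (hb3 l k hlk _ (hmem l) ?_)
    rw [h3]
    exact hmem k

/-- The array contradicts the independence theorem. -/
theorem no_array (hM : IsT 𝕄) (hs : IsSaturated LL 𝕄 (ℵ_ 1)) (hm : 0 < m)
    (A1 : ∀ i, ∀ s t : LL.Term (Fin m ⊕ Zv m),
        (s.realize (Sum.elim (C i false) (trunc C m0 i)) =
        t.realize (Sum.elim (C i false) (trunc C m0 i)) ↔
        s.realize (Sum.elim (C i true) (trunc C m0 i)) =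
        t.realize (Sum.elim (C i true) (trunc C m0 i))))
    (A2 : ∀ n, ∃ x : Fin p → 𝕄, ∀ i < n, φ.Realize (Sum.elim x (C i false)))
    (A3 : ∀ i k, i < k → ¬ ∃ x : Fin p → 𝕄, φ.Realize (Sum.elim x (C i true)) ∧
        φ.Realize (Sum.elim x (C k true))) : False := by
  classical
  have hκ : ℵ₀ < (ℵ_ 1 : Cardinal.{w}) := by
    rw [← Cardinal.aleph_zero, Cardinal.aleph_lt_aleph]
    exact zero_lt_one
  obtain ⟨b, hb1, hb2, hb3⟩ := part2 hs A2
  obtain ⟨a, ha1, ha2⟩ := part3 hs hb1 hb2 hb3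
  obtain ⟨b', hb1', hb2', hb3', hb4'⟩ := part1 (φ := φ) hs A3
  -- the structure generated by `a`, `b 0` and the array
  let vZ : Fin p ⊕ (Fin m ⊕ Zv m) → 𝕄 := Sum.elim a (Sum.elim (b 0) (full C))
  let Zc : LL.Substructure 𝕄 := Substructure.closure LL (Set.range vZ)
  have hvZ : ∀ q, vZ q ∈ Zc := fun q => Substructure.subset_closure ⟨q, rfl⟩
  let SX : LL.Substructure 𝕄 := Substructure.closure LL (Set.range (Sum.elim a (full C)))
  let SY : LL.Substructure 𝕄 := Substructure.closure LL (Set.range (Sum.elim (b 0) (full C)))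
  let X : LL.Substructure Zc := SX.comap Zc.subtype.toHom
  let Y : LL.Substructure Zc := SY.comap Zc.subtype.toHom
  have hX : ∀ z : Zc, z ∈ X ↔ (z : 𝕄) ∈ SX := fun z => Iff.rfl
  have hY : ∀ z : Zc, z ∈ Y ↔ (z : 𝕄) ∈ SY := fun z => Iff.rfl
  have hCX : Cs C ≤ SX := by
    apply Substructure.closure_mono
    rintro _ ⟨z, rfl⟩
    exact ⟨Sum.inr z, rfl⟩
  -- the embeddings of `SY`
  have hq : ∀ j : Bool, ∃ q : SY ↪[LL] 𝕄,
      ∀ (s : LL.Term (Fin m ⊕ Zv m)) (hs : s.realize (Sum.elim (b 0) (full C)) ∈ SY),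
        q ⟨s.realize (Sum.elim (b 0) (full C)), hs⟩ = s.realize (Sum.elim (b' j) (full C)) := by
    intro j
    obtain ⟨P, hP, hL⟩ := hb2' j
    exact span_of_terms _ _ (L1 A1 subset_rfl hP (hb1 0) hL)
  choose q hq using hq
  have hqfix : ∀ j (c : 𝕄) (_ : c ∈ Cs C) (hc' : c ∈ SY), q j ⟨c, hc'⟩ = c := by
    intro j c hc hc'
    obtain ⟨s, hs'⟩ := exists_term_of_mem_closure _ hc
    have e1 : (s.relabel Sum.inr : LL.Term (Fin m ⊕ Zv m)).realize (Sum.elim (b 0) (full C)) =
        c := by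
      rw [Term.realize_relabel]
      exact hs'
    have e2 : (s.relabel Sum.inr : LL.Term (Fin m ⊕ Zv m)).realize (Sum.elim (b' j) (full C)) =
        c := by
      rw [Term.realize_relabel]
      exact hs'
    have h3 := hq j (s.relabel Sum.inr) (by rw [e1]; exact hc')
    rw [e2] at h3
    exact (congrArg (q j) (Subtype.ext e1.symm)).trans h3
  have hqmem : ∀ j (y : SY), q j y ∈
      Substructure.closure LL (Set.range (Sum.elim (b' j) (full C))) := by
    intro j y
    obtain ⟨s, hs'⟩ := exists_term_of_mem_closure _ y.2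
    have h3 := hq j s (by rw [hs']; exact y.2)
    have h4 : (⟨s.realize (Sum.elim (b 0) (full C)), by rw [hs']; exact y.2⟩ : SY) = y :=
      Subtype.ext hs'
    rw [h4] at h3
    rw [h3]
    exact realize_mem_closure _ (fun q => Substructure.subset_closure (Set.mem_range_self q)) _
  obtain ⟨yy, hyy⟩ := emb_codRestrict (Zc.subtype.comp Y.subtype) SY (fun y => y.2)
  have hyy' : ∀ y : Y, yy y = ⟨((y : Zc) : 𝕄), y.2⟩ := fun y => Subtype.ext (hyy y)
  let x1 : Zc := ⟨full C (0, false, ⟨0, hm⟩), hvZ (Sum.inr (Sum.inr (0, false, ⟨0, hm⟩)))⟩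
  have hx1 : (x1 : 𝕄) ∈ Cs C := full_mem C _
  have hCY : Cs C ≤ SY := by
    apply Substructure.closure_mono
    rintro _ ⟨z, rfl⟩
    exact ⟨Sum.inr z, rfl⟩
  have hZcard : #Zc < ℵ_ 1 := by
    have : Countable Zc := (countable_closure (Set.countable_range _)).to_subtype
    exact lt_aleph_one
  -- if two images coincide, the element is in `Cs`
  have hcoin : ∀ i k : Bool, i ≠ k → ∀ y y' : SY, q i y = q k y' → (y : 𝕄) ∈ Cs C ∧ y = y' := by
    have main : ∀ y y' : SY, q false y = q true y' → (y : 𝕄) ∈ Cs C ∧ y = y' := by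
      intro y y' h
      have h1 := hqmem false y
      have h2 := hqmem true y'
      rw [← h] at h2
      have h3 := hb4' _ h1 h2
      have h4 : y = ⟨q false y, hCY h3⟩ := by
        apply (q false).injective
        rw [hqfix false _ h3]
      have h5 : y' = ⟨q false y, hCY h3⟩ := by
        apply (q true).injective
        rw [hqfix true _ h3, h]
      refine ⟨?_, h4.trans h5.symm⟩
      rw [h4]
      exact h3
    rintro (_ | _) (_ | _) hne y y' h
    · exact absurd rfl hne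
    · exact main y y' h
    · obtain ⟨h1, h2⟩ := main y' y h.symm
      exact ⟨h2 ▸ h1, h2.symm⟩
    · exact absurd rfl hne
  obtain ⟨G, hG1, hG2⟩ := indep hκ hM hs (Z := Zc) (Good.of_emb Zc.subtype hM.1) hZcard X Y
    (fun j : Bool => (q j).comp yy) (by
      intro i k hik y y' h
      rw [Embedding.comp_apply, Embedding.comp_apply] at h
      obtain ⟨h1, h2⟩ := hcoin i k hik _ _ h
      refine ⟨yy.injective h2, ?_⟩
      rw [hX]
      rw [hyy'] at h1
      exact hCX h1) (by
      intro i k y hy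
      rw [Embedding.comp_apply, Embedding.comp_apply, hyy']
      have h1 : ((y : Zc) : 𝕄) ∈ Cs C := ha2 _ hy y.2
      rw [hqfix i _ h1, hqfix k _ h1]) x1 (hCX hx1) (hCY hx1)
  -- the common realisation
  have haX : ∀ l, (⟨a l, hvZ (Sum.inl l)⟩ : Zc) ∈ X := fun l =>
    Substructure.subset_closure ⟨Sum.inl l, rfl⟩
  have hbY : ∀ l, (⟨b 0 l, hvZ (Sum.inr (Sum.inl l))⟩ : Zc) ∈ Y := fun l =>
    Substructure.subset_closure ⟨Sum.inl l, rfl⟩
  have : Nonempty Zc := ⟨x1⟩
  have hreal : ∀ j : Bool, φ.Realize (Sum.elim (fun l => G false ⟨a l, hvZ (Sum.inl l)⟩)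
      (b' j)) := by
    intro j
    have h1 := qe hκ hM hM hs hs φ hZcard Zc.subtype (G j)
      (Sum.elim (fun l => (⟨a l, hvZ (Sum.inl l)⟩ : Zc))
        (fun l => (⟨b 0 l, hvZ (Sum.inr (Sum.inl l))⟩ : Zc)))
    have e1 : (fun i => Zc.subtype (Sum.elim (fun l => (⟨a l, hvZ (Sum.inl l)⟩ : Zc))
        (fun l => (⟨b 0 l, hvZ (Sum.inr (Sum.inl l))⟩ : Zc)) i)) = Sum.elim a (b 0) := by
      funext q
      rcases q with l | l <;> rfl
    have e2 : (fun i => G j (Sum.elim (fun l => (⟨a l, hvZ (Sum.inl l)⟩ : Zc))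
        (fun l => (⟨b 0 l, hvZ (Sum.inr (Sum.inl l))⟩ : Zc)) i)) =
        Sum.elim (fun l => G false ⟨a l, hvZ (Sum.inl l)⟩) (b' j) := by
      funext r
      rcases r with l | l
      · exact hG2 j false _ (haX l)
      · have h2 := hG1 j ⟨_, hbY l⟩
        rw [Embedding.comp_apply, hyy'] at h2
        have h3 := hq j (Term.var (Sum.inl l)) (hbY l)
        exact h2.trans h3
    rw [e1, e2] at h1
    exact h1.1 ha1
  exact hb3' ⟨_, hreal false, hreal true⟩

/-- The models of the axioms do not have SOP₁. -/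
theorem not_hasSOP1 {M : Type w} [LL.Structure M] [Nonempty M] (hM : IsT M)
    (φ : LL.Formula (Fin p ⊕ Fin m)) : ¬ HasSOP1 M φ := by
  intro hφ
  rcases Nat.eq_zero_or_pos m with rfl | hm
  · obtain ⟨a, ha1, ha2⟩ := hφ
    obtain ⟨x, hx⟩ := ha1 (fun _ => false) 1
    have h0 := hx 0 Nat.zero_lt_one
    apply ha2 [] [false] List.prefix_rfl
    refine ⟨x, ?_, ?_⟩
    · have : a [false] = a (List.ofFn fun j : Fin 0 => false) := Subsingleton.elim _ _
      rw [this]
      exact h0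
    · have : a ([] ++ [true]) = a (List.ofFn fun j : Fin 0 => false) := Subsingleton.elim _ _
      rw [this]
      exact h0
  · obtain ⟨C, m0, A1, A2, A3⟩ := exists_array φ hφ
    exact no_array (IsT.transfer (up_elementarilyEquivalent LL M) hM) (up_saturated LL M) hm
      A1 A2 A3

end sop

end Pool.Agent.MP568911
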