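import Pool.Agent.Lib.MP_568911_lc.Basic

/-!
# Finite patterns and how to realise them in an extension
-/

namespace Pool.Agent.MP568911
open FirstOrder FirstOrder.Language Function
universe u v w

section count
variable {A : Type u} [LL.Structure A]

lemma card_le [DecidableEq A] (hA : Good A) (F : Finset A) :
    F.card ≤ (F.image hd ∪ F.image tl).card := by
  classical
  rcases F.eq_empty_or_nonempty with rfl | ⟨x, hx⟩
  · simp
  set V := F.image hd ∪ F.image tl with hV
  set n := V.card with hn
  choose p hp1 hp2 using hA n x
  have key : (F ×ˢ (Finset.univ : Finset (Fin (n + 1)))).card ≤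
      (V ×ˢ (Finset.univ : Finset (Fin (n + 2)))).card := by
    apply Finset.card_le_card_of_injOn (fun q => (ep (p q.1 q.2).1 q.1, (p q.1 q.2).2))
    · rintro ⟨e, i⟩ he
      simp only [Finset.coe_product, Finset.coe_univ, Set.mem_prod, Finset.mem_coe, Set.mem_univ,
        and_true] at he ⊢
      rw [hV]
      generalize (p e i).1 = b
      cases b
      · exact Finset.mem_union_right _ (Finset.mem_image_of_mem _ he)
      · exact Finset.mem_union_left _ (Finset.mem_image_of_mem _ he)
    · rintro ⟨e, i⟩ he ⟨e', i'⟩ he' h
      have h1 := hp2 e i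
      have h2 := hp2 e' i'
      simp only [Prod.mk.injEq] at h
      have hee : e = e' := by rw [← h1, ← h2, h.1, h.2]
      subst hee
      by_contra hne
      exact hp1 e i i' (fun h' => hne (by rw [h'])) ⟨h.1, h.2⟩
  simp only [Finset.card_product, Finset.card_univ, Fintype.card_fin] at key
  nlinarith

/-- allowed slots for the edge `e`, given the prescribed contents `σ` -/
def Allowed (n : ℕ) (σ : A × Fin (n + 2) → Option (Option A)) (e : A) (p : A × Fin (n + 2)) :
    Prop :=
  (p.1 = hd e ∨ p.1 = tl e) ∧ (σ p = none ∨ σ p = some (some e))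

theorem placement (hA : Good A) (n K : ℕ) (σ : A × Fin (n + 2) → Option (Option A))
    (J : Finset (A × Fin (n + 2))) (hJ : ∀ p, p ∉ J → σ p = none) (hK : J.card ≤ K)
    (hloc : ∀ (j : ℕ), j ≤ K → ∀ (e : Fin j → A), Injective e →
      ∃ f : Fin j × Fin (n + 1) → A × Fin (n + 2), Injective f ∧
        ∀ p, Allowed n σ (e p.1) (f p)) :
    ∃ f : A × Fin (n + 1) → A × Fin (n + 2), Injective f ∧ ∀ p, Allowed n σ p.1 (f p) := by
  classical
  let t' : A → Finset (A × Fin (n + 2)) := fun e =>
    (({hd e, tl e} : Finset A) ×ˢ (Finset.univ : Finset (Fin (n + 2)))).filter (Allowed n σ e)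
  have ht' : ∀ e p, p ∈ t' e ↔ Allowed n σ e p := by
    intro e p
    simp only [t', Finset.mem_filter, Finset.mem_product, Finset.mem_insert,
      Finset.mem_singleton, Finset.mem_univ, and_true]
    exact ⟨fun h => h.2, fun h => ⟨h.1, h⟩⟩
  have hall := (Finset.all_card_le_biUnion_card_iff_exists_injective
    (fun p : A × Fin (n + 1) => t' p.1)).1 ?_
  · obtain ⟨f, hf, hf'⟩ := hall
    exact ⟨f, hf, fun p => (ht' _ _).1 (hf' p)⟩
  · intro s
    set F := s.image Prod.fst with hF
    have h1 : s.card ≤ F.card * (n + 1) := by
      have : s ⊆ F ×ˢ (Finset.univ : Finset (Fin (n + 1))) := by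
        intro p hp
        simp only [Finset.mem_product, Finset.mem_univ, and_true]
        exact Finset.mem_image_of_mem _ hp
      calc s.card ≤ _ := Finset.card_le_card this
        _ = _ := by simp
    have h2 : s.biUnion (fun p => t' p.1) = F.biUnion t' := by
      ext q
      simp only [Finset.mem_biUnion, hF, Finset.mem_image]
      constructor
      · rintro ⟨p, hp, hq⟩
        exact ⟨p.1, ⟨p, hp, rfl⟩, hq⟩
      · rintro ⟨e, ⟨p, hp, rfl⟩, hq⟩
        exact ⟨p, hp, hq⟩
    rw [h2]
    refine h1.trans ?_
    rcases le_or_gt F.card K with hc | hc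
    · -- local condition
      obtain ⟨f, hf, hf'⟩ := hloc F.card hc (fun i => (F.equivFin.symm i : A))
        (fun i j h => F.equivFin.symm.injective (Subtype.ext h))
      have : (Finset.univ : Finset (Fin F.card × Fin (n + 1))).card ≤ (F.biUnion t').card := by
        apply Finset.card_le_card_of_injOn f
        · intro p _
          simp only [Finset.coe_biUnion, Set.mem_iUnion, Finset.mem_coe]
          exact ⟨_, (F.equivFin.symm p.1).2, (ht' _ _).2 (hf' p)⟩
        · exact hf.injOn
      simpa using this
    · have h3 := card_le hA F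
      set V := F.image hd ∪ F.image tl with hV
      have h4 : (V ×ˢ (Finset.univ : Finset (Fin (n + 2)))) \ J ⊆ F.biUnion t' := by
        intro p hp
        simp only [Finset.mem_sdiff, Finset.mem_product, Finset.mem_univ, and_true] at hp
        have hσ := hJ p hp.2
        rw [hV, Finset.mem_union, Finset.mem_image, Finset.mem_image] at hp
        simp only [Finset.mem_biUnion]
        rcases hp.1 with ⟨e, he, hep⟩ | ⟨e, he, hep⟩
        · exact ⟨e, he, (ht' _ _).2 ⟨Or.inl hep.symm, Or.inl hσ⟩⟩
        · exact ⟨e, he, (ht' _ _).2 ⟨Or.inr hep.symm, Or.inl hσ⟩⟩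
      have h5 := Finset.card_le_card h4
      have h6 := Finset.le_card_sdiff J (V ×ˢ (Finset.univ : Finset (Fin (n + 2))))
      simp only [Finset.card_product, Finset.card_univ, Fintype.card_fin] at h6
      have h7 : F.card * (n + 2) ≤ V.card * (n + 2) := Nat.mul_le_mul_right _ h3
      have h8 : F.card * (n + 2) = F.card * (n + 1) + F.card := by ring
      omega

end count

/-- A finite pattern. -/
structure Pat where
  k : ℕ
  n0 : ℕ
  a0 : Fin k
  old : Fin k → Bool
  H : Bool → Fin k → Option (Fin k)
  G : ∀ n : ℕ, Fin (n + 2) → Fin k → Fin k → Option (Fin k)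
  old_a0 : old a0 = true
  oldH : ∀ i a b, old a = true → H i a = some b → old b = true
  oldG : ∀ n s a b c, old a = true → old b = true → G n s a b = some c → old c = true
  good : ∀ n x e (u : Bool → Fin k), old e = false → (∀ i, H i e = some (u i)) →
    ∃ f : Fin (n + 1) → Bool × Fin (n + 2),
      (∀ i j, i ≠ j → ¬ (u (f i).1 = u (f j).1 ∧ (f i).2 = (f j).2)) ∧
      ∀ i, G n (f i).2 x (u (f i).1) = some e

section task
variable {N : Type u} [LL.Structure N]

/-- The facts of the pattern about old elements. -/
def OldFacts (P : Pat) (v : Fin P.k → N) : Prop :=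
  (∀ a b, P.old a = true → P.old b = true → v a = v b → a = b) ∧
  (∀ i a b, P.old a = true → P.H i a = some b → ep i (v a) = v b) ∧
  (∀ n < P.n0, ∀ s a b c, P.old a = true → P.old b = true → P.G n s a b = some c →
    gg n s (v a) (v b) = v c)

/-- The facts of the pattern. -/
def Facts (P : Pat) (w : Fin P.k → N) : Prop :=
  (∀ a b, w a = w b → a = b) ∧
  (∀ i a b, P.H i a = some b → ep i (w a) = w b) ∧
  (∀ n < P.n0, ∀ s a b c, P.G n s a b = some c → gg n s (w a) (w b) = w c)

/-- The local solvability condition. -/
def Theta (P : Pat) (v : Fin P.k → N) : Prop :=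
  ∀ y, P.old y = false → ∀ n < P.n0, ∀ j ≤ P.k * (n + 2), ∀ e : Fin j → N,
    (∀ i l, e i = e l → i = l) →
    ∃ f : Fin j × Fin (n + 1) → Bool × Fin (n + 2),
      (∀ p q, p ≠ q → ¬ (ep (f p).1 (e p.1) = ep (f q).1 (e q.1) ∧ (f p).2 = (f q).2)) ∧
      ∀ p b, P.old b = true → ep (f p).1 (e p.1) = v b → ∀ c, P.G n (f p).2 y b = some c →
        (P.old c = true ∧ v c = e p.1)

/-- The task. -/
def Task (P : Pat) (N : Type u) [LL.Structure N] : Prop :=
  ∀ v : Fin P.k → N, OldFacts P v → Theta P v →
    ∃ w : Fin P.k → N, (∀ a, P.old a = true → w a = v a) ∧ Facts P w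

/-- Soundness: if the pattern is realised in an extension, then the local condition holds. -/
theorem theta_of_ext {D : Type v} [LL.Structure D] (P : Pat) (v : Fin P.k → N)
    (f : N ↪[LL] D) (hD : Good D) (w : Fin P.k → D)
    (h1 : ∀ a, P.old a = true → w a = f (v a))
    (h2 : ∀ a, P.old a = false → ∀ b, w a ≠ f b)
    (h3 : ∀ n < P.n0, ∀ s a b c, P.G n s a b = some c → gg n s (w a) (w b) = w c) :
    Theta P v := by
  intro y hy n hn j hj e he
  choose p hp1 hp2 using hD n (w y)
  refine ⟨fun q => p (f (e q.1)) q.2, ?_, ?_⟩
  · rintro ⟨i, l⟩ ⟨i', l'⟩ hne ⟨ha, hb⟩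
    dsimp only at ha hb
    have c1 := hp2 (f (e i)) l
    have c2 := hp2 (f (e i')) l'
    rw [← map_ep] at c1 c2
    rw [← ha, ← hb] at c2
    have : i = i' := he _ _ (f.injective (c1.symm.trans c2))
    subst this
    refine hp1 (f (e i)) l l' (fun h' => hne (by rw [h'])) ⟨?_, hb⟩
    rw [← map_ep, ← map_ep, ha]
  · rintro ⟨i, l⟩ b hb hepb c hc
    dsimp only at hepb hc ⊢
    have c1 := hp2 (f (e i)) l
    rw [← map_ep, hepb, ← h1 b hb] at c1
    have c2 := h3 n hn _ _ _ _ hc
    rw [c1] at c2
    rcases hoc : P.old c with _ | _
    · exact absurd c2.symm (h2 c hoc _)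
    · refine ⟨rfl, ?_⟩
      rw [h1 c hoc] at c2
      exact (f.injective c2).symm

end task

section solve
variable {N : Type u} [LL.Structure N] (P : Pat) (v : Fin P.k → N)

open Classical in
/-- position of the pattern elements -/
noncomputable def iot (c : Fin P.k) : N ⊕ (Fin P.k × ℕ) :=
  if P.old c = true then Sum.inl (v c) else Sum.inr (c, 0)

lemma iot_old {c : Fin P.k} (h : P.old c = true) : iot P v c = Sum.inl (v c) := by
  simp [iot, h]
lemma iot_new {c : Fin P.k} (h : P.old c = false) : iot P v c = Sum.inr (c, 0) := by
  simp [iot, h]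

lemma iot_inj (h : ∀ a b, P.old a = true → P.old b = true → v a = v b → a = b) :
    Injective (iot P v) := by
  intro a b hab
  rcases ha : P.old a with _ | _ <;> rcases hb : P.old b with _ | _
  · rw [iot_new P v ha, iot_new P v hb] at hab
    simpa using hab
  · rw [iot_new P v ha, iot_old P v hb] at hab
    simp at hab
  · rw [iot_old P v ha, iot_new P v hb] at hab
    simp at hab
  · rw [iot_old P v ha, iot_old P v hb] at hab
    exact h a b ha hb (by simpa using hab)

open Classical in
/-- pattern index of an element -/
noncomputable def idx (m : N ⊕ Fin P.k) : Fin P.k :=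
  match m with
  | Sum.inl m => if h : ∃ a, P.old a = true ∧ v a = m then h.choose else P.a0
  | Sum.inr y => y

lemma idx_old (h : ∀ a b, P.old a = true → P.old b = true → v a = v b → a = b) {a : Fin P.k}
    (ha : P.old a = true) : idx P v (Sum.inl (v a)) = a := by
  have hex : ∃ a', P.old a' = true ∧ v a' = v a := ⟨a, ha, rfl⟩
  simp only [idx, dif_pos hex]
  exact h _ _ hex.choose_spec.1 ha hex.choose_spec.2

lemma old_idx (m : N) : P.old (idx P v (Sum.inl m)) = true := by
  by_cases hex : ∃ a', P.old a' = true ∧ v a' = m
  · simp only [idx, dif_pos hex]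
    exact hex.choose_spec.1
  · simp only [idx, dif_neg hex]
    exact P.old_a0

open Classical in
/-- prescribed content -/
noncomputable def specD (n : ℕ) (y : Fin P.k) (u : N) (s : Fin (n + 2)) : Option (Fin P.k) :=
  if h : ∃ a, P.old a = true ∧ v a = u then P.G n s y h.choose else none

lemma specD_old (h : ∀ a b, P.old a = true → P.old b = true → v a = v b → a = b) (n : ℕ)
    (y : Fin P.k) (s : Fin (n + 2)) {b : Fin P.k} (hb : P.old b = true) :
    specD P v n y (v b) s = P.G n s y b := by
  have hex : ∃ a', P.old a' = true ∧ v a' = v b := ⟨b, hb, rfl⟩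
  simp only [specD, dif_pos hex]
  rw [h _ _ hex.choose_spec.1 hb hex.choose_spec.2]

lemma specD_none (n : ℕ) (y : Fin P.k) (s : Fin (n + 2)) {u : N}
    (hu : ∀ b, P.old b = true → v b ≠ u) : specD P v n y u s = none := by
  have hex : ¬ ∃ a', P.old a' = true ∧ v a' = u := by
    rintro ⟨a, ha, hau⟩
    exact hu a ha hau
  simp only [specD, dif_neg hex]

open Classical in
/-- prescribed content, as elements of `N` -/
noncomputable def sigD (n : ℕ) (y : Fin P.k) (p : N × Fin (n + 2)) : Option (Option N) :=
  (specD P v n y p.1 p.2).map (fun c => if P.old c = true then some (v c) else none)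

/-- **Patterns satisfying the local condition can be realised in an extension.** -/
theorem solve (hN : Good N) (hO : OldFacts P v) (hT : Theta P v) :
    ∃ S : LL.Structure (N ⊕ (Fin P.k × ℕ)), @Good _ S ∧
      (∃ f : @Embedding LL N (N ⊕ (Fin P.k × ℕ)) _ S, ∀ a,
        @DFunLike.coe _ _ _ (@Embedding.funLike LL N _ _ S) f a = Sum.inl a) ∧
      ∃ w : Fin P.k → N ⊕ (Fin P.k × ℕ), (∀ a, P.old a = true → w a = Sum.inl (v a)) ∧
        @Facts _ S P w := by
  classical
  obtain ⟨hO1, hO2, hO3⟩ := hO
  -- the placements
  have hpl : ∀ n y, ∃ f : N × Fin (n + 1) → N × Fin (n + 2), (n < P.n0 → P.old y = false →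
      Injective f ∧ ∀ p, Allowed n (sigD P v n y) p.1 (f p)) := by
    intro n y
    by_cases hc : n < P.n0 ∧ P.old y = false
    swap
    · exact ⟨fun p => (p.1, 0), fun h1 h2 => absurd ⟨h1, h2⟩ hc⟩
    obtain ⟨hn, hy⟩ := hc
    have := placement hN n (P.k * (n + 2)) (sigD P v n y)
      (Finset.univ.image (fun q : Fin P.k × Fin (n + 2) => (v q.1, q.2))) ?_ ?_ ?_
    · obtain ⟨f, hf, hf'⟩ := this
      exact ⟨f, fun _ _ => ⟨hf, hf'⟩⟩
    · intro p hp
      unfold sigD
      rw [specD_none]
      · rfl
      · intro b hb hbu
        apply hp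
        exact Finset.mem_image.2 ⟨(b, p.2), Finset.mem_univ _, by simp [hbu]⟩
    · refine Finset.card_image_le.trans ?_
      simp
    · intro j hj e he
      obtain ⟨f, hf1, hf2⟩ := hT y hy n hn j hj e (fun i l h => he h)
      refine ⟨fun p => (ep (f p).1 (e p.1), (f p).2), ?_, ?_⟩
      · intro p q hpq
        by_contra hne
        simp only [Prod.mk.injEq] at hpq
        exact hf1 p q hne hpq
      · intro p
        refine ⟨?_, ?_⟩
        · dsimp only
          generalize (f p).1 = b
          cases b
          · right; rfl
          · left; rfl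
        · dsimp only
          by_cases hex : ∃ b, P.old b = true ∧ v b = ep (f p).1 (e p.1)
          · obtain ⟨b, hb, hbv⟩ := hex
            unfold sigD
            simp only
            rw [← hbv, specD_old P v hO1 n y _ hb]
            rcases hG : P.G n (f p).2 y b with _ | c
            · left; rfl
            · right
              obtain ⟨h1, h2⟩ := hf2 p b hb hbv.symm c hG
              simp [h1, h2]
          · left
            unfold sigD
            rw [specD_none]
            · rfl
            · intro b hb hbv
              exact hex ⟨b, hb, hbv⟩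
  choose place hplace using hpl
  let D := N ⊕ (Fin P.k × ℕ)
  let ι : Fin P.k → D := iot P v
  have hι : Injective ι := iot_inj P v hO1
  let epD : Bool → D → D := fun i x =>
    match x with
    | Sum.inl a => Sum.inl (ep i a)
    | Sum.inr (b, 0) => match (if P.old b = true then none else P.H i b) with
      | some c => ι c
      | none => Sum.inr (b, 1)
    | Sum.inr (b, m + 1) => Sum.inr (b, m + 2)
  let eff : ℕ → D → N ⊕ Fin P.k := fun n x =>
    match x with
    | Sum.inl m => Sum.inl m
    | Sum.inr (y, 0) => if n < P.n0 ∧ P.old y = false then Sum.inr y else Sum.inl (v P.a0)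
    | Sum.inr (_, _ + 1) => Sum.inl (v P.a0)
  let slotD : ∀ n : ℕ, Fin P.k → Fin (n + 2) → N → D := fun n y s u =>
    match specD P v n y u s with
    | some c => ι c
    | none => if h : ∃ e i, place n y (e, i) = (u, s) then Sum.inl h.choose else Sum.inl u
  let actD : ∀ n : ℕ, Fin (n + 2) → (N ⊕ Fin P.k) → D → D := fun n s x u =>
    match u with
    | Sum.inl m => match x with
      | Sum.inl a => Sum.inl (gg n s a m)
      | Sum.inr y => slotD n y s m
    | Sum.inr (b, 0) => match (if P.old b = true then none else P.G n s (idx P v x) b) with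
      | some c => ι c
      | none => Sum.inr (b, 0)
    | Sum.inr (b, m + 1) => Sum.inr (b, m)
  let S : LL.Structure D := mkStr D (epD true) (epD false) (fun n s x u => actD n s (eff n x) u)
  have eEp : ∀ i (x : D), ep i x = epD i x := by
    intro i x
    cases i <;> rfl
  have eG : ∀ n s (x u : D), gg n s x u = actD n s (eff n x) u := fun _ _ _ _ => rfl
  have hslot1 : ∀ n y s u c, specD P v n y u s = some c → slotD n y s u = ι c := by
    intro n y s u c h
    simp only [slotD, h]
  have hslot2 : ∀ n y s u, specD P v n y u s = none → slotD n y s u =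
      if h : ∃ e i, place n y (e, i) = (u, s) then Sum.inl h.choose else Sum.inl u := by
    intro n y s u h
    simp only [slotD, h]
  have heff : ∀ n (x : D) y, eff n x = Sum.inr y → n < P.n0 ∧ P.old y = false := by
    intro n x y h
    rcases x with m | ⟨y', _ | m⟩
    · simp [eff] at h
    · simp only [eff] at h
      split_ifs at h with hc
      simp only [Sum.inr.injEq] at h
      subst h
      exact hc
    · simp [eff] at h
  refine ⟨S, ?_, ⟨mkEmb Sum.inl Sum.inl_injective (fun _ => rfl) (fun _ => rfl)
    (fun _ _ _ _ => rfl), fun _ => rfl⟩, ι, fun a ha => iot_old P v ha, ?_, ?_, ?_⟩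
  · -- `D` is good
    intro n x e
    rcases e with c | ⟨b, _ | m⟩
    · -- old edge
      rcases hx : eff n x with a | y
      · obtain ⟨p, hp1, hp2⟩ := hN n a c
        refine ⟨p, fun i j hij h => hp1 i j hij ⟨?_, h.2⟩, fun i => ?_⟩
        · have h1 := h.1
          rw [eEp, eEp] at h1
          exact Sum.inl_injective h1
        · rw [eG, eEp, hx]
          change Sum.inl (gg n (p i).2 a (ep (p i).1 c)) = (Sum.inl c : D)
          rw [hp2]
      · obtain ⟨hn, hy⟩ := heff n x y hx
        obtain ⟨hf1, hf2⟩ := hplace n y hn hy
        -- the Boolean describing the endpoint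
        have hb : ∀ i : Fin (n + 1), ∃ b : Bool, ep b c = (place n y (c, i)).1 := by
          intro i
          rcases (hf2 (c, i)).1 with h | h
          · exact ⟨true, h.symm⟩
          · exact ⟨false, h.symm⟩
        choose β hβ using hb
        refine ⟨fun i => (β i, (place n y (c, i)).2), ?_, ?_⟩
        · rintro i j hij ⟨h1, h2⟩
          dsimp only at h1 h2
          rw [eEp, eEp] at h1
          have h1' := Sum.inl_injective h1
          rw [hβ, hβ] at h1'
          have := hf1 (Prod.ext h1' h2)
          exact hij (by simpa using this)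
        · intro i
          dsimp only
          rw [eG, eEp, hx]
          change slotD n y (place n y (c, i)).2 (ep (β i) c) = Sum.inl c
          rw [hβ]
          rcases hs : specD P v n y (place n y (c, i)).1 (place n y (c, i)).2 with _ | c'
          · rw [hslot2 _ _ _ _ hs]
            have hex : ∃ e i', place n y (e, i') =
                ((place n y (c, i)).1, (place n y (c, i)).2) := ⟨c, i, rfl⟩
            rw [dif_pos hex]
            obtain ⟨i', hi'⟩ := hex.choose_spec
            have := hf1 hi'
            rw [Prod.mk.injEq] at this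
            rw [this.1]
          · rw [hslot1 _ _ _ _ _ hs]
            have h2 := (hf2 (c, i)).2
            unfold sigD at h2
            rw [hs] at h2
            simp only [Option.map_some, reduceCtorEq, Option.some.injEq, false_or] at h2
            split_ifs at h2 with hc'
            simp only [Option.some.injEq] at h2
            change iot P v c' = _
            rw [iot_old P v hc', h2]
    · -- a new edge
      by_cases hdef : P.old b = false ∧ ∀ i, (P.H i b).isSome
      · obtain ⟨hb, hH⟩ := hdef
        have hu : ∀ i, ∃ u, P.H i b = some u := fun i => Option.isSome_iff_exists.1 (hH i)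
        choose u hu using hu
        have hep : ∀ i, ep i (Sum.inr (b, 0) : D) = ι (u i) := by
          intro i
          rw [eEp]
          simp [epD, hb, hu]
        have heb : (Sum.inr (b, 0) : D) = ι b := (iot_new P v hb).symm
        have hor : (∃ m, eff n x = Sum.inl m) ∨ ∃ y, eff n x = Sum.inr y := by
          rcases eff n x with a | y
          · exact Or.inl ⟨a, rfl⟩
          · exact Or.inr ⟨y, rfl⟩
        obtain ⟨p, hp1, hp2⟩ := P.good n (idx P v (eff n x)) b u hb hu
        refine ⟨p, fun i j hij h => hp1 i j hij ⟨?_, h.2⟩, fun i => ?_⟩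
        · have h1 := h.1
          rw [hep, hep] at h1
          exact hι h1
        · rw [eG]
          change actD n (p i).2 (eff n x) (ep (p i).1 (Sum.inr (b, 0) : D)) = (Sum.inr (b, 0) : D)
          rw [hep]
          have hG := hp2 i
          rcases ho : P.old (u (p i).1) with _ | _
          · have : ι (u (p i).1) = Sum.inr (u (p i).1, 0) := iot_new P v ho
            rw [this, heb]
            simp [actD, ho, hG]
          · have : ι (u (p i).1) = Sum.inl (v (u (p i).1)) := iot_old P v ho
            rw [this]
            rcases hor with ⟨m, hm⟩ | ⟨y, hy⟩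
            · exfalso
              rw [hm] at hG
              have := P.oldG _ _ _ _ _ (old_idx P v m) ho hG
              rw [hb] at this
              exact absurd this (by simp)
            · rw [hy] at hG ⊢
              change slotD n y (p i).2 (v (u (p i).1)) = _
              rw [hslot1 n y (p i).2 _ b, heb]
              rw [specD_old P v hO1 n y _ ho]
              exact hG
      · -- some endpoint is the fresh one
        have hex : ∃ i, ep i (Sum.inr (b, 0) : D) = Sum.inr (b, 1) := by
          by_cases hb : P.old b = true
          · refine ⟨true, ?_⟩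
            rw [eEp]
            simp [epD, hb]
          · have hb' : P.old b = false := by simpa using hb
            have : ∃ i, ¬ (P.H i b).isSome := by
              by_contra hcon
              push Not at hcon
              exact hdef ⟨hb', hcon⟩
            obtain ⟨i, hi⟩ := this
            refine ⟨i, ?_⟩
            rw [eEp]
            have hi' : P.H i b = none := by simpa using hi
            simp [epD, hb', hi']
        obtain ⟨i0, hi0⟩ := hex
        refine ⟨fun i => (i0, i.castSucc), ?_, ?_⟩
        · rintro i j hij ⟨_, h2⟩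
          exact hij (Fin.castSucc_injective _ h2)
        · intro i
          dsimp only
          rw [eG]
          change actD n _ _ (ep i0 (Sum.inr (b, 0) : D)) = _
          rw [hi0]
    · -- chain elements
      refine ⟨fun i => (true, i.castSucc), ?_, ?_⟩
      · rintro i j hij ⟨_, h2⟩
        exact hij (Fin.castSucc_injective _ h2)
      · intro i
        rfl
  · intro a b h
    exact hι h
  · intro i a b h
    rw [eEp]
    rcases ho : P.old a with _ | _
    · have : ι a = Sum.inr (a, 0) := iot_new P v ho
      rw [this]
      simp [epD, ho, h]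
    · have h1 : ι a = Sum.inl (v a) := iot_old P v ho
      have h2 : ι b = Sum.inl (v b) := iot_old P v (P.oldH i a b ho h)
      rw [h1, h2]
      change Sum.inl (ep i (v a)) = _
      rw [hO2 i a b ho h]
  · intro n hn s a b c h
    rw [eG]
    rcases hob : P.old b with _ | _
    · -- `b` new
      have hb : ι b = Sum.inr (b, 0) := iot_new P v hob
      have hidx : idx P v (eff n (ι a)) = a := by
        rcases hoa : P.old a with _ | _
        · have : ι a = Sum.inr (a, 0) := iot_new P v hoa
          rw [this]
          simp [eff, hn, hoa, idx]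
        · have : ι a = Sum.inl (v a) := iot_old P v hoa
          rw [this]
          exact idx_old P v hO1 hoa
      rw [hb]
      simp only [actD, hob, hidx, h]
      simp
    · have hb : ι b = Sum.inl (v b) := iot_old P v hob
      rw [hb]
      rcases hoa : P.old a with _ | _
      · have : ι a = Sum.inr (a, 0) := iot_new P v hoa
        rw [this]
        have he : eff n (Sum.inr (a, 0)) = Sum.inr a := by simp [eff, hn, hoa]
        rw [he]
        change slotD n a s (v b) = _
        rw [hslot1 n a s (v b) c]
        rw [specD_old P v hO1 n a s hob]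
        exact h
      · have : ι a = Sum.inl (v a) := iot_old P v hoa
        rw [this]
        have h2 : ι c = Sum.inl (v c) := iot_old P v (P.oldG n s a b c hoa hob h)
        rw [h2]
        change Sum.inl (gg n s (v a) (v b)) = _
        rw [hO3 n hn s a b c hoa hob h]

end solve

end Pool.Agent.MP568911
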